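import Pool.Agent.Helper46.TK.Local

/-!
# Thin laws, nonlinear case: sums of terms of different growth
-/

set_option autoImplicit false

namespace Pool.Agent.Helper46.TK

open Finset MeasureTheory ProbabilityTheory Filter Topology
open Pool.Agent.Helper59.RE (e norm_e e_add e_sub conj_e continuous_e e_zero)

/-- functions whose slopes grow at most like `r ^ n` near `x₀` -/
def TermAt (F Df : ℕ → ℝ → ℝ) (x₀ r δ : ℝ) : Prop :=
  ∀ ε : ℝ, 0 < ε → ∃ η : ℝ, 0 < η ∧ ∃ K : ℝ, 0 ≤ K ∧ ∀ (n : ℕ) (x y : ℝ), |x - x₀| ≤ η → |y - x₀| ≤ η →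
    |F n y - F n x - Df n x * (y - x)| ≤ K * (r + ε) ^ n * |y - x| ^ (1 + δ) ∧ |Df n x| ≤ K * (r + ε) ^ n

/-- functions whose slopes grow like `β ^ n` at the points near `x₀` outside of `N` -/
def LeadAt (b : ℕ) (N : Set ℝ) (F Df : ℕ → ℝ → ℝ) (x₀ r δ : ℝ) : Prop :=
  TermAt F Df x₀ r δ ∧ ∀ ε : ℝ, 0 < ε → ∃ η : ℝ, 0 < η ∧ ∀ x : ℝ, |x - x₀| ≤ η → x ∉ N →
    ∃ (H β K θ : ℝ) (R : ℕ → ℕ), 0 < H ∧ 1 < β ∧ Irrational (Real.log β / Real.log b) ∧ r - ε ≤ β ∧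
      (∀ n, 1 ≤ R n) ∧ (∀ n, R n ≤ n + 1) ∧ 0 < θ ∧ θ < 1 ∧
      ∀ n : ℕ, |(|Df n x| / (H * R n * β ^ n) - 1)| ≤ K * θ ^ n

theorem TermAt.zero (x₀ r δ : ℝ) : TermAt (fun _ _ => 0) (fun _ _ => 0) x₀ r δ := by
  intro ε hε
  refine ⟨1, one_pos, 0, le_rfl, fun n x y _ _ => ?_⟩
  simp

theorem TermAt.add {F Df G Dg : ℕ → ℝ → ℝ} {x₀ r δ : ℝ} (hF : TermAt F Df x₀ r δ) (hG : TermAt G Dg x₀ r δ) :
    TermAt (fun n x => F n x + G n x) (fun n x => Df n x + Dg n x) x₀ r δ := by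
  intro ε hε
  obtain ⟨η₁, hη₁, K₁, hK₁, h₁⟩ := hF ε hε
  obtain ⟨η₂, hη₂, K₂, hK₂, h₂⟩ := hG ε hε
  refine ⟨min η₁ η₂, lt_min hη₁ hη₂, K₁ + K₂, by positivity, fun n x y hx hy => ?_⟩
  obtain ⟨a1, a2⟩ := h₁ n x y (hx.trans (min_le_left _ _)) (hy.trans (min_le_left _ _))
  obtain ⟨b1, b2⟩ := h₂ n x y (hx.trans (min_le_right _ _)) (hy.trans (min_le_right _ _))
  constructor
  · have h3 : F n y + G n y - (F n x + G n x) - (Df n x + Dg n x) * (y - x) =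
        (F n y - F n x - Df n x * (y - x)) + (G n y - G n x - Dg n x * (y - x)) := by ring
    rw [h3]
    refine (abs_add_le _ _).trans ((add_le_add a1 b1).trans (le_of_eq ?_))
    ring
  · refine (abs_add_le _ _).trans ((add_le_add a2 b2).trans (le_of_eq ?_))
    ring

theorem TermAt.mono {F Df : ℕ → ℝ → ℝ} {x₀ r r' δ : ℝ} (hr : 0 ≤ r) (hrr : r ≤ r') (hF : TermAt F Df x₀ r δ) :
    TermAt F Df x₀ r' δ := by
  intro ε hε
  obtain ⟨η₁, hη₁, K₁, hK₁, h₁⟩ := hF ε hε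
  refine ⟨η₁, hη₁, K₁, hK₁, fun n x y hx hy => ?_⟩
  obtain ⟨a1, a2⟩ := h₁ n x y hx hy
  have h3 : (r + ε) ^ n ≤ (r' + ε) ^ n := pow_le_pow_left₀ (by linarith) (by linarith) n
  constructor
  · refine a1.trans ?_
    gcongr
  · refine a2.trans ?_
    gcongr

theorem TermAt.sum {ι : Type*} (s : Finset ι) (F Df : ι → ℕ → ℝ → ℝ) (x₀ r δ : ℝ)
    (h : ∀ i ∈ s, TermAt (F i) (Df i) x₀ r δ) :
    TermAt (fun n x => ∑ i ∈ s, F i n x) (fun n x => ∑ i ∈ s, Df i n x) x₀ r δ := by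
  classical
  induction s using Finset.induction_on with
  | empty => simpa using TermAt.zero x₀ r δ
  | insert i s hi ih =>
    have h1 := (h i (mem_insert_self i s)).add (ih fun j hj => h j (mem_insert_of_mem hj))
    simpa only [sum_insert hi] using h1

/-- adding something smaller -/
theorem LeadAt.add {b : ℕ} {N : Set ℝ} {F Df G Dg : ℕ → ℝ → ℝ} {x₀ r r' δ : ℝ} (hr' : 0 ≤ r') (hrr : r' < r)
    (hF : LeadAt b N F Df x₀ r δ) (hG : TermAt G Dg x₀ r' δ) :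
    LeadAt b N (fun n x => F n x + G n x) (fun n x => Df n x + Dg n x) x₀ r δ := by
  refine ⟨hF.1.add (hG.mono hr' hrr.le), fun ε hε => ?_⟩
  obtain ⟨ε', hε'⟩ : ∃ ε' : ℝ, ε' = min ε ((r - r') / 3) := ⟨_, rfl⟩
  have hε'0 : 0 < ε' := by rw [hε']; exact lt_min hε (by linarith)
  have hε'1 : ε' ≤ ε := by rw [hε']; exact min_le_left _ _
  have hε'2 : ε' ≤ (r - r') / 3 := by rw [hε']; exact min_le_right _ _
  obtain ⟨η₁, hη₁, h₁⟩ := hF.2 ε' hε'0
  obtain ⟨η₂, hη₂, K₂, hK₂, h₂⟩ := hG ε' hε'0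
  refine ⟨min η₁ η₂, lt_min hη₁ hη₂, fun x hx hxN => ?_⟩
  obtain ⟨H, β, K, θ, R, hH, hβ, hirr, hrβ, hR1, hR2, hθ0, hθ1, hg⟩ := h₁ x (hx.trans (min_le_left _ _)) hxN
  have hβ0 : 0 < β := by linarith
  have hlt : r' + ε' < β := by linarith
  have hK0 : 0 ≤ K := by
    have := (abs_nonneg _).trans (hg 0)
    simpa using this
  refine ⟨H, β, K + K₂ / H, max θ ((r' + ε') / β), R, hH, hβ, hirr, by linarith, hR1, hR2, lt_max_of_lt_left hθ0,
    max_lt hθ1 ((div_lt_one hβ0).2 hlt), fun n => ?_⟩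
  have h3 := hg n
  have h4 := (h₂ n x x (hx.trans (min_le_right _ _)) (hx.trans (min_le_right _ _))).2
  have hRn : (1 : ℝ) ≤ R n := by exact_mod_cast hR1 n
  have hM : 0 < H * R n * β ^ n := by positivity
  have h5 : |(|Df n x + Dg n x| / (H * R n * β ^ n) - |Df n x| / (H * R n * β ^ n))| ≤ K₂ / H * ((r' + ε') / β) ^ n := by
    rw [← sub_div, abs_div, abs_of_pos hM, div_le_iff₀ hM]
    calc |(|Df n x + Dg n x| - |Df n x|)| ≤ |Df n x + Dg n x - Df n x| := abs_abs_sub_abs_le_abs_sub _ _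
      _ = |Dg n x| := by rw [add_sub_cancel_left]
      _ ≤ K₂ * (r' + ε') ^ n := h4
      _ = K₂ / H * ((r' + ε') / β) ^ n * (H * 1 * β ^ n) := by
        rw [div_pow]
        field_simp
      _ ≤ K₂ / H * ((r' + ε') / β) ^ n * (H * R n * β ^ n) := by gcongr
  have h6 : |(|Df n x + Dg n x| / (H * R n * β ^ n) - 1)| ≤ K * θ ^ n + K₂ / H * ((r' + ε') / β) ^ n := by
    have h7 : |Df n x + Dg n x| / (H * R n * β ^ n) - 1 =
        (|Df n x| / (H * R n * β ^ n) - 1) + (|Df n x + Dg n x| / (H * R n * β ^ n) - |Df n x| / (H * R n * β ^ n)) := by ring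
    rw [h7]
    exact (abs_add_le _ _).trans (add_le_add h3 h5)
  refine h6.trans ?_
  rw [add_mul]
  apply add_le_add
  · gcongr
    exact le_max_left _ _
  · gcongr
    exact le_max_right _ _

/-- the local conditions of the abstract theorem -/
def LC (b : ℕ) (N : Set ℝ) (F Df : ℕ → ℝ → ℝ) (u v : ℝ) : Prop :=
  ∃ δ K B₂ c₀ : ℝ, 0 < δ ∧ 0 ≤ K ∧ 1 ≤ B₂ ∧ 0 < c₀ ∧
    (∀ (n : ℕ) (x y : ℝ), x ∈ Set.Icc u v → y ∈ Set.Icc u v →
      |F n y - F n x - Df n x * (y - x)| ≤ K * B₂ ^ n * |y - x| ^ (1 + δ)) ∧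
    Real.log B₂ < (1 + δ) * c₀ * Real.log b ∧ ∀ x ∈ Set.Ioo u v, x ∉ N → Growth b c₀ B₂ δ Df x

theorem LeadAt.lc {b : ℕ} (hb : 2 ≤ b) {N : Set ℝ} {F Df : ℕ → ℝ → ℝ} {x₀ r δ : ℝ} (hδ : 0 < δ) (hr : 1 < r)
    (hF : LeadAt b N F Df x₀ r δ) : ∃ u v : ℚ, x₀ ∈ Set.Ioo (u : ℝ) v ∧ LC b N F Df u v := by
  have hb1 : (1 : ℝ) < b := by exact_mod_cast (by omega : 1 < b)
  have hlb : 0 < Real.log b := Real.log_pos hb1
  have hlr : 0 < Real.log r := Real.log_pos hr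
  -- the choice of `ε`
  obtain ⟨ε, hε0, hε1, hε2⟩ : ∃ ε : ℝ, 0 < ε ∧ 1 < r - ε ∧ Real.log (r + ε) < (1 + δ) * Real.log (r - ε) := by
    have h1 : ContinuousAt (fun t : ℝ => (1 + δ) * Real.log (r - t) - Real.log (r + t)) 0 := by
      apply ContinuousAt.sub
      · apply ContinuousAt.mul continuousAt_const
        apply ContinuousAt.log
        · fun_prop
        · simp
          linarith
      · apply ContinuousAt.log
        · fun_prop
        · simp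
          linarith
    have h2 : 0 < (1 + δ) * Real.log (r - 0) - Real.log (r + 0) := by
      rw [sub_zero, add_zero]
      nlinarith
    have h3 := h1.eventually_const_lt h2
    have h4 : ∀ᶠ t : ℝ in 𝓝 0, t < r - 1 := eventually_lt_nhds (by linarith)
    have h5 : ∀ᶠ t : ℝ in 𝓝[>] (0 : ℝ), 0 < (1 + δ) * Real.log (r - t) - Real.log (r + t) ∧ t < r - 1 ∧ 0 < t :=
      ((h3.and h4).filter_mono nhdsWithin_le_nhds).and self_mem_nhdsWithin |>.mono fun t ht => ⟨ht.1.1, ht.1.2, ht.2⟩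
    obtain ⟨t, ht1, ht2, ht3⟩ := h5.exists
    exact ⟨t, ht3, by linarith, by linarith⟩
  obtain ⟨η₁, hη₁, K, hK, h₁⟩ := hF.1 ε hε0
  obtain ⟨η₂, hη₂, h₂⟩ := hF.2 ε hε0
  obtain ⟨u, hu1, hu2⟩ := exists_rat_btwn (by have := lt_min hη₁ hη₂; linarith : x₀ - min η₁ η₂ < x₀)
  obtain ⟨v, hv1, hv2⟩ := exists_rat_btwn (by have := lt_min hη₁ hη₂; linarith : x₀ < x₀ + min η₁ η₂)
  have hnear : ∀ x : ℝ, x ∈ Set.Icc (u : ℝ) v → |x - x₀| ≤ min η₁ η₂ := by
    intro x hx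
    rw [abs_le]
    constructor <;> linarith [hx.1, hx.2]
  refine ⟨u, v, ⟨hu2, hv1⟩, ?_⟩
  obtain ⟨c₀, hc₀⟩ : ∃ c₀ : ℝ, c₀ = (Real.log (r + ε) / (1 + δ) + Real.log (r - ε)) / 2 / Real.log b := ⟨_, rfl⟩
  have hl1 : 0 < Real.log (r + ε) := Real.log_pos (by linarith)
  have hl2 : 0 < Real.log (r - ε) := Real.log_pos hε1
  have hq : Real.log (r + ε) / (1 + δ) < Real.log (r - ε) := by
    rw [div_lt_iff₀ (by linarith)]
    linarith
  have hq0 : 0 < Real.log (r + ε) / (1 + δ) := by positivity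
  have hc₀b : c₀ * Real.log b = (Real.log (r + ε) / (1 + δ) + Real.log (r - ε)) / 2 := by
    rw [hc₀]
    field_simp
  have hc1 : c₀ * Real.log b < Real.log (r - ε) := by rw [hc₀b]; linarith
  have hc2 : Real.log (r + ε) < (1 + δ) * c₀ * Real.log b := by
    have h1 : Real.log (r + ε) / (1 + δ) < c₀ * Real.log b := by rw [hc₀b]; linarith
    rw [div_lt_iff₀ (by linarith)] at h1
    linarith
  refine ⟨δ, K, r + ε, c₀, hδ, hK, by linarith, by rw [hc₀]; positivity, fun n x y hx hy => ?_, hc2, fun x hx hxN => ?_⟩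
  · exact (h₁ n x y ((hnear x hx).trans (min_le_left _ _)) ((hnear y hy).trans (min_le_left _ _))).1
  · obtain ⟨H, β, K', θ, R, hH, hβ, hirr, hrβ, hR1, hR2, hθ0, hθ1, hg⟩ :=
      h₂ x ((hnear x (Set.Ioo_subset_Icc_self hx)).trans (min_le_right _ _)) hxN
    have hlβ : Real.log (r - ε) ≤ Real.log β := Real.log_le_log (by linarith) hrβ
    refine ⟨H, β, K', θ, R, hH, hβ, hirr, hc1.trans_le hlβ, ?_, hR1, hR2, hθ0, hθ1, hg⟩
    calc Real.log (r + ε) < (1 + δ) * c₀ * Real.log b := hc2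
      _ = c₀ * Real.log b + δ * c₀ * Real.log b := by ring
      _ < Real.log β + δ * c₀ * Real.log b := by linarith

/-- from local to global -/
theorem globalize {Ω : Type*} [MeasurableSpace Ω] (μ : Measure Ω) [IsProbabilityMeasure μ] (b C : ℕ) (ξ : ℕ → Ω → ℤ)
    (p : ℕ → ℝ) (hT : Thin μ b C ξ p) (D : ℕ) (a : ℕ → ℕ) (ha : StrictMono a) (haD : ∀ n, a n ≤ D * (n + 1)) (c : ℕ → ℝ)
    (F Df : ℕ → ℝ → ℝ) (hF : ∀ n, Measurable (F n)) (N P : Set ℝ) (hN : N.Countable)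
    (h : ∀ x ∈ P, x ∉ N → ∃ u v : ℚ, x ∈ Set.Ioo (u : ℝ) v ∧ LC b N F Df u v) :
    ∀ᵐ ω ∂μ, XX b ξ ω ∈ P → Tendsto (fun N : ℕ => ‖∑ i ∈ range N, e (F (a i) (XX b ξ ω) + c i)‖ / N) atTop (𝓝 0) := by
  have h1 : ∀ᵐ ω ∂μ, ∀ u v : ℚ, LC b N F Df u v → XX b ξ ω ∈ Set.Ioo (u : ℝ) v →
      Tendsto (fun N : ℕ => ‖∑ i ∈ range N, e (F (a i) (XX b ξ ω) + c i)‖ / N) atTop (𝓝 0) := by
    rw [ae_all_iff]
    intro u
    rw [ae_all_iff]
    intro v
    by_cases hLC : LC b N F Df u v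
    · obtain ⟨δ, K, B₂, c₀, hδ, hK, hB, hc₀, hlin, h1, hgr⟩ := hLC
      have h2 := abstract_weyl μ ξ hT.hξ hT.hind C hT.hC b hT.hb p hT.hp hT.hp' D a ha haD c u v F Df hF δ K B₂ c₀ hδ hK hB hc₀
        hlin h1 (by
          filter_upwards [avoid μ b C ξ p hT N hN] with ω hω hX
          exact hgr _ hX hω)
      filter_upwards [h2] with ω hω _ hX
      exact hω hX
    · exact Eventually.of_forall fun ω h => absurd h hLC
  filter_upwards [h1, avoid μ b C ξ p hT N hN] with ω hω hωN hP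
  obtain ⟨u, v, huv, hLC⟩ := h _ hP hωN
  exact hω u v hLC huv

/-- Hölder continuity of the derivative near `x₀` -/
def HolAt (f : ℝ → ℝ) (x₀ δ : ℝ) : Prop :=
  ∃ K : ℝ, 0 ≤ K ∧ ∀ x y : ℝ, |x - x₀| ≤ 1 / 2 → |y - x₀| ≤ 1 / 2 → |deriv f x - deriv f y| ≤ K * |x - y| ^ δ

/-- differentiable, with locally Hölder continuous derivative -/
def LHol (f : ℝ → ℝ) : Prop :=
  Differentiable ℝ f ∧ ∀ M : ℝ, ∃ K δ : ℝ, 0 < δ ∧ ∀ x y : ℝ, |x| ≤ M → |y| ≤ M → |deriv f x - deriv f y| ≤ K * |x - y| ^ δ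

theorem LHol.eventually {f : ℝ → ℝ} (hf : LHol f) (x₀ : ℝ) : ∀ᶠ δ in 𝓝[>] (0 : ℝ), HolAt f x₀ δ := by
  obtain ⟨K, δ, hδ, h⟩ := hf.2 (|x₀| + 1)
  have h1 : ∀ᶠ t : ℝ in 𝓝[>] (0 : ℝ), t < δ := (eventually_lt_nhds hδ).filter_mono nhdsWithin_le_nhds
  filter_upwards [h1] with t ht
  refine ⟨max K 0, le_max_right _ _, fun x y hx hy => ?_⟩
  rcases eq_or_ne x y with rfl | hne
  · rw [sub_self, abs_zero, sub_self, abs_zero]
    positivity
  have hx' : |x| ≤ |x₀| + 1 := by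
    have := abs_add_le (x - x₀) x₀
    rw [sub_add_cancel] at this
    linarith
  have hy' : |y| ≤ |x₀| + 1 := by
    have := abs_add_le (y - x₀) x₀
    rw [sub_add_cancel] at this
    linarith
  have hxy : |x - y| ≤ 1 := by
    have h2 : x - y = (x - x₀) - (y - x₀) := by ring
    rw [h2]
    refine (abs_sub _ _).trans ?_
    linarith
  have h3 := Real.rpow_le_rpow_of_exponent_ge (abs_pos.2 (sub_ne_zero.2 hne)) hxy ht.le
  calc |deriv f x - deriv f y| ≤ K * |x - y| ^ δ := h x y hx' hy'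
    _ ≤ max K 0 * |x - y| ^ δ := by
      gcongr
      exact le_max_left _ _
    _ ≤ max K 0 * |x - y| ^ t := by gcongr

theorem icc_of_abs {x₀ η x : ℝ} : x ∈ Set.Icc (x₀ - η) (x₀ + η) ↔ |x - x₀| ≤ η := by
  rw [abs_le, Set.mem_Icc]
  constructor
  · rintro ⟨h1, h2⟩
    constructor <;> linarith
  · rintro ⟨h1, h2⟩
    constructor <;> linarith

theorem HolAt.bound {f : ℝ → ℝ} {x₀ δ : ℝ} (hδ : 0 < δ) (hf : HolAt f x₀ δ) :
    ∃ L : ℝ, 0 ≤ L ∧ ∀ x : ℝ, |x - x₀| ≤ 1 / 2 → |deriv f x| ≤ L := by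
  obtain ⟨K, hK, h⟩ := hf
  refine ⟨K + |deriv f x₀|, by positivity, fun x hx => ?_⟩
  have h1 := h x x₀ hx (by rw [sub_self, abs_zero]; norm_num)
  have h2 : |x - x₀| ^ δ ≤ 1 := Real.rpow_le_one (abs_nonneg _) (by linarith) hδ.le
  have h3 := abs_add_le (deriv f x - deriv f x₀) (deriv f x₀)
  rw [sub_add_cancel] at h3
  have h4 : K * |x - x₀| ^ δ ≤ K * 1 := mul_le_mul_of_nonneg_left h2 hK
  linarith

/-- multiples: the bound -/
theorem mult_term (f : ℝ → ℝ) (hd : Differentiable ℝ f) (x₀ δ : ℝ) (hδ : 0 < δ) (hf : HolAt f x₀ δ) (r Kw : ℝ) (hr : 0 ≤ r)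
    (hKw : 0 ≤ Kw) (w : ℕ → ℝ) (hw : ∀ n, |w n| ≤ Kw * r ^ n) : TermAt (fun n x => f x * w n) (fun n x => deriv f x * w n) x₀ r δ := by
  intro ε hε
  obtain ⟨L, hL, hbd⟩ := hf.bound hδ
  obtain ⟨K, hK, h⟩ := hf
  refine ⟨1 / 2, by norm_num, (K + L) * Kw, by positivity, fun n x y hx hy => ?_⟩
  have hwn : |w n| ≤ Kw * (r + ε) ^ n := by
    refine (hw n).trans ?_
    have : r ^ n ≤ (r + ε) ^ n := pow_le_pow_left₀ hr (by linarith) n
    gcongr
  constructor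
  · have h1 := lin_of_hol (x₀ - 1 / 2) (x₀ + 1 / 2) δ K hδ hK f (deriv f) (fun x _ => (hd x).hasDerivAt)
      (fun x y hx hy => h x y (icc_of_abs.1 hx) (icc_of_abs.1 hy)) x y (icc_of_abs.2 hx) (icc_of_abs.2 hy)
    have h2 : f y * w n - f x * w n - deriv f x * w n * (y - x) = (f y - f x - deriv f x * (y - x)) * w n := by ring
    rw [h2, abs_mul]
    calc |f y - f x - deriv f x * (y - x)| * |w n| ≤ (K * |y - x| ^ (1 + δ)) * (Kw * (r + ε) ^ n) :=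
          mul_le_mul h1 hwn (abs_nonneg _) (by positivity)
      _ ≤ ((K + L) * |y - x| ^ (1 + δ)) * (Kw * (r + ε) ^ n) := by
          gcongr
          linarith
      _ = _ := by ring
  · rw [abs_mul]
    calc |deriv f x| * |w n| ≤ L * (Kw * (r + ε) ^ n) := mul_le_mul (hbd x hx) hwn (abs_nonneg _) hL
      _ ≤ (K + L) * (Kw * (r + ε) ^ n) := by
          gcongr
          linarith
      _ = _ := by ring

/-- multiples: the leading term -/
theorem mult_lead (b : ℕ) (N : Set ℝ) (f : ℝ → ℝ) (hd : Differentiable ℝ f) (x₀ δ : ℝ) (hδ : 0 < δ) (hf : HolAt f x₀ δ)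
    (β γ K ρ : ℝ) (hβ : 1 < β) (hirr : Irrational (Real.log β / Real.log b)) (hγ0 : 0 ≤ γ) (hγ : γ < β)
    (hρ : ρ ≠ 0) (w : ℕ → ℝ) (hw : ∀ n, |w n - ρ * β ^ n| ≤ K * γ ^ n) (hN : ∀ x, x ∉ N → deriv f x ≠ 0) :
    LeadAt b N (fun n x => f x * w n) (fun n x => deriv f x * w n) x₀ β δ := by
  have hβ0 : 0 < β := by linarith
  have hρ0 : 0 < |ρ| := abs_pos.2 hρ
  have hK0 : 0 ≤ K := by
    have := (abs_nonneg _).trans (hw 0)
    simpa using this
  have hwb : ∀ n, |w n| ≤ (|ρ| + K) * β ^ n := by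
    intro n
    have h4 : |w n| ≤ |w n - ρ * β ^ n| + |ρ * β ^ n| := by
      have := abs_add_le (w n - ρ * β ^ n) (ρ * β ^ n)
      rwa [sub_add_cancel] at this
    have h5 : |ρ * β ^ n| = |ρ| * β ^ n := by rw [abs_mul, abs_of_pos (pow_pos hβ0 n)]
    have h6 : K * γ ^ n ≤ K * β ^ n := by gcongr
    have h7 := hw n
    rw [h5] at h4
    linarith
  refine ⟨mult_term f hd x₀ δ hδ hf β (|ρ| + K) hβ0.le (by positivity) w hwb, fun ε hε => ⟨1, one_pos, fun x _ hxN => ?_⟩⟩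
  have hf0 : 0 < |deriv f x| := abs_pos.2 (hN x hxN)
  refine ⟨|deriv f x| * |ρ|, β, K / |ρ|, max (γ / β) (1 / 2), fun _ => 1, by positivity, hβ, hirr, by linarith,
    fun _ => le_rfl, fun n => by simp, by positivity, max_lt ((div_lt_one hβ0).2 hγ) (by norm_num), ?_⟩
  intro n
  have hβn : 0 < β ^ n := pow_pos hβ0 n
  rw [Nat.cast_one, mul_one, abs_mul]
  have h1 : |deriv f x| * |w n| / (|deriv f x| * |ρ| * β ^ n) - 1 = (|w n| - |ρ * β ^ n|) / (|ρ| * β ^ n) := by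
    rw [abs_mul, abs_of_pos hβn]
    field_simp
  rw [h1, abs_div, abs_of_pos (by positivity : 0 < |ρ| * β ^ n), div_le_iff₀ (by positivity)]
  calc |(|w n| - |ρ * β ^ n|)| ≤ |w n - ρ * β ^ n| := abs_abs_sub_abs_le_abs_sub _ _
    _ ≤ K * γ ^ n := hw n
    _ = K / |ρ| * (γ / β) ^ n * (|ρ| * β ^ n) := by
      rw [div_pow]
      field_simp
    _ ≤ K / |ρ| * (max (γ / β) (1 / 2)) ^ n * (|ρ| * β ^ n) := by
      gcongr
      exact le_max_left _ _

theorem sq_pow_le (M B : ℝ) (hM : 0 < M) (hMB : M < B) : ∃ K₅ : ℝ, 0 ≤ K₅ ∧ ∀ n : ℕ, (n : ℝ) ^ 2 * M ^ n ≤ K₅ * B ^ n := by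
  have hB0 : 0 < B := hM.trans hMB
  have h1 : Tendsto (fun n : ℕ => (n : ℝ) ^ 2 * (M / B) ^ n) atTop (𝓝 0) :=
    tendsto_pow_const_mul_const_pow_of_abs_lt_one 2 (by
      rw [abs_of_pos (by positivity), div_lt_one hB0]
      exact hMB)
  obtain ⟨K₅, hK₅⟩ := h1.bddAbove_range
  refine ⟨max K₅ 0, le_max_right _ _, fun n => ?_⟩
  have h2 : (n : ℝ) ^ 2 * (M / B) ^ n ≤ max K₅ 0 := (hK₅ ⟨n, rfl⟩).trans (le_max_left _ _)
  have h3 : (n : ℝ) ^ 2 * M ^ n = (n : ℝ) ^ 2 * (M / B) ^ n * B ^ n := by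
    rw [div_pow]
    field_simp
  rw [h3]
  exact mul_le_mul_of_nonneg_right h2 (by positivity)

/-- powers: the bound -/
theorem pow_term (f : ℝ → ℝ) (hd : Differentiable ℝ f) (x₀ δ : ℝ) (hδ : 0 < δ) (hδ1 : δ ≤ 1) (hf : HolAt f x₀ δ)
    (hf1 : 1 < f x₀) (ρ : ℝ) : TermAt (fun n x => ρ * f x ^ n) (fun n x => ρ * (n * f x ^ (n - 1) * deriv f x)) x₀ (f x₀) δ := by
  intro ε hε
  obtain ⟨L, hL, hbd⟩ := hf.bound hδ
  obtain ⟨K, hK, h⟩ := hf
  obtain ⟨K₅, hK₅0, hK₅⟩ := sq_pow_le (f x₀ + ε / 2) (f x₀ + ε) (by linarith) (by linarith)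
  have hcont : ContinuousAt f x₀ := hd.continuous.continuousAt
  have hnear : ∀ᶠ x in 𝓝 x₀, 1 < f x ∧ f x < f x₀ + ε / 2 :=
    (hcont.eventually_const_lt hf1).and (hcont.eventually_lt_const (by linarith))
  obtain ⟨η, hη, hη'⟩ := Metric.eventually_nhds_iff.1 hnear
  obtain ⟨η', hη'0, hη'1, hη'2⟩ : ∃ η' : ℝ, 0 < η' ∧ η' < η ∧ η' ≤ 1 / 2 :=
    ⟨min (η / 2) (1 / 2), by positivity, (min_le_left _ _).trans_lt (by linarith), min_le_right _ _⟩
  have hin : ∀ x, |x - x₀| ≤ η' → 1 < f x ∧ f x < f x₀ + ε / 2 := by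
    intro x hx
    apply hη'
    rw [Real.dist_eq]
    linarith
  refine ⟨η', hη'0, |ρ| * (K + L ^ 2) * K₅ + |ρ| * L * K₅, by positivity, fun n x y hx hy => ?_⟩
  have hb0 : 0 < f x₀ + ε := by linarith
  constructor
  · have h1 := lin_of_hol (x₀ - η') (x₀ + η') δ (|ρ| * (K + L ^ 2) * K₅ * (f x₀ + ε) ^ n) hδ (by positivity)
      (fun x => ρ * f x ^ n) (fun x => ρ * (n * f x ^ (n - 1) * deriv f x)) (fun x _ => ((hd x).hasDerivAt.pow n).const_mul ρ)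
      (fun x y hx hy => by
        rw [icc_of_abs] at hx hy
        rw [← mul_sub, abs_mul]
        have h2 := pow_hol f (deriv f) (x₀ - η') (x₀ + η') δ K L (f x₀ + ε / 2) hδ hδ1 hK hL (by linarith) (by linarith)
          (fun x _ => (hd x).hasDerivAt)
          (fun x y hx hy => h x y ((icc_of_abs.1 hx).trans hη'2) ((icc_of_abs.1 hy).trans hη'2))
          (fun x hx => by linarith [(hin x (icc_of_abs.1 hx)).1]) (fun x hx => (hin x (icc_of_abs.1 hx)).2.le)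
          (fun x hx => hbd x ((icc_of_abs.1 hx).trans hη'2)) n x y (icc_of_abs.2 hx) (icc_of_abs.2 hy)
        calc |ρ| * |n * f x ^ (n - 1) * deriv f x - n * f y ^ (n - 1) * deriv f y| ≤
              |ρ| * ((K + L ^ 2) * ((n : ℝ) ^ 2 * (f x₀ + ε / 2) ^ n) * |x - y| ^ δ) := by gcongr
          _ ≤ |ρ| * ((K + L ^ 2) * (K₅ * (f x₀ + ε) ^ n) * |x - y| ^ δ) := by
            have h3 := hK₅ n
            have h4 : 0 ≤ |ρ| * (K + L ^ 2) * |x - y| ^ δ := by positivity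
            have h5 := mul_le_mul_of_nonneg_left h3 h4
            linarith
          _ = _ := by ring) x y (icc_of_abs.2 hx) (icc_of_abs.2 hy)
    refine h1.trans ?_
    have : 0 ≤ |ρ| * L * K₅ := by positivity
    gcongr
    linarith
  · have hfx := hin x hx
    have h1 : |ρ * (n * f x ^ (n - 1) * deriv f x)| ≤ |ρ| * L * (K₅ * (f x₀ + ε) ^ n) := by
      rcases Nat.eq_zero_or_pos n with rfl | hn
      · simp
        positivity
      · rw [abs_mul, abs_mul, abs_mul, abs_of_nonneg (Nat.cast_nonneg n : (0 : ℝ) ≤ (n : ℝ)), abs_pow, abs_of_pos (by linarith [hfx.1] : 0 < f x)]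
        have h2 : f x ^ (n - 1) ≤ (f x₀ + ε / 2) ^ n := by
          calc f x ^ (n - 1) ≤ f x ^ n := pow_le_pow_right₀ hfx.1.le (by omega)
            _ ≤ (f x₀ + ε / 2) ^ n := pow_le_pow_left₀ (by linarith [hfx.1]) hfx.2.le n
        have hn1 : (1 : ℝ) ≤ n := by exact_mod_cast hn
        have h3 : (n : ℝ) * f x ^ (n - 1) ≤ K₅ * (f x₀ + ε) ^ n := by
          calc (n : ℝ) * f x ^ (n - 1) ≤ (n : ℝ) ^ 2 * (f x₀ + ε / 2) ^ n := by
                apply mul_le_mul _ h2 (pow_nonneg (by linarith [hfx.1]) _) (by positivity)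
                nlinarith
            _ ≤ _ := hK₅ n
        calc |ρ| * ((n : ℝ) * f x ^ (n - 1) * |deriv f x|) ≤ |ρ| * ((K₅ * (f x₀ + ε) ^ n) * L) := by
              gcongr
              exact hbd x (hx.trans hη'2)
          _ = _ := by ring
    refine h1.trans ?_
    have : 0 ≤ |ρ| * (K + L ^ 2) * K₅ * (f x₀ + ε) ^ n := by positivity
    linarith

/-- powers: the leading term -/
theorem pow_lead (b : ℕ) (N : Set ℝ) (f : ℝ → ℝ) (hd : Differentiable ℝ f) (x₀ δ : ℝ) (hδ : 0 < δ) (hδ1 : δ ≤ 1)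
    (hf : HolAt f x₀ δ) (hf1 : 1 < f x₀) (ρ : ℝ) (hρ : ρ ≠ 0) (hN : ∀ x, x ∉ N → deriv f x ≠ 0)
    (hN' : ∀ x, x ∉ N → 1 < f x → Irrational (Real.log (f x) / Real.log b)) :
    LeadAt b N (fun n x => ρ * f x ^ n) (fun n x => ρ * (n * f x ^ (n - 1) * deriv f x)) x₀ (f x₀) δ := by
  refine ⟨pow_term f hd x₀ δ hδ hδ1 hf hf1 ρ, fun ε hε => ?_⟩
  have hcont : ContinuousAt f x₀ := hd.continuous.continuousAt
  have hnear : ∀ᶠ x in 𝓝 x₀, 1 < f x ∧ f x₀ - ε < f x :=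
    (hcont.eventually_const_lt hf1).and (hcont.eventually_const_lt (by linarith))
  obtain ⟨η, hη, hη'⟩ := Metric.eventually_nhds_iff.1 hnear
  refine ⟨η / 2, by linarith, fun x hx hxN => ?_⟩
  obtain ⟨hfx, hfx2⟩ := hη' (show dist x x₀ < η by rw [Real.dist_eq]; linarith)
  have hρ0 : 0 < |ρ| := abs_pos.2 hρ
  have hf0 : 0 < |deriv f x| := abs_pos.2 (hN x hxN)
  have hf00 : 0 < f x := by linarith
  refine ⟨|ρ| * |deriv f x| / f x, f x, 1, 1 / 2, fun n => max n 1, by positivity, hfx, hN' x hxN hfx, hfx2.le,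
    fun n => le_max_right _ _, fun n => max_le (by omega) (by omega), by norm_num, by norm_num, ?_⟩
  intro n
  rcases Nat.eq_zero_or_pos n with rfl | hn
  · simp
  · have hmx : (fun n : ℕ => max n 1) n = n := max_eq_left hn
    rw [hmx]
    simp only
    have hnR : (0 : ℝ) < n := by exact_mod_cast hn
    have h1 : |ρ * (n * f x ^ (n - 1) * deriv f x)| = |ρ| * |deriv f x| / f x * n * f x ^ n := by
      rw [abs_mul, abs_mul, abs_mul, abs_of_pos hnR, abs_of_pos (pow_pos hf00 _)]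
      have h2 : f x ^ n = f x ^ (n - 1) * f x := by
        rw [← pow_succ]
        congr 1
        omega
      rw [h2]
      field_simp
    rw [h1, div_self (by positivity), sub_self, abs_zero]
    positivity

/-- the fibres are countable -/
theorem fiber_countable (f : ℝ → ℝ) (hd : Differentiable ℝ f) (hz : {x | deriv f x = 0}.Countable) (c : ℝ) :
    {x | f x = c}.Countable := by
  have h1 : {x | f x = c} ⊆ {x | deriv f x = 0} ∪ {x | f x = c ∧ deriv f x ≠ 0} := by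
    intro x hx
    by_cases h : deriv f x = 0
    · exact Or.inl h
    · exact Or.inr ⟨hx, h⟩
  refine (hz.union ?_).mono h1
  have h2 : ∀ x ∈ {x | f x = c ∧ deriv f x ≠ 0}, ∃ q : ℚ × ℚ, x ∈ Set.Ioo (q.1 : ℝ) q.2 ∧
      ∀ y ∈ Set.Ioo (q.1 : ℝ) q.2, f y = c → y = x := by
    intro x hx
    have h3 : ∀ᶠ z in 𝓝[≠] x, f z ≠ c := (hd x).hasDerivAt.eventually_ne hx.2
    rw [eventually_nhdsWithin_iff] at h3
    obtain ⟨η, hη, hη'⟩ := Metric.eventually_nhds_iff.1 h3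
    obtain ⟨u, hu1, hu2⟩ := exists_rat_btwn (by linarith : x - η < x)
    obtain ⟨v, hv1, hv2⟩ := exists_rat_btwn (by linarith : x < x + η)
    refine ⟨(u, v), ⟨hu2, hv1⟩, fun y hy hyc => ?_⟩
    by_contra hne
    exact hη' (show dist y x < η by
      rw [Real.dist_eq, abs_lt]
      constructor <;> linarith [hy.1, hy.2]) hne hyc
  choose! q hq using h2
  have hinj : Set.InjOn q {x | f x = c ∧ deriv f x ≠ 0} := by
    intro x hx y hy hxy
    obtain ⟨h3, h4⟩ := hq x hx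
    obtain ⟨h5, h6⟩ := hq y hy
    rw [← hxy] at h5
    exact (h4 y h5 hy.1).symm
  exact Set.countable_of_injective_of_countable_image hinj (Set.to_countable _)

end Pool.Agent.Helper46.TK
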