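import Pool.Agent.Helper46.TK.Pair
import Pool.Agent.Helper46.RB.As

/-!
# Thin laws, nonlinear case: almost sure decay of the exponential sums
-/

set_option autoImplicit false

namespace Pool.Agent.Helper46.TK

open Finset MeasureTheory ProbabilityTheory Filter Topology
open Pool.Agent.Helper59.RE (e norm_e e_add e_sub conj_e continuous_e)
open Pool.Agent.Helper46.RB (log_floor_pow)

/-- along a geometric sequence -/
theorem as_small_w {Ω : Type*} [MeasurableSpace Ω] (μ : Measure Ω) [IsProbabilityMeasure μ]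
    (Y : ℕ → Ω → ℝ) (hY : ∀ i, Measurable (Y i)) (A : Set Ω) (η : ℝ) (hη : 0 < η)
    (g : ℕ → ℕ → Ω → ℝ) (hgm : ∀ J i, Measurable (g J i)) (hg1 : ∀ J i ω, g J i ω ≤ 1) (hg0 : ∀ J i ω, 0 ≤ g J i ω)
    (hsm : ∃ (K : ℝ) (J₀ : ℕ), ∀ J : ℕ, J₀ ≤ J →
      ∫ ω, ‖∑ i ∈ range J, ((g J i ω : ℝ) : ℂ) * e (Y i ω)‖ ^ 2 ∂μ ≤ K * (J : ℝ) ^ 2 / Real.log J ^ 2)
    (hcnt : ∀ᵐ ω ∂μ, ω ∈ A → ∃ J₀ : ℕ, ∀ J : ℕ, J₀ ≤ J → ∑ i ∈ range J, (1 - g J i ω) ≤ η * J)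
    (a : ℝ) (ha : 1 < a) :
    ∀ᵐ ω ∂μ, ω ∈ A → ∀ᶠ j : ℕ in atTop, ‖∑ i ∈ range ⌊a ^ j⌋₊, e (Y i ω)‖ ≤ 2 * η * (⌊a ^ j⌋₊ : ℕ) := by
  obtain ⟨K, J₀, hJ⟩ := hsm
  obtain ⟨j₁, hj₁⟩ := log_floor_pow ha
  have hla : 0 < Real.log a := Real.log_pos ha
  have htend : Tendsto (fun j : ℕ => ⌊a ^ j⌋₊) atTop atTop :=
    (tendsto_nat_floor_atTop (α := ℝ)).comp (tendsto_pow_atTop_atTop_of_one_lt ha)
  obtain ⟨j₂, hj₂⟩ := (htend.eventually_ge_atTop J₀).exists_forall_of_atTop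
  set j₃ := max (max j₁ j₂) 1 with hj₃
  set S : ℕ → Ω → ℝ := fun j ω => ‖∑ i ∈ range ⌊a ^ j⌋₊, ((g ⌊a ^ j⌋₊ i ω : ℝ) : ℂ) * e (Y i ω)‖ with hS
  set B : ℕ → Set Ω := fun j => if j₃ ≤ j then {ω | η * (⌊a ^ j⌋₊ : ℕ) ≤ S j ω} else ∅ with hB
  set C : ℝ := max K 0 / (η ^ 2 * (Real.log a / 2) ^ 2) with hC
  have hC0 : 0 ≤ C := by positivity
  have hmeas : ∀ j, μ (B j) ≤ ENNReal.ofReal (C * (1 / (j : ℝ) ^ 2)) := by
    intro j
    rw [hB]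
    simp only
    split_ifs with hj
    · have hj1 : j₁ ≤ j := by omega
      have hj2 : j₂ ≤ j := by omega
      have hj0 : 1 ≤ j := by omega
      have hjR : (1 : ℝ) ≤ j := by exact_mod_cast hj0
      obtain ⟨hlog, hone⟩ := hj₁ j hj1
      have hsum := hJ _ (hj₂ j hj2)
      have hSj : ∀ ω, S j ω = ‖∑ i ∈ range ⌊a ^ j⌋₊, ((g ⌊a ^ j⌋₊ i ω : ℝ) : ℂ) * e (Y i ω)‖ := fun ω => rfl
      set J := ⌊a ^ j⌋₊ with hJdef
      have hJR : (1 : ℝ) ≤ J := by exact_mod_cast hone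
      have hlogpos : 0 < Real.log J := lt_of_lt_of_le (by positivity) hlog
      have hsub : {ω | η * (J : ℝ) ≤ S j ω} ⊆ {ω | (η * J) ^ 2 ≤ S j ω ^ 2} := by
        intro ω hω
        rw [Set.mem_ofPred_eq] at hω ⊢
        exact pow_le_pow_left₀ (by positivity) hω 2
      have hmS : Measurable fun ω => S j ω ^ 2 := by
        have : Measurable fun ω => ∑ i ∈ range J, ((g J i ω : ℝ) : ℂ) * e (Y i ω) :=
          Finset.measurable_fun_sum _ fun i _ =>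
            (Complex.measurable_ofReal.comp (hgm J i)).mul (continuous_e.measurable.comp (hY i))
        exact (this.norm).pow_const 2
      have hint : Integrable (fun ω => S j ω ^ 2) μ := by
        refine (integrable_const ((J : ℝ) ^ 2)).mono' hmS.aestronglyMeasurable (Eventually.of_forall fun ω => ?_)
        rw [Real.norm_eq_abs, abs_of_nonneg (by positivity), hSj]
        apply pow_le_pow_left₀ (norm_nonneg _)
        refine (norm_sum_le _ _).trans ?_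
        have h1 : ∀ i ∈ range J, ‖((g J i ω : ℝ) : ℂ) * e (Y i ω)‖ ≤ 1 := by
          intro i _
          rw [norm_mul, norm_e, mul_one, Complex.norm_real, Real.norm_eq_abs, abs_of_nonneg (hg0 _ _ _)]
          exact hg1 _ _ _
        refine (Finset.sum_le_sum h1).trans ?_
        rw [Finset.sum_const, nsmul_eq_mul, mul_one, Finset.card_range]
      have hmk := mul_meas_ge_le_integral_of_nonneg (μ := μ) (f := fun ω => S j ω ^ 2)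
        (Eventually.of_forall fun ω => by positivity) hint ((η * J) ^ 2)
      have h8 : ∫ ω, S j ω ^ 2 ∂μ ≤ max K 0 * (J : ℝ) ^ 2 / Real.log J ^ 2 := by
        refine hsum.trans ?_
        have : K ≤ max K 0 := le_max_left _ _
        gcongr
      have h9 : μ.real {ω | (η * J) ^ 2 ≤ S j ω ^ 2} ≤ C * (1 / (j : ℝ) ^ 2) := by
        have h10 : (η * J) ^ 2 * μ.real {ω | (η * J) ^ 2 ≤ S j ω ^ 2} ≤ max K 0 * (J : ℝ) ^ 2 / Real.log J ^ 2 := hmk.trans h8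
        have h11 : μ.real {ω | (η * J) ^ 2 ≤ S j ω ^ 2} ≤ max K 0 / (η ^ 2 * Real.log J ^ 2) := by
          rw [le_div_iff₀ (by positivity)]
          have h12 : (η * J) ^ 2 * μ.real {ω | (η * J) ^ 2 ≤ S j ω ^ 2} * Real.log J ^ 2 ≤ max K 0 * (J : ℝ) ^ 2 := by
            rwa [le_div_iff₀ (by positivity)] at h10
          have h13 : (J : ℝ) ^ 2 * (μ.real {ω | (η * J) ^ 2 ≤ S j ω ^ 2} * (η ^ 2 * Real.log J ^ 2)) ≤ (J : ℝ) ^ 2 * max K 0 := by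
            nlinarith
          exact le_of_mul_le_mul_left h13 (by positivity)
        refine h11.trans ?_
        rw [hC, div_mul_div_comm, mul_one]
        apply div_le_div_of_nonneg_left (le_max_right _ _) (by positivity)
        have h14 : (Real.log a / 2) ^ 2 * (j : ℝ) ^ 2 ≤ Real.log J ^ 2 := by
          rw [← mul_pow]
          exact pow_le_pow_left₀ (by positivity) hlog 2
        nlinarith [sq_nonneg η]
      calc μ {ω | η * (J : ℝ) ≤ S j ω} ≤ μ {ω | (η * J) ^ 2 ≤ S j ω ^ 2} := measure_mono hsub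
        _ = ENNReal.ofReal (μ.real {ω | (η * J) ^ 2 ≤ S j ω ^ 2}) := by
            rw [measureReal_def, ENNReal.ofReal_toReal (measure_ne_top _ _)]
        _ ≤ _ := ENNReal.ofReal_le_ofReal h9
    · rw [measure_empty]
      exact bot_le
  have hfin : ∑' j, μ (B j) ≠ ⊤ := by
    have hs : Summable fun j : ℕ => C * (1 / (j : ℝ) ^ 2) :=
      (Real.summable_one_div_nat_pow.mpr (by norm_num)).mul_left C
    have h1 : ∑' j, μ (B j) ≤ ∑' j : ℕ, ENNReal.ofReal (C * (1 / (j : ℝ) ^ 2)) := ENNReal.tsum_le_tsum hmeas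
    refine ne_top_of_le_ne_top ?_ h1
    exact hs.tsum_ofReal_ne_top
  filter_upwards [ae_eventually_notMem hfin, hcnt] with ω hω hcω hωA
  obtain ⟨J₁, hJ₁⟩ := hcω hωA
  filter_upwards [hω, eventually_ge_atTop j₃, htend.eventually_ge_atTop J₁] with j hj hj3 hjJ
  rw [hB] at hj
  simp only [if_pos hj3, Set.mem_ofPred_eq, not_le] at hj
  have h2 := hJ₁ _ hjJ
  have h3 : ∑ i ∈ range ⌊a ^ j⌋₊, e (Y i ω) = ∑ i ∈ range ⌊a ^ j⌋₊, ((g ⌊a ^ j⌋₊ i ω : ℝ) : ℂ) * e (Y i ω) +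
      ∑ i ∈ range ⌊a ^ j⌋₊, (((1 - g ⌊a ^ j⌋₊ i ω : ℝ)) : ℂ) * e (Y i ω) := by
    rw [← Finset.sum_add_distrib]
    refine Finset.sum_congr rfl fun i _ => ?_
    push_cast
    ring
  rw [h3]
  refine (norm_add_le _ _).trans ?_
  have h4 : ‖∑ i ∈ range ⌊a ^ j⌋₊, (((1 - g ⌊a ^ j⌋₊ i ω : ℝ)) : ℂ) * e (Y i ω)‖ ≤ ∑ i ∈ range ⌊a ^ j⌋₊, (1 - g ⌊a ^ j⌋₊ i ω) := by
    refine (norm_sum_le _ _).trans (le_of_eq (Finset.sum_congr rfl fun i _ => ?_))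
    rw [norm_mul, norm_e, mul_one, Complex.norm_real, Real.norm_eq_abs, abs_of_nonneg]
    linarith [hg1 ⌊a ^ j⌋₊ i ω]
  have h5 : ‖∑ i ∈ range ⌊a ^ j⌋₊, ((g ⌊a ^ j⌋₊ i ω : ℝ) : ℂ) * e (Y i ω)‖ < η * (⌊a ^ j⌋₊ : ℕ) := hj
  linarith

/-- almost sure decay of the exponential sums -/
theorem as_weyl {Ω : Type*} [MeasurableSpace Ω] (μ : Measure Ω) [IsProbabilityMeasure μ]
    (Y : ℕ → Ω → ℝ) (hY : ∀ i, Measurable (Y i)) (A : Set Ω)
    (g : ℕ → ℕ → Ω → ℝ) (hgm : ∀ J i, Measurable (g J i)) (hg1 : ∀ J i ω, g J i ω ≤ 1) (hg0 : ∀ J i ω, 0 ≤ g J i ω)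
    (hsm : ∃ (K : ℝ) (J₀ : ℕ), ∀ J : ℕ, J₀ ≤ J →
      ∫ ω, ‖∑ i ∈ range J, ((g J i ω : ℝ) : ℂ) * e (Y i ω)‖ ^ 2 ∂μ ≤ K * (J : ℝ) ^ 2 / Real.log J ^ 2)
    (hcnt : ∀ᵐ ω ∂μ, ω ∈ A → ∀ η : ℝ, 0 < η → ∃ J₀ : ℕ, ∀ J : ℕ, J₀ ≤ J → ∑ i ∈ range J, (1 - g J i ω) ≤ η * J) :
    ∀ᵐ ω ∂μ, ω ∈ A → Tendsto (fun N : ℕ => ‖∑ i ∈ range N, e (Y i ω)‖ / N) atTop (𝓝 0) := by
  have h1 : ∀ᵐ ω ∂μ, ∀ q : ℕ, ω ∈ A → ∀ᶠ j : ℕ in atTop,
      ‖∑ i ∈ range ⌊(1 + 1 / ((q : ℝ) + 1)) ^ j⌋₊, e (Y i ω)‖ ≤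
        2 * (1 / ((q : ℝ) + 1)) * (⌊(1 + 1 / ((q : ℝ) + 1)) ^ j⌋₊ : ℕ) := by
    rw [ae_all_iff]
    intro q
    have hq : (0 : ℝ) < 1 / ((q : ℝ) + 1) := by positivity
    refine as_small_w μ Y hY A _ hq g hgm hg1 hg0 hsm ?_ _ (by linarith)
    filter_upwards [hcnt] with ω hω hA
    exact hω hA _ hq
  filter_upwards [h1] with ω hω hA
  rw [Metric.tendsto_atTop]
  intro ε hε
  obtain ⟨q, hq⟩ := exists_nat_gt (8 / ε)
  set t : ℝ := 1 / ((q : ℝ) + 1) with ht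
  have ht0 : 0 < t := by positivity
  have htε : 8 * t < ε := by
    rw [ht, mul_one_div, div_lt_iff₀ (by positivity)]
    rw [div_lt_iff₀ hε] at hq
    nlinarith
  have ht1 : t ≤ 1 := by
    rw [ht, div_le_one (by positivity)]
    have : (0 : ℝ) ≤ q := Nat.cast_nonneg _
    linarith
  obtain ⟨j₀, hj₀⟩ := (hω q hA).exists_forall_of_atTop
  obtain ⟨N₁, hN₁⟩ := exists_nat_ge (8 / ε)
  obtain ⟨N₂, hN₂⟩ := exists_nat_ge ((1 + t) ^ (j₀ + 1))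
  refine ⟨N₁ + N₂ + 1, fun N hN => ?_⟩
  have hNR : ((N₁ : ℝ) + N₂ + 1) ≤ N := by exact_mod_cast hN
  have hN0 : (0 : ℝ) < N := by
    have h1 : (0 : ℝ) ≤ N₁ := Nat.cast_nonneg _
    have h2 : (0 : ℝ) ≤ N₂ := Nat.cast_nonneg _
    linarith
  have hN1 : (1 : ℝ) ≤ N := by
    have h1 : (0 : ℝ) ≤ N₁ := Nat.cast_nonneg _
    have h2 : (0 : ℝ) ≤ N₂ := Nat.cast_nonneg _
    linarith
  obtain ⟨j, hjl, hju⟩ := exists_nat_pow_near hN1 (by linarith : 1 < 1 + t)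
  have hjj : j₀ ≤ j := by
    by_contra hlt
    push Not at hlt
    have h2 : (1 + t) ^ (j + 1) ≤ (1 + t) ^ (j₀ + 1) := pow_le_pow_right₀ (by linarith) (by omega)
    have h3 : (0 : ℝ) ≤ N₁ := Nat.cast_nonneg _
    linarith
  have hs := hj₀ j hjj
  set J := ⌊(1 + t) ^ j⌋₊ with hJ
  have hJN : J ≤ N := by
    have : (J : ℝ) ≤ (1 + t) ^ j := Nat.floor_le (by positivity)
    exact_mod_cast this.trans hjl
  have hJ1 : (1 + t) ^ j < J + 1 := Nat.lt_floor_add_one _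
  have h4 : ‖∑ i ∈ range N, e (Y i ω)‖ ≤ ‖∑ i ∈ range J, e (Y i ω)‖ + ((N : ℝ) - J) := by
    rw [← Finset.sum_range_add_sum_Ico _ hJN]
    refine (norm_add_le _ _).trans ?_
    have h5 : ‖∑ i ∈ Finset.Ico J N, e (Y i ω)‖ ≤ (N : ℝ) - J := by
      refine (norm_sum_le _ _).trans ?_
      rw [Finset.sum_congr rfl fun i _ => norm_e _, Finset.sum_const, nsmul_eq_mul, mul_one, Nat.card_Ico,
        Nat.cast_sub hJN]
    linarith
  have hJNR : (J : ℝ) ≤ N := by exact_mod_cast hJN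
  have h6 : (N : ℝ) - J ≤ t * N + 1 := by
    have h7 : (N : ℝ) < (1 + t) ^ j * (1 + t) := by rw [← pow_succ]; exact hju
    have h8 : (1 + t) ^ j ≤ N := hjl
    nlinarith
  have h9 : ‖∑ i ∈ range N, e (Y i ω)‖ ≤ 2 * t * N + (t * N + 1) := by
    have h10 : 2 * t * (J : ℝ) ≤ 2 * t * N := by gcongr
    linarith
  have h11 : (1 : ℝ) < ε / 2 * N := by
    have h12 : 8 / ε < N := by
      have h3 : (0 : ℝ) ≤ N₂ := Nat.cast_nonneg _
      linarith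
    rw [div_lt_iff₀ hε] at h12
    linarith
  rw [Real.dist_eq, sub_zero, abs_of_nonneg (by positivity), div_lt_iff₀ hN0]
  have h13 : 8 * t * N ≤ ε * N := by gcongr
  nlinarith

end Pool.Agent.Helper46.TK
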