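import Mathlib
import Pool.Agent.Helper82.RB.Chf
import Pool.Agent.Helper32.RB.Chg

/-!
# Thin laws, nonlinear case: tails, their characteristic functions, and conditioning
-/

set_option autoImplicit false

namespace Pool.Agent.Helper46.TK

open Finset MeasureTheory ProbabilityTheory Filter Topology
open Pool.Agent.Helper59.RE (e norm_e e_add e_sub conj_e continuous_e)
open Pool.Agent.Helper82.RB (phi_bound e_sum' continuous_e' norm_e')
open Pool.Agent.Helper32.RB (Change)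

/-- the tail of the digits -/
def tl {Ω : Type*} (ξ : ℕ → Ω → ℤ) (m k : ℕ) (ω : Ω) : ℤ := if m ≤ k then ξ k ω else 0

/-- the number -/
noncomputable def XX {Ω : Type*} (b : ℕ) (ξ : ℕ → Ω → ℤ) (ω : Ω) : ℝ := ∑' k : ℕ, (ξ k ω : ℝ) / (b : ℝ) ^ k

/-- the head -/
noncomputable def hd {Ω : Type*} (b : ℕ) (ξ : ℕ → Ω → ℤ) (m : ℕ) (ω : Ω) : ℝ := ∑ k ∈ range m, (ξ k ω : ℝ) / (b : ℝ) ^ k

theorem summable_dig (b : ℕ) (hb : 2 ≤ b) (C : ℕ) (d : ℕ → ℤ) (hd : ∀ k, |d k| ≤ C) :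
    Summable (fun k : ℕ => (d k : ℝ) / (b : ℝ) ^ k) := by
  have hb1 : (1 : ℝ) < b := by exact_mod_cast hb
  refine Summable.of_norm_bounded (g := fun k : ℕ => (C : ℝ) * (1 / (b : ℝ)) ^ k) ?_ fun k => ?_
  · refine (summable_geometric_of_lt_one (by positivity) ?_).mul_left _
    rw [div_lt_one (by linarith)]
    exact hb1
  · rw [Real.norm_eq_abs, abs_div, abs_of_pos (by positivity : (0 : ℝ) < (b : ℝ) ^ k), div_eq_mul_inv, one_div, inv_pow]
    apply mul_le_mul_of_nonneg_right _ (by positivity)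
    have := hd k
    exact_mod_cast this

theorem tl_abs {Ω : Type*} {ξ : ℕ → Ω → ℤ} {C : ℕ} (hC : ∀ k ω, |ξ k ω| ≤ C) (m k : ℕ) (ω : Ω) : |tl ξ m k ω| ≤ C := by
  unfold tl
  split_ifs
  · exact hC k ω
  · simp

/-- head plus tail -/
theorem hd_add_tl {Ω : Type*} (b : ℕ) (hb : 2 ≤ b) (ξ : ℕ → Ω → ℤ) (C : ℕ) (hC : ∀ k ω, |ξ k ω| ≤ C) (m : ℕ) (ω : Ω) :
    XX b ξ ω = hd b ξ m ω + XX b (tl ξ m) ω := by
  unfold XX hd
  have h1 := summable_dig b hb C (fun k => ξ k ω) (fun k => hC k ω)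
  have h2 := summable_dig b hb C (fun k => tl ξ m k ω) (fun k => tl_abs hC m k ω)
  have h3 : Summable (fun k : ℕ => (ξ k ω : ℝ) / (b : ℝ) ^ k - (tl ξ m k ω : ℝ) / (b : ℝ) ^ k) := h1.sub h2
  have h4 : ∑' k : ℕ, ((ξ k ω : ℝ) / (b : ℝ) ^ k - (tl ξ m k ω : ℝ) / (b : ℝ) ^ k) =
      ∑ k ∈ range m, (ξ k ω : ℝ) / (b : ℝ) ^ k := by
    rw [tsum_eq_sum (s := range m)]
    · refine sum_congr rfl fun k hk => ?_
      have : ¬ m ≤ k := by
        have := mem_range.1 hk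
        omega
      simp [tl, this]
    · intro k hk
      have : m ≤ k := by
        rw [mem_range] at hk
        omega
      simp [tl, this]
  rw [h1.tsum_sub h2] at h4
  linarith

/-- the size of the tail -/
theorem tl_le {Ω : Type*} (b : ℕ) (hb : 2 ≤ b) (ξ : ℕ → Ω → ℤ) (C : ℕ) (hC : ∀ k ω, |ξ k ω| ≤ C) (m : ℕ) (ω : Ω) :
    |XX b (tl ξ m) ω| ≤ 2 * C / (b : ℝ) ^ m := by
  unfold XX
  have hb1 : (2 : ℝ) ≤ b := by exact_mod_cast hb
  have hb0 : (0 : ℝ) < b := by linarith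
  have h2 := summable_dig b hb C (fun k => tl ξ m k ω) (fun k => tl_abs hC m k ω)
  have h3 : ∑' k : ℕ, (tl ξ m k ω : ℝ) / (b : ℝ) ^ k = ∑' k : ℕ, (tl ξ m (k + m) ω : ℝ) / (b : ℝ) ^ (k + m) := by
    rw [← h2.sum_add_tsum_nat_add m]
    have : ∑ k ∈ range m, (tl ξ m k ω : ℝ) / (b : ℝ) ^ k = 0 := by
      apply sum_eq_zero
      intro k hk
      have : ¬ m ≤ k := by
        have := mem_range.1 hk
        omega
      simp [tl, this]
    rw [this, zero_add]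
  rw [h3]
  have hg : HasSum (fun k : ℕ => (C : ℝ) / (b : ℝ) ^ m * (1 / (b : ℝ)) ^ k) ((C : ℝ) / (b : ℝ) ^ m * (1 - 1 / (b : ℝ))⁻¹) := by
    refine (hasSum_geometric_of_lt_one (by positivity) ?_).mul_left _
    rw [div_lt_one hb0]
    linarith
  have h4 := tsum_of_norm_bounded (f := fun k : ℕ => (tl ξ m (k + m) ω : ℝ) / (b : ℝ) ^ (k + m)) hg (fun k => by
    rw [Real.norm_eq_abs, abs_div, abs_of_pos (by positivity : (0 : ℝ) < (b : ℝ) ^ (k + m))]
    have h5 : |(tl ξ m (k + m) ω : ℝ)| ≤ C := by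
      have := tl_abs hC m (k + m) ω
      exact_mod_cast this
    calc |(tl ξ m (k + m) ω : ℝ)| / (b : ℝ) ^ (k + m) ≤ C / (b : ℝ) ^ (k + m) := by gcongr
      _ = (C : ℝ) / (b : ℝ) ^ m * (1 / (b : ℝ)) ^ k := by
        rw [pow_add, one_div, inv_pow]
        field_simp)
  rw [Real.norm_eq_abs] at h4
  refine h4.trans ?_
  have h6 : (1 - 1 / (b : ℝ))⁻¹ ≤ 2 := by
    rw [inv_le_comm₀ _ (by norm_num)]
    · have : 1 / (b : ℝ) ≤ 1 / 2 := one_div_le_one_div_of_le (by norm_num) hb1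
      linarith
    · have : 1 / (b : ℝ) ≤ 1 / 2 := one_div_le_one_div_of_le (by norm_num) hb1
      linarith
  calc (C : ℝ) / (b : ℝ) ^ m * (1 - 1 / (b : ℝ))⁻¹ ≤ (C : ℝ) / (b : ℝ) ^ m * 2 := by gcongr
    _ = 2 * C / (b : ℝ) ^ m := by ring

theorem measurable_XX {Ω : Type*} [MeasurableSpace Ω] (b : ℕ) (hb : 2 ≤ b) (C : ℕ)
    (ξ : ℕ → Ω → ℤ) (hξ : ∀ k, Measurable (ξ k)) (hC : ∀ k ω, |ξ k ω| ≤ C) :
    Measurable (XX b ξ) := by
  have h1 : ∀ ω, Tendsto (fun n : ℕ => ∑ k ∈ range n, (ξ k ω : ℝ) / (b : ℝ) ^ k) atTop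
      (𝓝 (∑' k : ℕ, (ξ k ω : ℝ) / (b : ℝ) ^ k)) := fun ω =>
    (summable_dig b hb C (fun k => ξ k ω) (fun k => hC k ω)).hasSum.tendsto_sum_nat
  refine measurable_of_tendsto_metrizable (f := fun n ω => ∑ k ∈ range n,
    (ξ k ω : ℝ) / (b : ℝ) ^ k) (fun n => ?_) (tendsto_pi_nhds.2 h1)
  refine Finset.measurable_sum _ (fun k _ => ?_)
  exact ((measurable_from_top (f := fun z : ℤ => (z : ℝ))).comp (hξ k)).div_const _

/-- characteristic function, with an explicit constant -/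
theorem chf_expl {Ω : Type*} [MeasurableSpace Ω] (μ : Measure Ω) [IsProbabilityMeasure μ]
    (ξ : ℕ → Ω → ℤ) (hξ : ∀ k, Measurable (ξ k)) (hind : iIndepFun ξ μ) (C : ℕ)
    (hC : ∀ k ω, |ξ k ω| ≤ C) (b : ℕ) (hb : 2 ≤ b) (p : ℕ → ℝ)
    (T : ℝ) (F : Finset ℕ) (hp : ∀ k ∈ F, ∀ j : ℤ, μ.real {ω | ξ k ω = j} ≤ 1 - p k)
    (hT : ∀ k ∈ F, Change b (T * ((2 * C).factorial : ℝ)) k) :
      ‖∫ ω, e (T * XX b ξ ω) ∂μ‖ ≤
        Real.exp (-(2 * (1 / (2 * ((b : ℝ) + 1)) / (2 * C).factorial) ^ 2 * ∑ k ∈ F, p k)) := by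
  set δ : ℝ := 1 / (2 * ((b : ℝ) + 1)) with hδ
  have hδ0 : 0 < δ := by positivity
  have hf : (0 : ℝ) < ((2 * C).factorial : ℝ) := by exact_mod_cast Nat.factorial_pos _
  have hξr : ∀ k, Measurable fun ω => (ξ k ω : ℝ) := fun k => measurable_from_top.comp (hξ k)
  have hpart : ∀ K : ℕ, F ⊆ range K → ‖∫ ω, e (T * ∑ k ∈ range K, (ξ k ω : ℝ) / (b : ℝ) ^ k) ∂μ‖ ≤
      Real.exp (-(2 * (δ / (2 * C).factorial) ^ 2 * ∑ k ∈ F, p k)) := by
    intro K hFK
    have h1 : ∫ ω, e (T * ∑ k ∈ range K, (ξ k ω : ℝ) / (b : ℝ) ^ k) ∂μ =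
        ∏ k ∈ range K, ∫ ω, e (T / (b : ℝ) ^ k * (ξ k ω : ℝ)) ∂μ := by
      have h2 : ∀ ω, e (T * ∑ k ∈ range K, (ξ k ω : ℝ) / (b : ℝ) ^ k) =
          ∏ i : Fin K, (fun (i : Fin K) (z : ℤ) => e (T / (b : ℝ) ^ (i : ℕ) * (z : ℝ))) i (ξ i ω) := by
        intro ω
        rw [mul_sum, e_sum', ← Fin.prod_univ_eq_prod_range (fun k => e (T * ((ξ k ω : ℝ) / (b : ℝ) ^ k))) K]
        refine prod_congr rfl fun i _ => ?_
        congr 1
        ring
      have hind' : iIndepFun (fun i : Fin K => ξ i) μ := hind.precomp Fin.val_injective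
      have h4 := hind'.integral_fun_prod_comp (f := fun (i : Fin K) (z : ℤ) => e (T / (b : ℝ) ^ (i : ℕ) * (z : ℝ)))
        (fun i => (hξ i).aemeasurable)
        (fun i => (measurable_from_top (f := fun z : ℤ => e (T / (b : ℝ) ^ (i : ℕ) * (z : ℝ)))).aestronglyMeasurable)
      rw [integral_congr_ae (Eventually.of_forall h2), h4]
      exact Fin.prod_univ_eq_prod_range (fun k => ∫ ω, e (T / (b : ℝ) ^ k * (ξ k ω : ℝ)) ∂μ) K
    rw [h1, norm_prod]
    have h3 : ∏ k ∈ range K, ‖∫ ω, e (T / (b : ℝ) ^ k * (ξ k ω : ℝ)) ∂μ‖ ≤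
        ∏ k ∈ F, ‖∫ ω, e (T / (b : ℝ) ^ k * (ξ k ω : ℝ)) ∂μ‖ := by
      apply prod_le_prod_of_subset_of_le_one hFK
      · intro k _
        exact norm_nonneg _
      · intro k _ _
        refine (norm_integral_le_of_norm_le_const (C := 1) ?_).trans (by simp)
        filter_upwards with ω
        rw [norm_e']
    refine h3.trans ?_
    rw [mul_sum, ← sum_neg_distrib, Real.exp_sum]
    refine prod_le_prod (fun k _ => norm_nonneg _) fun k hk => ?_
    refine phi_bound μ (ξ k) (hξ k) C (Eventually.of_forall fun ω => hC k ω) (hp k hk) hδ0 ?_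
    have := hT k hk
    unfold Change Pool.Agent.Helper32.RB.fr at this
    rw [show T / (b : ℝ) ^ k * ((2 * C).factorial : ℝ) = T * ((2 * C).factorial : ℝ) / (b : ℝ) ^ k by ring]
    exact this
  -- passage to the limit
  have hlim : Tendsto (fun K : ℕ => ∫ ω, e (T * ∑ k ∈ range K, (ξ k ω : ℝ) / (b : ℝ) ^ k) ∂μ) atTop
      (𝓝 (∫ ω, e (T * XX b ξ ω) ∂μ)) := by
    refine tendsto_integral_of_dominated_convergence (fun _ => 1) (fun K => ?_) (integrable_const _) (fun K => ?_) ?_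
    · refine (continuous_e'.measurable.comp ?_).aestronglyMeasurable
      refine Measurable.const_mul ?_ T
      exact Finset.measurable_fun_sum _ fun k _ => (hξr k).div_const _
    · filter_upwards with ω
      rw [norm_e']
    · filter_upwards with ω
      have hsum := summable_dig b hb C (fun k => ξ k ω) (fun k => hC k ω)
      exact (continuous_e'.tendsto _).comp ((hsum.hasSum.tendsto_sum_nat).const_mul T)
  obtain ⟨K₀, hK₀⟩ : ∃ K₀ : ℕ, F ⊆ range K₀ := F.exists_nat_subset_range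
  refine le_of_tendsto hlim.norm ?_
  filter_upwards [eventually_ge_atTop K₀] with K hK
  exact hpart K (hK₀.trans (range_subset_range.2 hK))

/-- the tail is a measurable function of the digits from `m` on -/
theorem iIndep_tl {Ω : Type*} [MeasurableSpace Ω] (μ : Measure Ω)
    (ξ : ℕ → Ω → ℤ) (hind : iIndepFun ξ μ) (m : ℕ) : iIndepFun (tl ξ m) μ := by
  have h1 := hind.comp (fun k z => if m ≤ k then z else 0) (fun k => measurable_from_top)
  exact h1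

/-- characteristic function of the tail -/
theorem chf_tail {Ω : Type*} [MeasurableSpace Ω] (μ : Measure Ω) [IsProbabilityMeasure μ]
    (ξ : ℕ → Ω → ℤ) (hξ : ∀ k, Measurable (ξ k)) (hind : iIndepFun ξ μ) (C : ℕ)
    (hC : ∀ k ω, |ξ k ω| ≤ C) (b : ℕ) (hb : 2 ≤ b) (p : ℕ → ℝ)
    (hp : ∀ k (j : ℤ), μ.real {ω | ξ k ω = j} ≤ 1 - p k) :
    ∃ κ : ℝ, 0 < κ ∧ ∀ (m : ℕ) (T : ℝ) (F : Finset ℕ), (∀ k ∈ F, m ≤ k) →
      (∀ k ∈ F, Change b (T * ((2 * C).factorial : ℝ)) k) →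
      ‖∫ ω, e (T * XX b (tl ξ m) ω) ∂μ‖ ≤ Real.exp (-(κ * ∑ k ∈ F, p k)) := by
  have hf : (0 : ℝ) < ((2 * C).factorial : ℝ) := by exact_mod_cast Nat.factorial_pos _
  refine ⟨2 * (1 / (2 * ((b : ℝ) + 1)) / (2 * C).factorial) ^ 2, by positivity, ?_⟩
  intro m T F hF hT
  refine chf_expl μ (tl ξ m) (fun k => ?_) (iIndep_tl μ ξ hind m) C (fun k ω => tl_abs hC m k ω) b hb p T F ?_ hT
  · exact (measurable_from_top (f := fun z : ℤ => if m ≤ k then z else 0)).comp (hξ k)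
  · intro k hk j
    have h1 : ∀ ω, tl ξ m k ω = ξ k ω := fun ω => by
      unfold tl
      rw [if_pos (hF k hk)]
    simp only [h1]
    exact hp k j

/-- conditioning on a countable amount of information -/
theorem cond_bound {Ω V : Type*} [MeasurableSpace Ω] [MeasurableSpace V] [Countable V] [MeasurableSingletonClass V]
    (μ : Measure Ω) [IsProbabilityMeasure μ]
    (W : Ω → V) (hW : Measurable W) (Z : Ω → ℝ) (hZ : Measurable Z) (hind : IndepFun W Z μ)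
    (g A T : V → ℝ) (hg0 : ∀ w, 0 ≤ g w) (hg1 : ∀ w, g w ≤ 1) (η : ℝ) (hη : 0 ≤ η)
    (h : ∀ w, g w ≠ 0 → ‖∫ ω, e (T w * Z ω) ∂μ‖ ≤ η) :
    ‖∫ ω, ((g (W ω) : ℝ) : ℂ) * e (A (W ω) + T (W ω) * Z ω) ∂μ‖ ≤ η := by
  have hmeas : Measurable (fun q : V × ℝ => ((g q.1 : ℝ) : ℂ) * e (A q.1 + T q.1 * q.2)) := by
    apply measurable_from_prod_countable_right
    intro w
    have h0 : Measurable (fun y : ℝ => e (A w + T w * y)) :=
      continuous_e.measurable.comp ((measurable_id.const_mul (T w)).const_add (A w))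
    exact h0.const_mul ((g w : ℝ) : ℂ)
  have hprod := (indepFun_iff_map_prod_eq_prod_map_map hW.aemeasurable hZ.aemeasurable).1 hind
  have h1 : ∫ ω, ((g (W ω) : ℝ) : ℂ) * e (A (W ω) + T (W ω) * Z ω) ∂μ =
      ∫ q, ((g q.1 : ℝ) : ℂ) * e (A q.1 + T q.1 * q.2) ∂((μ.map W).prod (μ.map Z)) := by
    rw [← hprod, integral_map (hW.prodMk hZ).aemeasurable hmeas.aestronglyMeasurable]
  have : IsProbabilityMeasure (μ.map W) := Measure.isProbabilityMeasure_map hW.aemeasurable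
  have : IsProbabilityMeasure (μ.map Z) := Measure.isProbabilityMeasure_map hZ.aemeasurable
  have hint : Integrable (fun q : V × ℝ => ((g q.1 : ℝ) : ℂ) * e (A q.1 + T q.1 * q.2)) ((μ.map W).prod (μ.map Z)) := by
    refine Integrable.of_bound hmeas.aestronglyMeasurable 1 (Eventually.of_forall fun q => ?_)
    rw [norm_mul, norm_e, mul_one, Complex.norm_real, Real.norm_eq_abs, abs_of_nonneg (hg0 _)]
    exact hg1 _
  rw [h1, integral_prod _ hint]
  have h2 : ∀ w, ‖∫ z, ((g w : ℝ) : ℂ) * e (A w + T w * z) ∂(μ.map Z)‖ ≤ η := by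
    intro w
    by_cases hw : g w = 0
    · simp [hw, hη]
    · have h3 : ∫ z, ((g w : ℝ) : ℂ) * e (A w + T w * z) ∂(μ.map Z) =
          (((g w : ℝ) : ℂ) * e (A w)) * ∫ ω, e (T w * Z ω) ∂μ := by
        rw [integral_map hZ.aemeasurable]
        · rw [← integral_const_mul]
          congr 1
          funext ω
          rw [e_add]
          ring
        · exact ((continuous_e.measurable.comp ((measurable_id.const_mul (T w)).const_add (A w))).const_mul _).aestronglyMeasurable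
      rw [h3, norm_mul, norm_mul, norm_e, mul_one, Complex.norm_real, Real.norm_eq_abs, abs_of_nonneg (hg0 _)]
      calc g w * ‖∫ ω, e (T w * Z ω) ∂μ‖ ≤ 1 * η := mul_le_mul (hg1 w) (h w hw) (norm_nonneg _) zero_le_one
        _ = η := one_mul η
  refine (norm_integral_le_of_norm_le_const (C := η) (Eventually.of_forall h2)).trans ?_
  simp

/-- the head digits -/
def W {Ω : Type*} (ξ : ℕ → Ω → ℤ) (m : ℕ) (ω : Ω) : Fin m → ℤ := fun i => ξ i ω

theorem indep_W {Ω : Type*} [MeasurableSpace Ω] (μ : Measure Ω) [IsProbabilityMeasure μ]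
    (ξ : ℕ → Ω → ℤ) (hξ : ∀ k, Measurable (ξ k)) (hind : iIndepFun ξ μ) (C : ℕ)
    (hC : ∀ k ω, |ξ k ω| ≤ C) (b : ℕ) (hb : 2 ≤ b) (m : ℕ) : IndepFun (W ξ m) (XX b (tl ξ m)) μ := by
  have h1 : Indep (⨆ k ∈ Set.Iio m, MeasurableSpace.comap (ξ k) ⊤) (⨆ k ∈ Set.Ici m, MeasurableSpace.comap (ξ k) ⊤) μ :=
    indep_iSup_of_disjoint (fun k => (hξ k).comap_le) hind (by
      rw [Set.disjoint_iff]
      intro k hk
      exact absurd (Set.mem_Iio.1 hk.1) (not_lt.2 (Set.mem_Ici.1 hk.2)))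
  have hW' : @Measurable _ _ (⨆ k ∈ Set.Iio m, MeasurableSpace.comap (ξ k) ⊤) _ (W ξ m) := by
    rw [@measurable_pi_iff]
    intro i
    have h2 : MeasurableSpace.comap (ξ i) ⊤ ≤ ⨆ k ∈ Set.Iio m, MeasurableSpace.comap (ξ k) ⊤ :=
      le_iSup₂_of_le (i : ℕ) (Set.mem_Iio.2 i.2) le_rfl
    exact (comap_measurable (ξ i)).mono h2 le_rfl
  have hZ' : @Measurable _ _ (⨆ k ∈ Set.Ici m, MeasurableSpace.comap (ξ k) ⊤) _ (XX b (tl ξ m)) := by
    refine @measurable_XX Ω (⨆ k ∈ Set.Ici m, MeasurableSpace.comap (ξ k) ⊤) b hb C (tl ξ m) ?_ (fun k ω => tl_abs hC m k ω)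
    intro k
    by_cases hk : m ≤ k
    · have h2 : MeasurableSpace.comap (ξ k) ⊤ ≤ ⨆ k ∈ Set.Ici m, MeasurableSpace.comap (ξ k) ⊤ :=
        le_iSup₂_of_le (k : ℕ) (Set.mem_Ici.2 hk) le_rfl
      have h3 : tl ξ m k = ξ k := by
        funext ω
        simp [tl, hk]
      rw [h3]
      exact (comap_measurable (ξ k)).mono h2 le_rfl
    · have h3 : tl ξ m k = fun _ => 0 := by
        funext ω
        simp [tl, hk]
      rw [h3]
      exact measurable_const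
  exact indep_of_indep_of_le_left (indep_of_indep_of_le_right h1 hZ'.comap_le) hW'.comap_le

end Pool.Agent.Helper46.TK
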