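import Pool.Agent.Helper46.TK.Joint
import Pool.Agent.Helper32.RB.Main

/-!
# Thin laws, nonlinear case: digits which are only almost surely bounded
-/

set_option autoImplicit false

namespace Pool.Agent.Helper46.TK

open Finset MeasureTheory ProbabilityTheory Filter Topology
open Pool.Agent.Helper59.RE (e)
open Pool.Agent.Helper32.RB (trunc trunc_abs trunc_eq)

/-- truncation of the digits -/
theorem exists_thin {Ω : Type*} [MeasurableSpace Ω] (μ : Measure Ω) [IsProbabilityMeasure μ]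
    (b : ℕ) (hb : 2 ≤ b) (ξ : ℕ → Ω → ℤ) (hξ : ∀ k, Measurable (ξ k)) (hind : iIndepFun ξ μ) (C : ℕ)
    (hC : ∀ k, ∀ᵐ ω ∂μ, |ξ k ω| ≤ C) (p : ℕ → ℝ)
    (hp : ∀ k (j : ℤ), μ.real {ω | ξ k ω = j} ≤ 1 - p k)
    (hp' : Tendsto (fun k : ℕ => p k * (Real.log k / Real.log (Real.log k))) atTop atTop) :
    ∃ ξ' : ℕ → Ω → ℤ, Thin μ b C ξ' p ∧ ∀ᵐ ω ∂μ, XX b ξ' ω = ∑' k : ℕ, (ξ k ω : ℝ) / (b : ℝ) ^ k := by
  have hall : ∀ᵐ ω ∂μ, ∀ k, |ξ k ω| ≤ C := ae_all_iff.2 hC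
  refine ⟨fun k ω => trunc C (ξ k ω), ⟨hb, fun k => ?_, ?_, fun k ω => trunc_abs C _, fun k j => ?_, hp'⟩, ?_⟩
  · exact (measurable_from_top (f := trunc C)).comp (hξ k)
  · exact hind.comp (fun _ => trunc C) (fun _ => measurable_from_top)
  · refine le_trans (le_of_eq ?_) (hp k j)
    apply measureReal_congr
    filter_upwards [hC k] with ω hω
    change (trunc C (ξ k ω) = j) = (ξ k ω = j)
    rw [trunc_eq C _ hω]
  · filter_upwards [hall] with ω hω
    unfold XX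
    congr 1
    funext k
    change ((trunc C (ξ k ω) : ℤ) : ℝ) / (b : ℝ) ^ k = _
    rw [trunc_eq C _ (hω k)]

end Pool.Agent.Helper46.TK
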