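import Pool.Agent.Helper46.TK.Term
import Pool.Agent.Helper59.WD.Joint

/-!
# Thin laws, nonlinear case: joint equidistribution of multiples and powers of smooth images
-/

set_option autoImplicit false

namespace Pool.Agent.Helper46.TK

open Finset MeasureTheory ProbabilityTheory Filter Topology
open Pool.Agent.Helper59.RE (e norm_e e_add e_sub conj_e continuous_e e_zero)
open Pool.Agent.Helper59.WD (irr_of_transcendental)

/-- multiples of one function -/
theorem scalar_weyl {Ω : Type*} [MeasurableSpace Ω] (μ : Measure Ω) [IsProbabilityMeasure μ] (b C : ℕ) (ξ : ℕ → Ω → ℤ)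
    (p : ℕ → ℝ) (hT : Thin μ b C ξ p) (D : ℕ) (a : ℕ → ℕ) (ha : StrictMono a) (haD : ∀ n, a n ≤ D * (n + 1)) (c : ℕ → ℝ)
    (f : ℝ → ℝ) (hf : LHol f) (hz : {x | deriv f x = 0}.Countable)
    (β γ K ρ : ℝ) (hβ : 1 < β) (hirr : Irrational (Real.log β / Real.log b)) (hγ0 : 0 ≤ γ) (hγ : γ < β)
    (hρ : ρ ≠ 0) (w : ℕ → ℝ) (hw : ∀ n, |w n - ρ * β ^ n| ≤ K * γ ^ n) :
    ∀ᵐ ω ∂μ, Tendsto (fun N : ℕ => ‖∑ i ∈ range N, e (f (XX b ξ ω) * w (a i) + c i)‖ / N) atTop (𝓝 0) := by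
  have h1 := globalize μ b C ξ p hT D a ha haD c (fun n x => f x * w n) (fun n x => deriv f x * w n)
    (fun n => hf.1.continuous.measurable.mul_const _) {x | deriv f x = 0} Set.univ hz (by
      intro x₀ _ _
      have h2 : ∀ᶠ δ in 𝓝[>] (0 : ℝ), HolAt f x₀ δ ∧ 0 < δ := (hf.eventually x₀).and self_mem_nhdsWithin
      obtain ⟨δ, hδ, hδ0⟩ := h2.exists
      exact (mult_lead b {x | deriv f x = 0} f hf.1 x₀ δ hδ0 hδ β γ K ρ hβ hirr hγ0 hγ hρ w hw (fun x hx h => hx h)).lc hT.hb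
        hδ0 hβ)
  filter_upwards [h1] with ω hω
  exact hω (Set.mem_univ _)

/-- a real number whose logarithm has rational ratio is a rational power of `b` -/
theorem eq_rpow_of_rat (b : ℕ) (hb : 2 ≤ b) (y : ℝ) (hy : 1 < y) (h : ¬ Irrational (Real.log y / Real.log b)) :
    ∃ q : ℚ, y = (b : ℝ) ^ (q : ℝ) := by
  rw [Irrational, not_not] at h
  obtain ⟨q, hq⟩ := h
  have hb1 : (1 : ℝ) < b := by exact_mod_cast (by omega : 1 < b)
  have hlb : 0 < Real.log b := Real.log_pos hb1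
  refine ⟨q, ?_⟩
  rw [eq_div_iff hlb.ne'] at hq
  apply Real.log_injOn_pos (Set.mem_Ioi.2 (by linarith)) (Set.mem_Ioi.2 (Real.rpow_pos_of_pos (by linarith) _))
  rw [Real.log_rpow (by linarith), hq]

/-- the exceptional set of the powers is countable -/
theorem exc_countable (b : ℕ) (hb : 2 ≤ b) (f : ℝ → ℝ) (hd : Differentiable ℝ f) (hz : {x | deriv f x = 0}.Countable) :
    {x | 1 < f x ∧ ¬ Irrational (Real.log (f x) / Real.log b)}.Countable := by
  have h1 : {x | 1 < f x ∧ ¬ Irrational (Real.log (f x) / Real.log b)} ⊆ ⋃ q : ℚ, {x | f x = (b : ℝ) ^ (q : ℝ)} := by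
    intro x hx
    obtain ⟨q, hq⟩ := eq_rpow_of_rat b hb (f x) hx.1 hx.2
    exact Set.mem_iUnion.2 ⟨q, hq⟩
  exact (Set.countable_iUnion fun q => fiber_countable f hd hz _).mono h1

/-- joint exponential sums -/
theorem joint_weyl {Ω : Type*} [MeasurableSpace Ω] (μ : Measure Ω) [IsProbabilityMeasure μ] (b C : ℕ) (ξ : ℕ → Ω → ℤ)
    (p : ℕ → ℝ) (hT : Thin μ b C ξ p) (D : ℕ) (a : ℕ → ℕ) (ha : StrictMono a) (haD : ∀ n, a n ≤ D * (n + 1)) (c : ℕ → ℝ)
    {d s : ℕ} (β γ K : Fin d → ℝ) (hinj : Function.Injective β) (hβ : ∀ i, 1 < β i)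
    (hirr : ∀ i, Irrational (Real.log (β i) / Real.log b)) (hγ0 : ∀ i, 0 ≤ γ i) (hγ : ∀ i, γ i < β i)
    (f : Fin d → ℝ → ℝ) (hf : ∀ i, LHol (f i)) (hfz : ∀ i, {x | deriv (f i) x = 0}.Countable)
    (g : Fin s → ℝ → ℝ) (hg : ∀ l, LHol (g l)) (hgz : ∀ l, {x | deriv (g l) x = 0}.Countable)
    (hgg : ∀ l m, l ≠ m → {x | g l x = g m x}.Countable)
    (P : Fin d → ℝ) (w : Fin d → ℕ → ℝ) (hw : ∀ i n, |w i n - P i * β i ^ n| ≤ K i * γ i ^ n)
    (hw0 : ∀ i, P i = 0 → ∀ n, w i n = 0) (Q : Fin s → ℝ) (hPQ : (∃ i, P i ≠ 0) ∨ ∃ l, Q l ≠ 0) :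
    ∀ᵐ ω ∂μ, (∀ l, 1 < g l (XX b ξ ω)) → Tendsto (fun N : ℕ => ‖∑ i ∈ range N,
      e ((∑ j, f j (XX b ξ ω) * w j (a i)) + (∑ l, Q l * g l (XX b ξ ω) ^ a i) + c i)‖ / N) atTop (𝓝 0) := by
  classical
  -- the exceptional set
  set N : Set ℝ := (⋃ i, {x | deriv (f i) x = 0}) ∪ (⋃ l, {x | deriv (g l) x = 0}) ∪
    (⋃ l, {x | 1 < g l x ∧ ¬ Irrational (Real.log (g l x) / Real.log b)}) ∪ (⋃ l, ⋃ i, {x | g l x = β i}) ∪
    (⋃ l, ⋃ m, {x | l ≠ m ∧ g l x = g m x}) with hN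
  have hNc : N.Countable := by
    refine ((((Set.countable_iUnion hfz).union (Set.countable_iUnion hgz)).union
      (Set.countable_iUnion fun l => exc_countable b hT.hb (g l) (hg l).1 (hgz l))).union
      (Set.countable_iUnion fun l => Set.countable_iUnion fun i => fiber_countable (g l) (hg l).1 (hgz l) _)).union
      (Set.countable_iUnion fun l => Set.countable_iUnion fun m => ?_)
    by_cases hlm : l = m
    · have : {x | l ≠ m ∧ g l x = g m x} = ∅ := by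
        ext x
        simp [hlm]
      rw [this]
      exact Set.countable_empty
    · exact (hgg l m hlm).mono fun x hx => hx.2
  have hN1 : ∀ x, x ∉ N → ∀ i, deriv (f i) x ≠ 0 := by
    intro x hx i h
    exact hx (Or.inl (Or.inl (Or.inl (Or.inl (Set.mem_iUnion.2 ⟨i, h⟩)))))
  have hN2 : ∀ x, x ∉ N → ∀ l, deriv (g l) x ≠ 0 := by
    intro x hx l h
    exact hx (Or.inl (Or.inl (Or.inl (Or.inr (Set.mem_iUnion.2 ⟨l, h⟩)))))
  have hN3 : ∀ x, x ∉ N → ∀ l, 1 < g l x → Irrational (Real.log (g l x) / Real.log b) := by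
    intro x hx l h1
    by_contra h
    exact hx (Or.inl (Or.inl (Or.inr (Set.mem_iUnion.2 ⟨l, h1, h⟩))))
  have hN4 : ∀ x, x ∉ N → ∀ l i, g l x ≠ β i := by
    intro x hx l i h
    exact hx (Or.inl (Or.inr (Set.mem_iUnion.2 ⟨l, Set.mem_iUnion.2 ⟨i, h⟩⟩)))
  have hN5 : ∀ x, x ∉ N → ∀ l m, l ≠ m → g l x ≠ g m x := by
    intro x hx l m hlm h
    exact hx (Or.inr (Set.mem_iUnion.2 ⟨l, Set.mem_iUnion.2 ⟨m, hlm, h⟩⟩))
  -- the terms
  set F : Fin d ⊕ Fin s → ℕ → ℝ → ℝ := fun t n x => Sum.elim (fun i => f i x * w i n) (fun l => Q l * g l x ^ n) t with hF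
  set Df : Fin d ⊕ Fin s → ℕ → ℝ → ℝ := fun t n x =>
    Sum.elim (fun i => deriv (f i) x * w i n) (fun l => Q l * (n * g l x ^ (n - 1) * deriv (g l) x)) t with hDf
  set cf : Fin d ⊕ Fin s → ℝ := Sum.elim P Q with hcf
  set A : Finset (Fin d ⊕ Fin s) := univ.filter (fun t => cf t ≠ 0) with hA
  have hAne : A.Nonempty := by
    rcases hPQ with ⟨i, hi⟩ | ⟨l, hl⟩
    · exact ⟨Sum.inl i, mem_filter.2 ⟨mem_univ _, hi⟩⟩
    · exact ⟨Sum.inr l, mem_filter.2 ⟨mem_univ _, hl⟩⟩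
  have hFm : ∀ n, Measurable (fun x => ∑ t ∈ A, F t n x) := by
    intro n
    refine Finset.measurable_fun_sum _ fun t _ => ?_
    rcases t with i | l
    · exact (hf i).1.continuous.measurable.mul_const _
    · exact ((hg l).1.continuous.measurable.pow_const n).const_mul _
  have h1 := globalize μ b C ξ p hT D a ha haD c (fun n x => ∑ t ∈ A, F t n x) (fun n x => ∑ t ∈ A, Df t n x)
    hFm N {x | ∀ l, 1 < g l x} hNc (by
      intro x₀ hx₀ hx₀N
      rw [Set.mem_ofPred_eq] at hx₀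
      -- the exponent
      have h2 : ∀ᶠ δ in 𝓝[>] (0 : ℝ), ((∀ i, HolAt (f i) x₀ δ) ∧ (∀ l, HolAt (g l) x₀ δ)) ∧ δ < 1 ∧ 0 < δ := by
        refine Filter.Eventually.and (Filter.Eventually.and ?_ ?_) (Filter.Eventually.and ?_ self_mem_nhdsWithin)
        · exact eventually_all.2 fun i => (hf i).eventually x₀
        · exact eventually_all.2 fun l => (hg l).eventually x₀
        · exact (eventually_lt_nhds one_pos).filter_mono nhdsWithin_le_nhds
      obtain ⟨δ, ⟨hδf, hδg⟩, hδ1, hδ0⟩ := h2.exists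
      -- the rates
      set rt : Fin d ⊕ Fin s → ℝ := Sum.elim β (fun l => g l x₀) with hrt
      have hrt1 : ∀ t, 1 < rt t := by
        rintro (i | l)
        · exact hβ i
        · exact hx₀ l
      have hrtinj : Function.Injective rt := by
        rintro (i | l) (j | m) h
        · exact congrArg Sum.inl (hinj h)
        · exact absurd h.symm (hN4 x₀ hx₀N m i)
        · exact absurd h (hN4 x₀ hx₀N l j)
        · by_contra hne
          exact hN5 x₀ hx₀N l m (fun h => hne (congrArg Sum.inr h)) h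
      have hterm : ∀ t, TermAt (F t) (Df t) x₀ (rt t) δ := by
        rintro (i | l)
        · have hβ0 : 0 < β i := zero_lt_one.trans (hβ i)
          have hK0 : 0 ≤ K i := by
            have := (abs_nonneg _).trans (hw i 0)
            simpa using this
          refine mult_term (f i) (hf i).1 x₀ δ hδ0 (hδf i) (β i) (|P i| + K i) hβ0.le (by positivity)
            (w i) (fun n => ?_)
          have h4 : |w i n| ≤ |w i n - P i * β i ^ n| + |P i * β i ^ n| := by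
            have := abs_add_le (w i n - P i * β i ^ n) (P i * β i ^ n)
            rwa [sub_add_cancel] at this
          have h5 : |P i * β i ^ n| = |P i| * β i ^ n := by rw [abs_mul, abs_of_pos (pow_pos hβ0 n)]
          have h6 : K i * γ i ^ n ≤ K i * β i ^ n := by
            have := hγ0 i
            have := (hγ i).le
            gcongr
          have h7 := hw i n
          rw [h5] at h4
          linarith
        · exact pow_term (g l) (hg l).1 x₀ δ hδ0 hδ1.le (hδg l) (hx₀ l) (Q l)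
      have hlead : ∀ t, cf t ≠ 0 → LeadAt b N (F t) (Df t) x₀ (rt t) δ := by
        rintro (i | l) ht
        · exact mult_lead b N (f i) (hf i).1 x₀ δ hδ0 (hδf i) (β i) (γ i) (K i) (P i) (hβ i) (hirr i) (hγ0 i) (hγ i) ht
            (w i) (hw i) (fun x hx => hN1 x hx i)
        · exact pow_lead b N (g l) (hg l).1 x₀ δ hδ0 hδ1.le (hδg l) (hx₀ l) (Q l) ht (fun x hx => hN2 x hx l)
            (fun x hx h => hN3 x hx l h)
      -- the leader
      obtain ⟨t₀, ht₀, hmax⟩ := A.exists_max_image rt hAne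
      have ht₀' : cf t₀ ≠ 0 := (mem_filter.1 ht₀).2
      have hlt : ∀ t ∈ A.erase t₀, rt t < rt t₀ := by
        intro t ht
        exact lt_of_le_of_ne (hmax t (mem_of_mem_erase ht)) (fun h => (ne_of_mem_erase ht) (hrtinj h))
      obtain ⟨r', hr'0, hr'1, hr'2⟩ : ∃ r' : ℝ, 0 ≤ r' ∧ r' < rt t₀ ∧ ∀ t ∈ A.erase t₀, rt t ≤ r' := by
        by_cases hne : (A.erase t₀).Nonempty
        · obtain ⟨t₁, ht₁, hmax₁⟩ := (A.erase t₀).exists_max_image rt hne
          exact ⟨rt t₁, by linarith [hrt1 t₁], hlt t₁ ht₁, hmax₁⟩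
        · rw [Finset.not_nonempty_iff_eq_empty] at hne
          exact ⟨0, le_rfl, by linarith [hrt1 t₀], fun t ht => by rw [hne] at ht; exact absurd ht (notMem_empty t)⟩
      have hrest : TermAt (fun n x => ∑ t ∈ A.erase t₀, F t n x) (fun n x => ∑ t ∈ A.erase t₀, Df t n x) x₀ r' δ :=
        TermAt.sum (A.erase t₀) F Df x₀ r' δ fun t ht => (hterm t).mono (by linarith [hrt1 t]) (hr'2 t ht)
      have htot := (hlead t₀ ht₀').add hr'0 hr'1 hrest
      have e1 : (fun (n : ℕ) (x : ℝ) => F t₀ n x + ∑ t ∈ A.erase t₀, F t n x) = fun n x => ∑ t ∈ A, F t n x := by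
        funext n x
        exact Finset.add_sum_erase A (fun t => F t n x) ht₀
      have e2 : (fun (n : ℕ) (x : ℝ) => Df t₀ n x + ∑ t ∈ A.erase t₀, Df t n x) = fun n x => ∑ t ∈ A, Df t n x := by
        funext n x
        exact Finset.add_sum_erase A (fun t => Df t n x) ht₀
      rw [e1, e2] at htot
      exact htot.lc hT.hb hδ0 (hrt1 t₀))
  filter_upwards [h1] with ω hω hX
  refine (hω hX).congr fun M => ?_
  congr 2
  refine Finset.sum_congr rfl fun i _ => ?_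
  congr 2
  have h3 : ∑ t ∈ A, F t (a i) (XX b ξ ω) = ∑ t, F t (a i) (XX b ξ ω) := by
    apply Finset.sum_subset (Finset.subset_univ A)
    intro t _ ht
    have h4 : cf t = 0 := by
      by_contra h
      exact ht (mem_filter.2 ⟨mem_univ _, h⟩)
    rcases t with j | l
    · have h5 : P j = 0 := h4
      simp [hF, hw0 j h5]
    · have h5 : Q l = 0 := h4
      simp [hF, h5]
  rw [h3, Fintype.sum_sum_type]
  rfl

theorem tendsto_of_norm (S : ℕ → ℂ) (h : Tendsto (fun N : ℕ => ‖S N‖ / N) atTop (𝓝 0)) :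
    Tendsto (fun N : ℕ => S N / N) atTop (𝓝 0) := by
  rw [tendsto_zero_iff_norm_tendsto_zero]
  refine h.congr fun N => ?_
  rw [norm_div, Complex.norm_natCast]

/-- multiples of one function: equidistribution -/
theorem scalar_ud {Ω : Type*} [MeasurableSpace Ω] (μ : Measure Ω) [IsProbabilityMeasure μ] (b C : ℕ) (ξ : ℕ → Ω → ℤ)
    (p : ℕ → ℝ) (hT : Thin μ b C ξ p) (D : ℕ) (a : ℕ → ℕ) (ha : StrictMono a) (haD : ∀ n, a n ≤ D * (n + 1)) (c : ℕ → ℝ)
    (f : ℝ → ℝ) (hf : LHol f) (hz : {x | deriv f x = 0}.Countable)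
    (β γ K ρ : ℝ) (hβ : 1 < β) (hirr : Irrational (Real.log β / Real.log b)) (hγ0 : 0 ≤ γ) (hγ : γ < β)
    (hρ : ρ ≠ 0) (w : ℕ → ℝ) (hw : ∀ n, |w n - ρ * β ^ n| ≤ K * γ ^ n) :
    ∀ᵐ ω ∂μ, ∀ h : Unit → ℤ, h ≠ 0 → Tendsto (fun N : ℕ => (∑ n ∈ range N, e (∑ i, h i *
      (f (XX b ξ ω) * w (a n) + c n))) / N) atTop (𝓝 0) := by
  rw [ae_all_iff]
  intro h
  by_cases hh : h = 0
  · exact Eventually.of_forall fun ω hc => absurd hh hc
  have hh0 : (h ()) ≠ 0 := by
    intro h0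
    apply hh
    funext u
    exact h0
  have hhR : ((h () : ℤ) : ℝ) ≠ 0 := by exact_mod_cast hh0
  have h1 := scalar_weyl μ b C ξ p hT D a ha haD (fun n => h () * c n) f hf hz β γ (|((h () : ℤ) : ℝ)| * K) (h () * ρ) hβ hirr
    hγ0 hγ (mul_ne_zero hhR hρ) (fun n => h () * w n) (fun n => by
      have h2 : (h () : ℝ) * w n - h () * ρ * β ^ n = h () * (w n - ρ * β ^ n) := by ring
      rw [h2, abs_mul, mul_assoc]
      gcongr
      exact hw n)
  filter_upwards [h1] with ω hω _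
  apply tendsto_of_norm
  refine hω.congr fun N => ?_
  congr 2
  refine Finset.sum_congr rfl fun n _ => ?_
  congr 1
  rw [Fintype.sum_unique]
  change f (XX b ξ ω) * ((h () : ℝ) * w (a n)) + (h () : ℝ) * c n = (h () : ℝ) * (f (XX b ξ ω) * w (a n) + c n)
  ring

/-- joint exponential sums, in the form needed for Weyl's criterion -/
theorem joint_ud {Ω : Type*} [MeasurableSpace Ω] (μ : Measure Ω) [IsProbabilityMeasure μ] (b C : ℕ) (ξ : ℕ → Ω → ℤ)
    (p : ℕ → ℝ) (hT : Thin μ b C ξ p) (D : ℕ) (a : ℕ → ℕ) (ha : StrictMono a) (haD : ∀ n, a n ≤ D * (n + 1))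
    {d k s : ℕ} (β γ K : Fin d → ℝ) (hinj : Function.Injective β) (hβ : ∀ i, 1 < β i)
    (hirr : ∀ i, Irrational (Real.log (β i) / Real.log b)) (hγ0 : ∀ i, 0 ≤ γ i) (hγ : ∀ i, γ i < β i)
    (ρ : Fin d → Fin k → ℝ) (hρ : ∀ i, LinearIndependent ℚ (ρ i)) (v : Fin d → Fin k → ℕ → ℝ)
    (hv : ∀ i j n, |v i j n - ρ i j * β i ^ n| ≤ K i * γ i ^ n)
    (f : Fin d → ℝ → ℝ) (hf : ∀ i, LHol (f i)) (hfz : ∀ i, {x | deriv (f i) x = 0}.Countable)
    (g : Fin s → ℝ → ℝ) (hg : ∀ l, LHol (g l)) (hgz : ∀ l, {x | deriv (g l) x = 0}.Countable)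
    (hgg : ∀ l m, l ≠ m → {x | g l x = g m x}.Countable) (σ : Fin s → ℝ) (hσ : ∀ l, σ l ≠ 0)
    (c : ℕ → (Fin d × Fin k) ⊕ Fin s → ℝ) :
    ∀ᵐ ω ∂μ, (∀ l, 1 < g l (XX b ξ ω)) → ∀ h : (Fin d × Fin k) ⊕ Fin s → ℤ, h ≠ 0 →
      Tendsto (fun N : ℕ => (∑ n ∈ range N, e (∑ x, h x * (Sum.elim (fun y : Fin d × Fin k => f y.1 (XX b ξ ω) *
        v y.1 y.2 (a n)) (fun l => σ l * g l (XX b ξ ω) ^ a n) x + c n x))) / N) atTop (𝓝 0) := by
  have h1 : ∀ᵐ ω ∂μ, ∀ h : (Fin d × Fin k) ⊕ Fin s → ℤ, h ≠ 0 → (∀ l, 1 < g l (XX b ξ ω)) →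
      Tendsto (fun N : ℕ => (∑ n ∈ range N, e (∑ x, h x * (Sum.elim (fun y : Fin d × Fin k => f y.1 (XX b ξ ω) *
        v y.1 y.2 (a n)) (fun l => σ l * g l (XX b ξ ω) ^ a n) x + c n x))) / N) atTop (𝓝 0) := by
    rw [ae_all_iff]
    intro h
    by_cases hh : h = 0
    · exact Eventually.of_forall fun ω hc => absurd hh hc
    have hPne : ∀ i, (∑ j : Fin k, (h (Sum.inl (i, j)) : ℝ) * ρ i j) = 0 → ∀ j, h (Sum.inl (i, j)) = 0 := by
      intro i h0 j
      have h2 := Fintype.linearIndependent_iff.1 (hρ i) (fun j => ((h (Sum.inl (i, j)) : ℤ) : ℚ)) (by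
        rw [← h0]
        refine Finset.sum_congr rfl fun j _ => ?_
        rw [Rat.smul_def]
        push_cast
        ring) j
      exact_mod_cast h2
    have hPQ : (∃ i, (∑ j : Fin k, (h (Sum.inl (i, j)) : ℝ) * ρ i j) ≠ 0) ∨ ∃ l, (h (Sum.inr l) : ℝ) * σ l ≠ 0 := by
      obtain ⟨t, ht⟩ := Function.ne_iff.mp hh
      rcases t with ⟨i, j⟩ | l
      · left
        exact ⟨i, fun h0 => ht (hPne i h0 j)⟩
      · right
        exact ⟨l, mul_ne_zero (by exact_mod_cast ht) (hσ l)⟩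
    have h2 := joint_weyl μ b C ξ p hT D a ha haD (fun n => ∑ x, h x * c n x) β γ
      (fun i => (∑ j : Fin k, |(h (Sum.inl (i, j)) : ℝ)|) * K i) hinj hβ hirr hγ0 hγ f hf hfz g hg hgz hgg
      (fun i => ∑ j : Fin k, (h (Sum.inl (i, j)) : ℝ) * ρ i j)
      (fun i n => ∑ j : Fin k, (h (Sum.inl (i, j)) : ℝ) * v i j n) (fun i n => by
        have h3 : (∑ j : Fin k, (h (Sum.inl (i, j)) : ℝ) * v i j n) - (∑ j : Fin k, (h (Sum.inl (i, j)) : ℝ) * ρ i j) * β i ^ n =
            ∑ j : Fin k, (h (Sum.inl (i, j)) : ℝ) * (v i j n - ρ i j * β i ^ n) := by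
          rw [Finset.sum_mul, ← Finset.sum_sub_distrib]
          refine Finset.sum_congr rfl fun j _ => ?_
          ring
        rw [h3, mul_assoc, Finset.sum_mul]
        refine (Finset.abs_sum_le_sum_abs _ _).trans (Finset.sum_le_sum fun j _ => ?_)
        rw [abs_mul]
        exact mul_le_mul_of_nonneg_left (hv i j n) (abs_nonneg _)) (fun i h0 n => by
        apply Finset.sum_eq_zero
        intro j _
        rw [hPne i h0 j, Int.cast_zero, zero_mul])
      (fun l => (h (Sum.inr l) : ℝ) * σ l) hPQ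
    filter_upwards [h2] with ω hω _ hX
    apply tendsto_of_norm
    refine (hω hX).congr fun N => ?_
    congr 2
    refine Finset.sum_congr rfl fun n _ => ?_
    congr 1
    have e1 : ∑ x, (h x : ℝ) * (Sum.elim (fun y : Fin d × Fin k => f y.1 (XX b ξ ω) *
        v y.1 y.2 (a n)) (fun l => σ l * g l (XX b ξ ω) ^ a n) x + c n x) =
        (∑ x, (h x : ℝ) * (Sum.elim (fun y : Fin d × Fin k => f y.1 (XX b ξ ω) *
        v y.1 y.2 (a n)) (fun l => σ l * g l (XX b ξ ω) ^ a n) x)) + ∑ x, h x * c n x := by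
      rw [← Finset.sum_add_distrib]
      refine Finset.sum_congr rfl fun x _ => ?_
      ring
    have e2 : ∑ x, (h x : ℝ) * (Sum.elim (fun y : Fin d × Fin k => f y.1 (XX b ξ ω) *
        v y.1 y.2 (a n)) (fun l => σ l * g l (XX b ξ ω) ^ a n) x) =
        (∑ j, f j (XX b ξ ω) * ∑ i : Fin k, (h (Sum.inl (j, i)) : ℝ) * v j i (a n)) +
          ∑ l, (h (Sum.inr l) : ℝ) * σ l * g l (XX b ξ ω) ^ a n := by
      rw [Fintype.sum_sum_type, Fintype.sum_prod_type]
      congr 1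
      · refine Finset.sum_congr rfl fun i _ => ?_
        rw [Finset.mul_sum]
        refine Finset.sum_congr rfl fun j _ => ?_
        rw [Sum.elim_inl]
        ring
      · refine Finset.sum_congr rfl fun l _ => ?_
        rw [Sum.elim_inr]
        ring
    rw [e1, e2]
  filter_upwards [h1] with ω hω hX h hh
  exact hω h hh hX

end Pool.Agent.Helper46.TK
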