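import Pool.Agent.Helper46.TK.Main

/-!
# Thin laws, nonlinear case: multiples and powers of smooth images, local versions
-/

set_option autoImplicit false

namespace Pool.Agent.Helper46.TK

open Finset MeasureTheory ProbabilityTheory Filter Topology
open Pool.Agent.Helper59.RE (e norm_e e_add e_sub conj_e continuous_e e_zero)

/-- the hypotheses on the digits -/
structure Thin {Ω : Type*} [MeasurableSpace Ω] (μ : Measure Ω) (b C : ℕ) (ξ : ℕ → Ω → ℤ) (p : ℕ → ℝ) : Prop where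
  hb : 2 ≤ b
  hξ : ∀ k, Measurable (ξ k)
  hind : iIndepFun ξ μ
  hC : ∀ k ω, |ξ k ω| ≤ C
  hp : ∀ k (j : ℤ), μ.real {ω | ξ k ω = j} ≤ 1 - p k
  hp' : Tendsto (fun k : ℕ => p k * (Real.log k / Real.log (Real.log k))) atTop atTop

/-- the linearisation from a Hölder continuous derivative -/
theorem lin_of_hol (u v δ K : ℝ) (hδ : 0 < δ) (hK : 0 ≤ K) (F D : ℝ → ℝ) (hd : ∀ x ∈ Set.Icc u v, HasDerivAt F (D x) x)
    (hh : ∀ x y : ℝ, x ∈ Set.Icc u v → y ∈ Set.Icc u v → |D x - D y| ≤ K * |x - y| ^ δ)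
    (x y : ℝ) (hx : x ∈ Set.Icc u v) (hy : y ∈ Set.Icc u v) : |F y - F x - D x * (y - x)| ≤ K * |y - x| ^ (1 + δ) := by
  rcases eq_or_ne x y with rfl | hne
  · simp only [sub_self, mul_zero, abs_zero]
    positivity
  have hpos : 0 < |y - x| := abs_pos.2 (sub_ne_zero.2 hne.symm)
  have hsub : Set.uIcc x y ⊆ Set.Icc u v := by
    rw [← Set.uIcc_of_le (hx.1.trans hx.2)]
    exact Set.uIcc_subset_uIcc (Set.Icc_subset_uIcc hx) (Set.Icc_subset_uIcc hy)
  have h1 := Convex.norm_image_sub_le_of_norm_hasDerivWithin_le (𝕜 := ℝ) (f := fun t => F t - D x * t) (f' := fun t => D t - D x)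
    (s := Set.uIcc x y) (x := x) (y := y) (C := K * |y - x| ^ δ) (by
      intro t ht
      have h2 := (hd t (hsub ht)).hasDerivWithinAt (s := Set.uIcc x y)
      have h3 : HasDerivWithinAt (fun t : ℝ => D x * t) (D x) (Set.uIcc x y) t := by
        simpa using (hasDerivWithinAt_id t (Set.uIcc x y)).const_mul (D x)
      exact h2.sub h3) (by
      intro t ht
      rw [Real.norm_eq_abs]
      refine (hh t x (hsub ht) hx).trans ?_
      have h4 : |t - x| ≤ |y - x| := by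
        rcases le_total x y with h | h
        · rw [Set.uIcc_of_le h] at ht
          rw [abs_of_nonneg (by linarith [ht.1]), abs_of_nonneg (by linarith)]
          linarith [ht.2]
        · rw [Set.uIcc_of_ge h] at ht
          rw [abs_of_nonpos (by linarith [ht.2]), abs_of_nonpos (by linarith)]
          linarith [ht.1]
      gcongr) (convex_uIcc x y) Set.left_mem_uIcc Set.right_mem_uIcc
  rw [Real.norm_eq_abs, Real.norm_eq_abs] at h1
  have h5 : F y - D x * y - (F x - D x * x) = F y - F x - D x * (y - x) := by ring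
  rw [h5] at h1
  refine h1.trans (le_of_eq ?_)
  rw [Real.rpow_add hpos, Real.rpow_one]
  ring

/-- multiples of a smooth image -/
theorem mult_local {Ω : Type*} [MeasurableSpace Ω] (μ : Measure Ω) [IsProbabilityMeasure μ] (b C : ℕ) (ξ : ℕ → Ω → ℤ)
    (p : ℕ → ℝ) (hT : Thin μ b C ξ p) (D : ℕ) (a : ℕ → ℕ) (ha : StrictMono a) (haD : ∀ n, a n ≤ D * (n + 1)) (c : ℕ → ℝ)
    (f f' : ℝ → ℝ) (hfm : Measurable f) (u v δ Kf : ℝ) (hδ : 0 < δ) (hKf : 0 ≤ Kf)
    (hd : ∀ x ∈ Set.Icc u v, HasDerivAt f (f' x) x)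
    (hh : ∀ x y : ℝ, x ∈ Set.Icc u v → y ∈ Set.Icc u v → |f' x - f' y| ≤ Kf * |x - y| ^ δ)
    (β γ K ρ : ℝ) (hβ : 1 < β) (hirr : Irrational (Real.log β / Real.log b)) (hγ0 : 0 ≤ γ) (hγ : γ < β)
    (hρ : ρ ≠ 0) (w : ℕ → ℝ) (hw : ∀ n, |w n - ρ * β ^ n| ≤ K * γ ^ n)
    (hne : ∀ᵐ ω ∂μ, XX b ξ ω ∈ Set.Ioo u v → f' (XX b ξ ω) ≠ 0) :
    ∀ᵐ ω ∂μ, XX b ξ ω ∈ Set.Ioo u v →
      Tendsto (fun N : ℕ => ‖∑ i ∈ range N, e (f (XX b ξ ω) * w (a i) + c i)‖ / N) atTop (𝓝 0) := by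
  obtain ⟨hb, hξ, hind, hC, hp, hp'⟩ := hT
  have hβ0 : 0 < β := by linarith
  have hρ0 : 0 < |ρ| := abs_pos.2 hρ
  have hK0 : 0 ≤ K := by
    have := (abs_nonneg _).trans (hw 0)
    simpa using this
  have hb1 : (1 : ℝ) < b := by exact_mod_cast (by omega : 1 < b)
  have hlb : 0 < Real.log b := Real.log_pos hb1
  have hlβ : 0 < Real.log β := Real.log_pos hβ
  have hwb : ∀ n, |w n| ≤ (|ρ| + K) * β ^ n := by
    intro n
    have h4 : |w n| ≤ |w n - ρ * β ^ n| + |ρ * β ^ n| := by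
      have := abs_add_le (w n - ρ * β ^ n) (ρ * β ^ n)
      rwa [sub_add_cancel] at this
    have h5 : |ρ * β ^ n| = |ρ| * β ^ n := by rw [abs_mul, abs_of_pos (pow_pos hβ0 n)]
    have h6 : K * γ ^ n ≤ K * β ^ n := by gcongr
    have h7 := hw n
    rw [h5] at h4
    linarith
  obtain ⟨c₀, hc₀⟩ : ∃ c₀ : ℝ, c₀ = (Real.log β / (1 + δ) + Real.log β) / 2 / Real.log b := ⟨_, rfl⟩
  have hq : Real.log β / (1 + δ) < Real.log β := div_lt_self hlβ (by linarith)
  have hq0 : 0 < Real.log β / (1 + δ) := by positivity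
  have hc₀0 : 0 < c₀ := by rw [hc₀]; positivity
  have hc₀b : c₀ * Real.log b = (Real.log β / (1 + δ) + Real.log β) / 2 := by
    rw [hc₀]
    field_simp
  have hc1 : c₀ * Real.log b < Real.log β := by rw [hc₀b]; linarith
  have hc2 : Real.log β < (1 + δ) * c₀ * Real.log b := by
    have h1 : Real.log β / (1 + δ) < c₀ * Real.log b := by rw [hc₀b]; linarith
    rw [div_lt_iff₀ (by linarith)] at h1
    linarith
  refine abstract_weyl μ ξ hξ hind C hC b hb p hp hp' D a ha haD c u v (fun n x => f x * w n) (fun n x => f' x * w n)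
    (fun n => hfm.mul_const _) δ ((|ρ| + K) * Kf) β c₀ hδ (by positivity) hβ.le hc₀0 ?_ hc2 ?_
  · intro n x y hx hy
    have h1 := lin_of_hol u v δ Kf hδ hKf f f' hd hh x y hx hy
    have h2 : f y * w n - f x * w n - f' x * w n * (y - x) = (f y - f x - f' x * (y - x)) * w n := by ring
    rw [h2, abs_mul]
    calc |f y - f x - f' x * (y - x)| * |w n| ≤ (Kf * |y - x| ^ (1 + δ)) * ((|ρ| + K) * β ^ n) :=
          mul_le_mul h1 (hwb n) (abs_nonneg _) (by positivity)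
      _ = _ := by ring
  · filter_upwards [hne] with ω hω hX
    have hf' := hω hX
    have hf0 : 0 < |f' (XX b ξ ω)| := abs_pos.2 hf'
    refine ⟨|f' (XX b ξ ω)| * |ρ|, β, K / |ρ|, max (γ / β) (1 / 2), fun _ => 1, by positivity, hβ, hirr, hc1, ?_,
      fun _ => le_rfl, fun n => by simp, by positivity, max_lt ((div_lt_one hβ0).2 hγ) (by norm_num), ?_⟩
    · calc Real.log β < (1 + δ) * c₀ * Real.log b := hc2
        _ = c₀ * Real.log b + δ * c₀ * Real.log b := by ring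
        _ < Real.log β + δ * c₀ * Real.log b := by linarith
    · intro n
      have hβn : 0 < β ^ n := pow_pos hβ0 n
      rw [Nat.cast_one, mul_one, abs_mul]
      have h1 : |f' (XX b ξ ω)| * |w n| / (|f' (XX b ξ ω)| * |ρ| * β ^ n) - 1 = (|w n| - |ρ * β ^ n|) / (|ρ| * β ^ n) := by
        rw [abs_mul, abs_of_pos hβn]
        field_simp
      rw [h1, abs_div, abs_of_pos (by positivity : 0 < |ρ| * β ^ n), div_le_iff₀ (by positivity)]
      calc |(|w n| - |ρ * β ^ n|)| ≤ |w n - ρ * β ^ n| := abs_abs_sub_abs_le_abs_sub _ _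
        _ ≤ K * γ ^ n := hw n
        _ = K / |ρ| * (γ / β) ^ n * (|ρ| * β ^ n) := by
          rw [div_pow]
          field_simp
        _ ≤ K / |ρ| * (max (γ / β) (1 / 2)) ^ n * (|ρ| * β ^ n) := by
          gcongr
          exact le_max_left _ _

/-- there is a base with irrational ratio -/
theorem exists_base (b : ℕ) (hb : 2 ≤ b) : ∃ β : ℝ, 1 < β ∧ Irrational (Real.log β / Real.log b) := by
  have hb1 : (1 : ℝ) < b := by exact_mod_cast (by omega : 1 < b)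
  have hlb : 0 < Real.log b := Real.log_pos hb1
  refine ⟨(b : ℝ) ^ (Real.sqrt 2), Real.one_lt_rpow hb1 (by positivity), ?_⟩
  rw [Real.log_rpow (by linarith), mul_div_assoc, div_self hlb.ne', mul_one]
  exact irrational_sqrt_two

/-- no atoms -/
theorem no_atoms {Ω : Type*} [MeasurableSpace Ω] (μ : Measure Ω) [IsProbabilityMeasure μ] (b C : ℕ) (ξ : ℕ → Ω → ℤ)
    (p : ℕ → ℝ) (hT : Thin μ b C ξ p) (x₀ : ℝ) : ∀ᵐ ω ∂μ, XX b ξ ω ≠ x₀ := by
  obtain ⟨β, hβ, hirr⟩ := exists_base b hT.hb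
  have h1 := mult_local μ b C ξ p hT 1 (fun n => n) (fun _ _ h => h) (fun n => by omega) (fun n => -x₀ * β ^ n) id (fun _ => 1)
    measurable_id (x₀ - 1) (x₀ + 1) 1 0 one_pos le_rfl (fun x _ => hasDerivAt_id x) (fun x y _ _ => by simp) β 0 0 1 hβ hirr le_rfl
    (by linarith) one_ne_zero (fun n => β ^ n) (fun n => by simp) (Eventually.of_forall fun ω _ => one_ne_zero)
  filter_upwards [h1] with ω hω hx
  have h2 := hω (by rw [hx]; constructor <;> linarith)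
  have h3 : ∀ i : ℕ, e (id (XX b ξ ω) * β ^ i + -x₀ * β ^ i) = 1 := by
    intro i
    rw [hx, id, neg_mul, add_neg_cancel, e_zero]
  simp only [h3, Finset.sum_const, Finset.card_range, nsmul_eq_mul, mul_one] at h2
  have h4 : Tendsto (fun N : ℕ => ‖(N : ℂ)‖ / N) atTop (𝓝 1) := by
    apply tendsto_const_nhds.congr'
    filter_upwards [eventually_ge_atTop 1] with N hN
    have : (0 : ℝ) < N := by exact_mod_cast hN
    rw [Complex.norm_natCast, div_self this.ne']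
  exact zero_ne_one (tendsto_nhds_unique h2 h4)

theorem avoid {Ω : Type*} [MeasurableSpace Ω] (μ : Measure Ω) [IsProbabilityMeasure μ] (b C : ℕ) (ξ : ℕ → Ω → ℤ)
    (p : ℕ → ℝ) (hT : Thin μ b C ξ p) (S : Set ℝ) (hS : S.Countable) : ∀ᵐ ω ∂μ, XX b ξ ω ∉ S := by
  have h1 : ∀ᵐ ω ∂μ, ∀ x ∈ S, XX b ξ ω ≠ x := (ae_ball_iff hS).2 fun x _ => no_atoms μ b C ξ p hT x
  filter_upwards [h1] with ω hω hx
  exact hω _ hx rfl

/-- the slopes of the powers are Hölder continuous -/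
theorem pow_hol (f f' : ℝ → ℝ) (u v δ K L M : ℝ) (hδ : 0 < δ) (hδ1 : δ ≤ 1) (hK : 0 ≤ K) (hL : 0 ≤ L) (hM : 1 ≤ M)
    (huv : v - u ≤ 1)
    (hd : ∀ x ∈ Set.Icc u v, HasDerivAt f (f' x) x)
    (hh : ∀ x y : ℝ, x ∈ Set.Icc u v → y ∈ Set.Icc u v → |f' x - f' y| ≤ K * |x - y| ^ δ)
    (hf0 : ∀ x ∈ Set.Icc u v, 0 ≤ f x) (hfM : ∀ x ∈ Set.Icc u v, f x ≤ M) (hf'L : ∀ x ∈ Set.Icc u v, |f' x| ≤ L) (n : ℕ)
    (x y : ℝ) (hx : x ∈ Set.Icc u v) (hy : y ∈ Set.Icc u v) :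
    |n * f x ^ (n - 1) * f' x - n * f y ^ (n - 1) * f' y| ≤ (K + L ^ 2) * ((n : ℝ) ^ 2 * M ^ n) * |x - y| ^ δ := by
  have hxy1 : |x - y| ≤ 1 := by
    rw [abs_le]
    constructor <;> linarith [hx.1, hx.2, hy.1, hy.2]
  have hxyδ : |x - y| ≤ |x - y| ^ δ := by
    rcases eq_or_ne x y with rfl | hne
    · rw [sub_self, abs_zero]
      positivity
    · have h1 := Real.rpow_le_rpow_of_exponent_ge (abs_pos.2 (sub_ne_zero.2 hne)) hxy1 hδ1
      rwa [Real.rpow_one] at h1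
  have hfl : |f x - f y| ≤ L * |x - y| := by
    have h1 := Convex.norm_image_sub_le_of_norm_hasDerivWithin_le (𝕜 := ℝ) (f := f) (f' := f') (s := Set.Icc u v) (x := y) (y := x)
      (C := L) (fun t ht => (hd t ht).hasDerivWithinAt) (fun t ht => by rw [Real.norm_eq_abs]; exact hf'L t ht) (convex_Icc u v) hy hx
    rwa [Real.norm_eq_abs, Real.norm_eq_abs] at h1
  rcases Nat.eq_zero_or_pos n with rfl | hn
  · simp
  have hnR : (1 : ℝ) ≤ n := by exact_mod_cast hn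
  have hMn : M ^ (n - 1) ≤ M ^ n := pow_le_pow_right₀ hM (by omega)
  have hMn2 : M ^ (n - 1 - 1) ≤ M ^ n := pow_le_pow_right₀ hM (by omega)
  have hpow : |f x ^ (n - 1) - f y ^ (n - 1)| ≤ L * |x - y| * n * M ^ n := by
    refine (abs_pow_sub_pow_le _ _ _).trans ?_
    have h2 : max |f x| |f y| ≤ M := by
      rw [abs_of_nonneg (hf0 x hx), abs_of_nonneg (hf0 y hy)]
      exact max_le (hfM x hx) (hfM y hy)
    have h3 : ((n - 1 : ℕ) : ℝ) ≤ n := by exact_mod_cast Nat.sub_le _ _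
    calc |f x - f y| * ((n - 1 : ℕ) : ℝ) * max |f x| |f y| ^ (n - 1 - 1) ≤ (L * |x - y|) * n * M ^ (n - 1 - 1) := by gcongr
      _ ≤ L * |x - y| * n * M ^ n := by gcongr
  have hfxn : |f x ^ (n - 1)| ≤ M ^ n := by
    rw [abs_pow, abs_of_nonneg (hf0 x hx)]
    exact (pow_le_pow_left₀ (hf0 x hx) (hfM x hx) _).trans hMn
  have h4 : (n : ℝ) * f x ^ (n - 1) * f' x - n * f y ^ (n - 1) * f' y =
      n * (f x ^ (n - 1) * (f' x - f' y) + (f x ^ (n - 1) - f y ^ (n - 1)) * f' y) := by ring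
  rw [h4, abs_mul, abs_of_pos (by linarith : (0 : ℝ) < n)]
  have h5 : |f x ^ (n - 1) * (f' x - f' y) + (f x ^ (n - 1) - f y ^ (n - 1)) * f' y| ≤
      M ^ n * (K * |x - y| ^ δ) + L * |x - y| * n * M ^ n * L := by
    refine (abs_add_le _ _).trans ?_
    rw [abs_mul, abs_mul]
    apply add_le_add
    · exact mul_le_mul hfxn (hh x y hx hy) (abs_nonneg _) (by positivity)
    · exact mul_le_mul hpow (hf'L y hy) (abs_nonneg _) (by positivity)
  have hxd0 : 0 ≤ |x - y| ^ δ := by positivity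
  have hM0 : 0 ≤ M ^ n := by positivity
  calc (n : ℝ) * |f x ^ (n - 1) * (f' x - f' y) + (f x ^ (n - 1) - f y ^ (n - 1)) * f' y| ≤
        n * (M ^ n * (K * |x - y| ^ δ) + L * |x - y| * n * M ^ n * L) := mul_le_mul_of_nonneg_left h5 (by positivity)
    _ ≤ n * (M ^ n * (K * |x - y| ^ δ) + L * |x - y| ^ δ * n * M ^ n * L) := by gcongr
    _ = (K * n + L ^ 2 * n ^ 2) * M ^ n * |x - y| ^ δ := by ring
    _ ≤ (K * n ^ 2 + L ^ 2 * n ^ 2) * M ^ n * |x - y| ^ δ := by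
      gcongr
      nlinarith
    _ = _ := by ring

/-- powers of a smooth image -/
theorem pow_local {Ω : Type*} [MeasurableSpace Ω] (μ : Measure Ω) [IsProbabilityMeasure μ] (b C : ℕ) (ξ : ℕ → Ω → ℤ)
    (p : ℕ → ℝ) (hT : Thin μ b C ξ p) (D : ℕ) (a : ℕ → ℕ) (ha : StrictMono a) (haD : ∀ n, a n ≤ D * (n + 1)) (c : ℕ → ℝ)
    (f f' : ℝ → ℝ) (hfm : Measurable f) (u v δ Kf : ℝ) (hδ : 0 < δ) (hδ1 : δ ≤ 1) (hKf : 0 ≤ Kf) (huv : v - u ≤ 1)
    (hd : ∀ x ∈ Set.Icc u v, HasDerivAt f (f' x) x)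
    (hh : ∀ x y : ℝ, x ∈ Set.Icc u v → y ∈ Set.Icc u v → |f' x - f' y| ≤ Kf * |x - y| ^ δ)
    (m M : ℝ) (hm1 : 1 < m) (hfm' : ∀ x ∈ Set.Icc u v, m ≤ f x) (hfM : ∀ x ∈ Set.Icc u v, f x ≤ M)
    (hmM : Real.log M < (1 + δ) * Real.log m) (hM : 1 < M)
    (ρ : ℝ) (hρ : ρ ≠ 0)
    (hne : ∀ᵐ ω ∂μ, XX b ξ ω ∈ Set.Ioo u v → f' (XX b ξ ω) ≠ 0 ∧ Irrational (Real.log (f (XX b ξ ω)) / Real.log b)) :
    ∀ᵐ ω ∂μ, XX b ξ ω ∈ Set.Ioo u v →
      Tendsto (fun N : ℕ => ‖∑ i ∈ range N, e (ρ * f (XX b ξ ω) ^ a i + c i)‖ / N) atTop (𝓝 0) := by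
  rcases lt_or_ge v u with hvu | huv'
  · filter_upwards with ω hω
    exact absurd (hω.1.trans hω.2) (not_lt.2 hvu.le)
  obtain ⟨hb, hξ, hind, hC, hp, hp'⟩ := hT
  have hρ0 : 0 < |ρ| := abs_pos.2 hρ
  have hb1 : (1 : ℝ) < b := by exact_mod_cast (by omega : 1 < b)
  have hlb : 0 < Real.log b := Real.log_pos hb1
  have hlm : 0 < Real.log m := Real.log_pos hm1
  have hlM : 0 < Real.log M := Real.log_pos hM
  -- the constants
  obtain ⟨B, hB⟩ : ∃ B : ℝ, B = Real.exp ((Real.log M + (1 + δ) * Real.log m) / 2) := ⟨_, rfl⟩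
  have hlB : Real.log B = (Real.log M + (1 + δ) * Real.log m) / 2 := by rw [hB, Real.log_exp]
  have hB0 : 0 < B := by rw [hB]; positivity
  have hMB : M < B := by
    rw [← Real.log_lt_log_iff (by linarith) hB0, hlB]
    linarith
  have hBm : Real.log B < (1 + δ) * Real.log m := by rw [hlB]; linarith
  have hB1 : 1 < B := hM.trans hMB
  have hlB0 : 0 < Real.log B := Real.log_pos hB1
  obtain ⟨L, hL⟩ : ∃ L : ℝ, L = |f' u| + Kf := ⟨_, rfl⟩
  have hL0 : 0 ≤ L := by rw [hL]; positivity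
  have hf'L : ∀ x ∈ Set.Icc u v, |f' x| ≤ L := by
    intro x hx
    have h1 := hh x u hx ⟨le_rfl, huv'⟩
    have h2 : |x - u| ^ δ ≤ 1 := by
      apply Real.rpow_le_one (abs_nonneg _) _ hδ.le
      rw [abs_of_nonneg (by linarith [hx.1])]
      linarith [hx.2]
    have h3 : |f' x| ≤ |f' x - f' u| + |f' u| := by
      have := abs_add_le (f' x - f' u) (f' u)
      rwa [sub_add_cancel] at this
    have h4 : Kf * |x - u| ^ δ ≤ Kf * 1 := mul_le_mul_of_nonneg_left h2 hKf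
    rw [hL]
    linarith
  -- `n^2 M^n ≤ K₅ B^n`
  obtain ⟨K₅, hK₅0, hK₅⟩ : ∃ K₅ : ℝ, 0 ≤ K₅ ∧ ∀ n : ℕ, (n : ℝ) ^ 2 * M ^ n ≤ K₅ * B ^ n := by
    have h1 : Tendsto (fun n : ℕ => (n : ℝ) ^ 2 * (M / B) ^ n) atTop (𝓝 0) :=
      tendsto_pow_const_mul_const_pow_of_abs_lt_one 2 (by
        rw [abs_of_pos (by positivity), div_lt_one hB0]
        exact hMB)
    obtain ⟨K₅, hK₅⟩ := h1.bddAbove_range
    refine ⟨max K₅ 0, le_max_right _ _, fun n => ?_⟩
    have h2 : (n : ℝ) ^ 2 * (M / B) ^ n ≤ max K₅ 0 := (hK₅ ⟨n, rfl⟩).trans (le_max_left _ _)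
    have h3 : (n : ℝ) ^ 2 * M ^ n = (n : ℝ) ^ 2 * (M / B) ^ n * B ^ n := by
      rw [div_pow]
      field_simp
    rw [h3]
    exact mul_le_mul_of_nonneg_right h2 (by positivity)
  obtain ⟨c₀, hc₀⟩ : ∃ c₀ : ℝ, c₀ = (Real.log B / (1 + δ) + Real.log m) / 2 / Real.log b := ⟨_, rfl⟩
  have hq : Real.log B / (1 + δ) < Real.log m := by
    rw [div_lt_iff₀ (by linarith)]
    linarith
  have hq0 : 0 < Real.log B / (1 + δ) := by positivity
  have hc₀0 : 0 < c₀ := by rw [hc₀]; positivity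
  have hc₀b : c₀ * Real.log b = (Real.log B / (1 + δ) + Real.log m) / 2 := by
    rw [hc₀]
    field_simp
  have hc1 : c₀ * Real.log b < Real.log m := by rw [hc₀b]; linarith
  have hc2 : Real.log B < (1 + δ) * c₀ * Real.log b := by
    have h1 : Real.log B / (1 + δ) < c₀ * Real.log b := by rw [hc₀b]; linarith
    rw [div_lt_iff₀ (by linarith)] at h1
    linarith
  refine abstract_weyl μ ξ hξ hind C hC b hb p hp hp' D a ha haD c u v (fun n x => ρ * f x ^ n)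
    (fun n x => ρ * (n * f x ^ (n - 1) * f' x))
    (fun n => (hfm.pow_const n).const_mul ρ) δ (|ρ| * (Kf + L ^ 2) * K₅) B c₀ hδ (by positivity) hB1.le hc₀0 ?_ hc2 ?_
  · intro n x y hx hy
    refine lin_of_hol u v δ (|ρ| * (Kf + L ^ 2) * K₅ * B ^ n) hδ (by positivity) (fun x => ρ * f x ^ n)
      (fun x => ρ * (n * f x ^ (n - 1) * f' x)) (fun x hx => ?_) (fun x y hx hy => ?_) x y hx hy
    · exact ((hd x hx).pow n).const_mul ρ
    · rw [← mul_sub, abs_mul]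
      have h1 := pow_hol f f' u v δ Kf L M hδ hδ1 hKf hL0 hM.le huv hd hh (fun x hx => by linarith [hfm' x hx]) hfM hf'L n x y hx hy
      calc |ρ| * |n * f x ^ (n - 1) * f' x - n * f y ^ (n - 1) * f' y| ≤
            |ρ| * ((Kf + L ^ 2) * ((n : ℝ) ^ 2 * M ^ n) * |x - y| ^ δ) := by gcongr
        _ ≤ |ρ| * ((Kf + L ^ 2) * (K₅ * B ^ n) * |x - y| ^ δ) := by
          have h3 := hK₅ n
          have h4 : 0 ≤ |ρ| * (Kf + L ^ 2) * |x - y| ^ δ := by positivity
          have h5 := mul_le_mul_of_nonneg_left h3 h4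
          linarith
        _ = _ := by ring
  · filter_upwards [hne] with ω hω hX
    obtain ⟨hf', hirr⟩ := hω hX
    have hf0 : 0 < |f' (XX b ξ ω)| := abs_pos.2 hf'
    have hfx := hfm' _ (Set.Ioo_subset_Icc_self hX)
    have hf1 : 1 < f (XX b ξ ω) := hm1.trans_le hfx
    have hf00 : 0 < f (XX b ξ ω) := by linarith
    have hlf : Real.log m ≤ Real.log (f (XX b ξ ω)) := Real.log_le_log (by linarith) hfx
    refine ⟨|ρ| * |f' (XX b ξ ω)| / f (XX b ξ ω), f (XX b ξ ω), 1, 1 / 2, fun n => max n 1, by positivity, hf1, hirr,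
      hc1.trans_le hlf, ?_, fun n => le_max_right _ _, fun n => max_le (by omega) (by omega), by norm_num, by norm_num, ?_⟩
    · calc Real.log B < (1 + δ) * c₀ * Real.log b := hc2
        _ = c₀ * Real.log b + δ * c₀ * Real.log b := by ring
        _ < Real.log (f (XX b ξ ω)) + δ * c₀ * Real.log b := by linarith
    · intro n
      rcases Nat.eq_zero_or_pos n with rfl | hn
      · simp
      · have hmx : (fun n : ℕ => max n 1) n = n := max_eq_left hn
        rw [hmx]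
        simp only
        have hnR : (0 : ℝ) < n := by exact_mod_cast hn
        have h1 : |ρ * (n * f (XX b ξ ω) ^ (n - 1) * f' (XX b ξ ω))| =
            |ρ| * |f' (XX b ξ ω)| / f (XX b ξ ω) * n * f (XX b ξ ω) ^ n := by
          rw [abs_mul, abs_mul, abs_mul, abs_of_pos hnR, abs_of_pos (pow_pos hf00 _)]
          have h2 : f (XX b ξ ω) ^ n = f (XX b ξ ω) ^ (n - 1) * f (XX b ξ ω) := by
            rw [← pow_succ]
            congr 1
            omega
          rw [h2]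
          field_simp
        rw [h1, div_self (by positivity), sub_self, abs_zero]
        positivity

end Pool.Agent.Helper46.TK
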