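import Pool.Agent.Helper46.TK.Moment

/-!
# Thin laws, nonlinear case: the abstract theorem
-/

set_option autoImplicit false

namespace Pool.Agent.Helper46.TK

open Finset MeasureTheory ProbabilityTheory Filter Topology
open Pool.Agent.Helper59.RE (e norm_e e_add e_sub conj_e continuous_e)
open Pool.Agent.Helper32.RB (rr pointwise)
open Pool.Agent.Helper32.RB (Change)

/-- growth of the slopes at a point -/
def Growth (b : ℕ) (c₀ B₂ δ : ℝ) (Df : ℕ → ℝ → ℝ) (x : ℝ) : Prop :=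
  ∃ (H β K θ : ℝ) (R : ℕ → ℕ), 0 < H ∧ 1 < β ∧ Irrational (Real.log β / Real.log b) ∧
    c₀ * Real.log b < Real.log β ∧ Real.log B₂ < Real.log β + δ * c₀ * Real.log b ∧
    (∀ n, 1 ≤ R n) ∧ (∀ n, R n ≤ n + 1) ∧ 0 < θ ∧ θ < 1 ∧
    ∀ n : ℕ, |(|Df n x| / (H * R n * β ^ n) - 1)| ≤ K * θ ^ n

/-- the slopes are Hölder continuous -/
theorem slope_holder (u v δ K B₂ : ℝ) (hδ : 0 < δ) (F D : ℝ → ℝ)
    (hlin : ∀ x y : ℝ, x ∈ Set.Icc u v → y ∈ Set.Icc u v → |F y - F x - D x * (y - x)| ≤ K * B₂ * |y - x| ^ (1 + δ))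
    (hK : 0 ≤ K * B₂) (x y : ℝ) (hx : x ∈ Set.Icc u v) (hy : y ∈ Set.Icc u v) : |D x - D y| ≤ 2 * (K * B₂ * |y - x| ^ δ) := by
  rcases eq_or_ne x y with rfl | hne
  · rw [sub_self, abs_zero]
    positivity
  · have h1 := hlin x y hx hy
    have h2 := hlin y x hy hx
    have hpos : 0 < |y - x| := abs_pos.2 (sub_ne_zero.2 hne.symm)
    rw [abs_sub_comm x y] at h2
    have h3 : (D x - D y) * (y - x) = -(F y - F x - D x * (y - x)) - (F x - F y - D y * (x - y)) := by ring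
    have h4 : |(D x - D y) * (y - x)| ≤ 2 * (K * B₂ * |y - x| ^ (1 + δ)) := by
      rw [h3]
      refine (abs_sub _ _).trans ?_
      rw [abs_neg]
      linarith
    rw [abs_mul, Real.rpow_add hpos, Real.rpow_one] at h4
    have h5 : |D x - D y| * |y - x| ≤ 2 * (K * B₂ * |y - x| ^ δ) * |y - x| := by
      calc |D x - D y| * |y - x| ≤ 2 * (K * B₂ * (|y - x| * |y - x| ^ δ)) := h4
        _ = _ := by ring
    exact le_of_mul_le_mul_right h5 hpos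

/-- the number of the bad indices at a point -/
theorem count {Ω : Type*} [MeasurableSpace Ω] (μ : Measure Ω) [IsProbabilityMeasure μ]
    (ξ : ℕ → Ω → ℤ) (hξ : ∀ k, Measurable (ξ k)) (hind : iIndepFun ξ μ) (C : ℕ)
    (hC : ∀ k ω, |ξ k ω| ≤ C) (b : ℕ) (hb : 2 ≤ b) (p : ℕ → ℝ)
    (hp : ∀ k (j : ℤ), μ.real {ω | ξ k ω = j} ≤ 1 - p k)
    (hp' : Tendsto (fun k : ℕ => p k * (Real.log k / Real.log (Real.log k))) atTop atTop)
    (D : ℕ) (a : ℕ → ℕ) (ha : StrictMono a) (haD : ∀ n, a n ≤ D * (n + 1))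
    (u v : ℝ) (F Df : ℕ → ℝ → ℝ) (δ K B₂ c₀ : ℝ) (hδ : 0 < δ) (hK : 0 ≤ K) (hB : 1 ≤ B₂) (hc₀ : 0 < c₀)
    (hlin : ∀ (n : ℕ) (x y : ℝ), x ∈ Set.Icc u v → y ∈ Set.Icc u v →
      |F n y - F n x - Df n x * (y - x)| ≤ K * B₂ ^ n * |y - x| ^ (1 + δ))
    (ω : Ω) (hω : XX b ξ ω ∈ Set.Ioo u v) (hgr : Growth b c₀ B₂ δ Df (XX b ξ ω)) (η : ℝ) (hη : 0 < η) :
    ∃ J₀ : ℕ, ∀ J : ℕ, J₀ ≤ J →
      ∑ i ∈ range J, (1 - gd μ b C ξ a c₀ D Df u v J i (W ξ ⌊c₀ * a i⌋₊ ω)) ≤ η * J := by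
  obtain ⟨H, β, K', θ, R, hH, hβ, hirr, hcβ, hB₂, hR1, hR2, hθ0, hθ1, hgr⟩ := hgr
  obtain ⟨κ, hκ, hchf⟩ := chf_tail μ ξ hξ hind C hC b hb p hp
  have hb0 : (0 : ℝ) < b := by exact_mod_cast (by omega : 0 < b)
  have hb1 : (1 : ℝ) < b := by exact_mod_cast (by omega : 1 < b)
  have hβ0 : 0 < β := by linarith
  set x := XX b ξ ω with hx
  -- the approximations
  set xm : ℕ → ℝ := fun n => xw b (W ξ ⌊c₀ * n⌋₊ ω) with hxm
  have happ : ∀ n, |x - xm n| ≤ 2 * C / (b : ℝ) ^ ⌊c₀ * n⌋₊ := by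
    intro n
    have h1 := hd_add_tl b hb ξ C hC ⌊c₀ * n⌋₊ ω
    rw [hd_eq] at h1
    have h2 : x - xm n = XX b (tl ξ ⌊c₀ * n⌋₊) ω := by
      rw [hx, hxm]
      simp only
      linarith
    rw [h2]
    exact tl_le b hb ξ C hC _ ω
  -- the safe region
  have hsafe : ∃ n₀ : ℕ, ∀ n : ℕ, n₀ ≤ n → u + 2 * C / (b : ℝ) ^ ⌊c₀ * n⌋₊ ≤ xm n ∧
      xm n ≤ v - 2 * C / (b : ℝ) ^ ⌊c₀ * n⌋₊ := by
    have h1 : Tendsto (fun n : ℕ => 2 * (2 * C / (b : ℝ) ^ ⌊c₀ * (n : ℝ)⌋₊)) atTop (𝓝 (2 * 0)) := by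
      apply Tendsto.const_mul
      apply Tendsto.div_atTop tendsto_const_nhds
      apply (tendsto_pow_atTop_atTop_of_one_lt hb1).comp
      apply tendsto_nat_floor_atTop.comp
      exact tendsto_natCast_atTop_atTop.const_mul_atTop hc₀
    rw [mul_zero] at h1
    have h2 : 0 < min (x - u) (v - x) := lt_min (by linarith [hω.1]) (by linarith [hω.2])
    obtain ⟨n₀, hn₀⟩ := (h1.eventually_le_const h2).exists_forall_of_atTop
    refine ⟨n₀, fun n hn => ?_⟩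
    have h3 := hn₀ n hn
    have h4 := abs_le.1 (happ n)
    have h5 := min_le_left (x - u) (v - x)
    have h6 := min_le_right (x - u) (v - x)
    constructor <;> linarith
  obtain ⟨n₀, hn₀⟩ := hsafe
  have hmem : ∀ n, n₀ ≤ n → xm n ∈ Set.Icc u v := by
    intro n hn
    obtain ⟨h1, h2⟩ := hn₀ n hn
    have h3 : 0 ≤ 2 * C / (b : ℝ) ^ ⌊c₀ * (n : ℝ)⌋₊ := by positivity
    exact ⟨by linarith, by linarith⟩
  -- the slopes at the approximations
  obtain ⟨K₁, hK₁⟩ : ∃ K₁ : ℝ, K₁ = 2 * (K * (2 * C * b) ^ δ) / H := ⟨_, rfl⟩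
  have hK₁0 : 0 ≤ K₁ := by rw [hK₁]; positivity
  obtain ⟨θ₂, hθ₂⟩ : ∃ θ₂ : ℝ, θ₂ = B₂ * (b : ℝ) ^ (-(c₀ * δ)) / β := ⟨_, rfl⟩
  have hθ₂0 : 0 < θ₂ := by rw [hθ₂]; positivity
  have hθ₂1 : θ₂ < 1 := by
    rw [hθ₂, div_lt_one hβ0]
    exact base_lt b hb B₂ β δ c₀ hB hβ0 hB₂
  have hhold : ∀ n l : ℕ, n₀ ≤ n → l ≤ n → |Df l x - Df l (xm n)| ≤ K₁ * H * (θ₂ * β) ^ l * ((b : ℝ) ^ (-(c₀ * δ))) ^ (n - l) := by
    intro n l hn hl
    have h1 := slope_holder u v δ K (B₂ ^ l) hδ (F l) (Df l) (hlin l) (by positivity) x (xm n) (Set.Ioo_subset_Icc_self hω) (hmem n hn)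
    refine h1.trans ?_
    have h2 : |xm n - x| ^ δ ≤ (2 * C / (b : ℝ) ^ ⌊c₀ * n⌋₊) ^ δ := by
      apply Real.rpow_le_rpow (abs_nonneg _) _ hδ.le
      rw [abs_sub_comm]
      exact happ n
    have h3 := lin_err b hb C K 1 δ c₀ hK le_rfl hδ hc₀ n
    rw [one_pow, mul_one, one_mul] at h3
    have h4 : K * B₂ ^ l * |xm n - x| ^ δ ≤ B₂ ^ l * (K * (2 * C * b) ^ δ * ((b : ℝ) ^ (-(c₀ * δ))) ^ n) := by
      calc K * B₂ ^ l * |xm n - x| ^ δ ≤ K * B₂ ^ l * (2 * C / (b : ℝ) ^ ⌊c₀ * n⌋₊) ^ δ := by gcongr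
        _ = B₂ ^ l * (K * (2 * C / (b : ℝ) ^ ⌊c₀ * n⌋₊) ^ δ) := by ring
        _ ≤ _ := by gcongr
    have h5 : θ₂ * β = B₂ * (b : ℝ) ^ (-(c₀ * δ)) := by
      rw [hθ₂]
      field_simp
    have h6 : ((b : ℝ) ^ (-(c₀ * δ))) ^ n = ((b : ℝ) ^ (-(c₀ * δ))) ^ l * ((b : ℝ) ^ (-(c₀ * δ))) ^ (n - l) := by
      rw [← pow_add]
      congr 1
      omega
    calc 2 * (K * B₂ ^ l * |xm n - x| ^ δ) ≤ 2 * (B₂ ^ l * (K * (2 * C * b) ^ δ * ((b : ℝ) ^ (-(c₀ * δ))) ^ n)) := by linarith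
      _ = K₁ * H * (θ₂ * β) ^ l * ((b : ℝ) ^ (-(c₀ * δ))) ^ (n - l) := by
        rw [h5, h6, mul_pow, hK₁]
        field_simp
  have hbδ : (b : ℝ) ^ (-(c₀ * δ)) ≤ 1 := Real.rpow_le_one_of_one_le_of_nonpos hb1.le (by nlinarith [mul_pos hc₀ hδ])
  have hK'0 : 0 ≤ K' := by
    have := (abs_nonneg _).trans (hgr 0)
    simpa using this
  have hRpos : ∀ n, (1 : ℝ) ≤ R n := fun n => by exact_mod_cast hR1 n
  have hRle : ∀ n, (R n : ℝ) ≤ (n : ℝ) + 1 := fun n => by exact_mod_cast hR2 n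
  -- the combined base
  obtain ⟨θ₉, hθ₉⟩ : ∃ θ₉ : ℝ, θ₉ = max θ (max θ₂ (1 / β)) := ⟨_, rfl⟩
  have hθ₉0 : 0 < θ₉ := by rw [hθ₉]; exact lt_max_of_lt_left hθ0
  have hθ₉1 : θ₉ < 1 := by
    rw [hθ₉]
    refine max_lt hθ1 (max_lt hθ₂1 ?_)
    rw [div_lt_one hβ0]
    exact hβ
  have hθ₉a : θ ≤ θ₉ := by rw [hθ₉]; exact le_max_left _ _
  have hθ₉b : θ₂ ≤ θ₉ := by rw [hθ₉]; exact (le_max_left _ _).trans (le_max_right _ _)
  have hθ₉c : 1 / β ≤ θ₉ := by rw [hθ₉]; exact (le_max_right _ _).trans (le_max_right _ _)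
  set S : ℕ → ℕ → ℝ := fun n l => if n₀ ≤ n then Df n (xm n) - Df l (xm n) else H * R n * β ^ n with hS
  have hSb : ∀ n l : ℕ, l < n → |(|S n l| / (H * R n * β ^ n) - 1)| ≤ (1 + 2 * K' + 2 * K₁) * (n + 1) * θ₉ ^ (n - l) := by
    intro n l hl
    have hM : 0 < H * R n * β ^ n := by
      have := hRpos n
      positivity
    have hn0 : (0 : ℝ) ≤ n := Nat.cast_nonneg n
    rw [hS]
    simp only
    split_ifs with hn
    · have h1 : |Df n x - Df n (xm n)| ≤ K₁ * H * (θ₂ * β) ^ n := by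
        have := hhold n n hn le_rfl
        rwa [Nat.sub_self, pow_zero, mul_one] at this
      have h2 : |Df l x - Df l (xm n)| ≤ K₁ * H * β ^ l := by
        refine (hhold n l hn hl.le).trans ?_
        calc K₁ * H * (θ₂ * β) ^ l * ((b : ℝ) ^ (-(c₀ * δ))) ^ (n - l) ≤ K₁ * H * (1 * β) ^ l * 1 := by
              gcongr
              exact pow_le_one₀ (by positivity) hbδ
          _ = K₁ * H * β ^ l := by ring
      have h3 : |Df l x| ≤ (1 + K') * H * (n + 1) * β ^ l := by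
        have h4 := (abs_le.1 (hgr l)).2
        have hMl : 0 < H * R l * β ^ l := by
          have := hRpos l
          positivity
        have h5 : K' * θ ^ l ≤ K' := by
          calc K' * θ ^ l ≤ K' * 1 := by
                gcongr
                exact pow_le_one₀ hθ0.le hθ1.le
            _ = K' := mul_one _
        have h6 : |Df l x| / (H * R l * β ^ l) ≤ 1 + K' := by linarith
        rw [div_le_iff₀ hMl] at h6
        refine h6.trans ?_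
        have h7 : (R l : ℝ) ≤ (n : ℝ) + 1 := (hRle l).trans (by
          have : (l : ℝ) ≤ n := by exact_mod_cast hl.le
          linarith)
        calc (1 + K') * (H * R l * β ^ l) ≤ (1 + K') * (H * ((n : ℝ) + 1) * β ^ l) := by gcongr
          _ = _ := by ring
      have h8 : |Df n (xm n) - Df l (xm n)| - |Df n x| ≤ K₁ * H * (θ₂ * β) ^ n + (K₁ * H * β ^ l + (1 + K') * H * (n + 1) * β ^ l) ∧
          |Df n x| - |Df n (xm n) - Df l (xm n)| ≤ K₁ * H * (θ₂ * β) ^ n + (K₁ * H * β ^ l + (1 + K') * H * (n + 1) * β ^ l) := by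
        have h9 : |(Df n (xm n) - Df l (xm n)) - Df n x| ≤ K₁ * H * (θ₂ * β) ^ n + (K₁ * H * β ^ l + (1 + K') * H * (n + 1) * β ^ l) := by
          have h10 : (Df n (xm n) - Df l (xm n)) - Df n x = -(Df n x - Df n (xm n)) + (Df l x - Df l (xm n)) - Df l x := by ring
          rw [h10]
          refine (abs_sub _ _).trans ?_
          have h11 := abs_add_le (-(Df n x - Df n (xm n))) (Df l x - Df l (xm n))
          rw [abs_neg] at h11
          linarith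
        constructor
        · exact (abs_sub_abs_le_abs_sub _ _).trans h9
        · rw [abs_sub_comm] at h9
          exact (abs_sub_abs_le_abs_sub _ _).trans h9
      -- the relative errors
      have hMn : H * β ^ n ≤ H * R n * β ^ n := by
        have := hRpos n
        have h12 : 0 < H * β ^ n := by positivity
        nlinarith
      have hHβ : 0 < H * β ^ n := by positivity
      have e1 : K₁ * H * (θ₂ * β) ^ n / (H * R n * β ^ n) ≤ K₁ * θ₉ ^ (n - l) := by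
        calc K₁ * H * (θ₂ * β) ^ n / (H * R n * β ^ n) ≤ K₁ * H * (θ₂ * β) ^ n / (H * β ^ n) := by gcongr
          _ = K₁ * θ₂ ^ n := by rw [mul_pow]; field_simp
          _ ≤ K₁ * θ₉ ^ n := by gcongr
          _ ≤ K₁ * θ₉ ^ (n - l) := by
            gcongr ?_ * ?_
            exact pow_le_pow_of_le_one hθ₉0.le hθ₉1.le (Nat.sub_le _ _)
      have hβl : β ^ l / β ^ n ≤ θ₉ ^ (n - l) := by
        have h13 : β ^ l / β ^ n = (1 / β) ^ (n - l) := by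
          rw [one_div, inv_pow, div_eq_iff (by positivity), ← div_eq_inv_mul, eq_div_iff (by positivity), ← pow_add]
          congr 1
          omega
        rw [h13]
        gcongr
      have e2 : (K₁ * H * β ^ l + (1 + K') * H * (n + 1) * β ^ l) / (H * R n * β ^ n) ≤
          (K₁ + (1 + K') * (n + 1)) * θ₉ ^ (n - l) := by
        calc (K₁ * H * β ^ l + (1 + K') * H * (n + 1) * β ^ l) / (H * R n * β ^ n) ≤
              (K₁ * H * β ^ l + (1 + K') * H * (n + 1) * β ^ l) / (H * β ^ n) := by gcongr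
          _ = (K₁ + (1 + K') * (n + 1)) * (β ^ l / β ^ n) := by field_simp
          _ ≤ _ := by gcongr
      have e3 : K' * θ ^ n ≤ K' * θ₉ ^ (n - l) := by
        calc K' * θ ^ n ≤ K' * θ₉ ^ n := by gcongr
          _ ≤ K' * θ₉ ^ (n - l) := by
            gcongr ?_ * ?_
            exact pow_le_pow_of_le_one hθ₉0.le hθ₉1.le (Nat.sub_le _ _)
      have h14 := abs_le.1 (hgr n)
      have h15 : (|Df n (xm n) - Df l (xm n)| - |Df n x|) / (H * R n * β ^ n) ≤ K₁ * θ₉ ^ (n - l) + (K₁ + (1 + K') * (n + 1)) * θ₉ ^ (n - l) := by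
        calc _ ≤ (K₁ * H * (θ₂ * β) ^ n + (K₁ * H * β ^ l + (1 + K') * H * (n + 1) * β ^ l)) / (H * R n * β ^ n) := by
              gcongr
              exact h8.1
          _ ≤ _ := by
              rw [add_div]
              exact add_le_add e1 e2
      have h16 : (|Df n x| - |Df n (xm n) - Df l (xm n)|) / (H * R n * β ^ n) ≤ K₁ * θ₉ ^ (n - l) + (K₁ + (1 + K') * (n + 1)) * θ₉ ^ (n - l) := by
        calc _ ≤ (K₁ * H * (θ₂ * β) ^ n + (K₁ * H * β ^ l + (1 + K') * H * (n + 1) * β ^ l)) / (H * R n * β ^ n) := by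
              gcongr
              exact h8.2
          _ ≤ _ := by
              rw [add_div]
              exact add_le_add e1 e2
      rw [sub_div] at h15 h16
      have h17 : K' * θ₉ ^ (n - l) + (K₁ * θ₉ ^ (n - l) + (K₁ + (1 + K') * (n + 1)) * θ₉ ^ (n - l)) ≤
          (1 + 2 * K' + 2 * K₁) * (n + 1) * θ₉ ^ (n - l) := by
        have h18 : 0 ≤ θ₉ ^ (n - l) := by positivity
        have h19 : K' + (K₁ + (K₁ + (1 + K') * (n + 1))) ≤ (1 + 2 * K' + 2 * K₁) * (n + 1) := by nlinarith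
        calc _ = (K' + (K₁ + (K₁ + (1 + K') * (n + 1)))) * θ₉ ^ (n - l) := by ring
          _ ≤ _ := mul_le_mul_of_nonneg_right h19 h18
      rw [abs_le]
      constructor <;> linarith
    · rw [abs_of_pos hM, div_self hM.ne', sub_self, abs_zero]
      positivity
  obtain ⟨J₁, hJ₁⟩ := pointwise b hb β hβ hirr H hH R hR1 hR2 c₀ hc₀ hcβ (1 + 2 * K' + 2 * K₁) θ₉ hθ₉0 hθ₉1 S hSb 1
    (2 * C).factorial le_rfl (Nat.factorial_pos _) D a ha haD p hp' κ hκ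
    (fun m T => ‖∫ ω, e (T * XX b (tl ξ m) ω) ∂μ‖) (fun m T F hF _ hT => hchf m T F hF hT) η hη
  obtain ⟨J₂, hJ₂⟩ := (tendsto_atTop_atTop.1 (rr_tendsto D)) (n₀ + 1)
  refine ⟨J₁ + J₂, fun J hJ => ?_⟩
  obtain ⟨Bd, -, hBcard, hBd⟩ := hJ₁ J (by omega)
  have hrn := hJ₂ J (by omega)
  have hterm : ∀ i ∈ range J, (1 - gd μ b C ξ a c₀ D Df u v J i (W ξ ⌊c₀ * a i⌋₊ ω)) ≤ (if i ∈ Bd then 1 else 0) := by
    intro i hi
    split_ifs with hiB
    · have := gd_nonneg μ b C ξ a c₀ D Df u v J i (W ξ ⌊c₀ * a i⌋₊ ω)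
      linarith
    · obtain ⟨h1, h2⟩ := hBd i (mem_range.1 hi) hiB
      have h3 : n₀ ≤ a i := by
        calc n₀ ≤ rr D J := by omega
          _ ≤ (rr D J) ^ 3 := Nat.le_self_pow (by omega) _
          _ ≤ a i := h1
      have h4 : gd μ b C ξ a c₀ D Df u v J i (W ξ ⌊c₀ * a i⌋₊ ω) = 1 := by
        unfold gd
        rw [if_pos]
        refine ⟨h1, hn₀ (a i) h3, fun l hl hil => ?_⟩
        have h5 := h2 l hl hil
        rw [hS] at h5
        simp only [if_pos h3, Nat.cast_one, one_mul] at h5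
        exact h5
      rw [h4]
      norm_num
  calc ∑ i ∈ range J, (1 - gd μ b C ξ a c₀ D Df u v J i (W ξ ⌊c₀ * a i⌋₊ ω)) ≤ ∑ i ∈ range J, (if i ∈ Bd then (1 : ℝ) else 0) :=
        Finset.sum_le_sum hterm
    _ = ((range J).filter (fun i => i ∈ Bd)).card := by rw [Finset.sum_boole]
    _ ≤ Bd.card := by
      have : (range J).filter (fun i => i ∈ Bd) ⊆ Bd := fun i hi => (mem_filter.1 hi).2
      exact_mod_cast Finset.card_le_card this
    _ ≤ η * J := hBcard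

/-- **The abstract theorem.** -/
theorem abstract_weyl {Ω : Type*} [MeasurableSpace Ω] (μ : Measure Ω) [IsProbabilityMeasure μ]
    (ξ : ℕ → Ω → ℤ) (hξ : ∀ k, Measurable (ξ k)) (hind : iIndepFun ξ μ) (C : ℕ)
    (hC : ∀ k ω, |ξ k ω| ≤ C) (b : ℕ) (hb : 2 ≤ b) (p : ℕ → ℝ)
    (hp : ∀ k (j : ℤ), μ.real {ω | ξ k ω = j} ≤ 1 - p k)
    (hp' : Tendsto (fun k : ℕ => p k * (Real.log k / Real.log (Real.log k))) atTop atTop)
    (D : ℕ) (a : ℕ → ℕ) (ha : StrictMono a) (haD : ∀ n, a n ≤ D * (n + 1)) (c : ℕ → ℝ)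
    (u v : ℝ) (F Df : ℕ → ℝ → ℝ) (hF : ∀ n, Measurable (F n))
    (δ K B₂ c₀ : ℝ) (hδ : 0 < δ) (hK : 0 ≤ K) (hB : 1 ≤ B₂) (hc₀ : 0 < c₀)
    (hlin : ∀ (n : ℕ) (x y : ℝ), x ∈ Set.Icc u v → y ∈ Set.Icc u v →
      |F n y - F n x - Df n x * (y - x)| ≤ K * B₂ ^ n * |y - x| ^ (1 + δ))
    (h1 : Real.log B₂ < (1 + δ) * c₀ * Real.log b)
    (hgr : ∀ᵐ ω ∂μ, XX b ξ ω ∈ Set.Ioo u v → Growth b c₀ B₂ δ Df (XX b ξ ω)) :
    ∀ᵐ ω ∂μ, XX b ξ ω ∈ Set.Ioo u v →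
      Tendsto (fun N : ℕ => ‖∑ i ∈ range N, e (F (a i) (XX b ξ ω) + c i)‖ / N) atTop (𝓝 0) := by
  have hXm : Measurable (XX b ξ) := measurable_XX b hb C ξ hξ hC
  have h2 := as_weyl μ (fun i ω => F (a i) (XX b ξ ω) + c i) (fun i => ((hF _).comp hXm).add_const _)
    {ω | XX b ξ ω ∈ Set.Ioo u v}
    (fun J i ω => gd μ b C ξ a c₀ D Df u v J i (W ξ ⌊c₀ * a i⌋₊ ω))
    (fun J i => (Measurable.of_discrete (f := gd μ b C ξ a c₀ D Df u v J i)).comp (measurable_W ξ hξ _))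
    (fun J i ω => gd_le _ _ _ _ _ _ _ _ _ _ _ _ _) (fun J i ω => gd_nonneg _ _ _ _ _ _ _ _ _ _ _ _ _)
    (moment μ ξ hξ hind C hC b hb D a ha c u v F Df hF δ K B₂ c₀ hδ hK hB hc₀ hlin h1) (by
      filter_upwards [hgr] with ω hω hA η hη
      exact count μ ξ hξ hind C hC b hb p hp hp' D a ha haD u v F Df δ K B₂ c₀ hδ hK hB hc₀ hlin ω hA (hω hA) η hη)
  filter_upwards [h2] with ω hω hA
  exact hω hA

end Pool.Agent.Helper46.TK
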