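import Pool.Agent.Helper46.TK.AS
import Pool.Agent.Helper32.RB.Pt

/-!
# Thin laws, nonlinear case: the good set and its second moment
-/

set_option autoImplicit false

namespace Pool.Agent.Helper46.TK

open Finset MeasureTheory ProbabilityTheory Filter Topology
open Pool.Agent.Helper59.RE (e norm_e e_add e_sub conj_e continuous_e)
open Pool.Agent.Helper32.RB (rr)

open Classical in
/-- the indicator function of the good indices -/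
noncomputable def gd {Ω : Type*} [MeasurableSpace Ω] (μ : Measure Ω) (b C : ℕ) (ξ : ℕ → Ω → ℤ) (a : ℕ → ℕ) (c₀ : ℝ)
    (D : ℕ) (Df : ℕ → ℝ → ℝ) (u v : ℝ) (J i : ℕ) (w : Fin ⌊c₀ * a i⌋₊ → ℤ) : ℝ :=
  if (rr D J) ^ 3 ≤ a i ∧ (u + 2 * C / (b : ℝ) ^ ⌊c₀ * a i⌋₊ ≤ xw b w ∧ xw b w ≤ v - 2 * C / (b : ℝ) ^ ⌊c₀ * a i⌋₊) ∧
    ∀ l < J, a l + (rr D J) ^ 3 ≤ a i →
      ‖∫ ω, e ((Df (a i) (xw b w) - Df (a l) (xw b w)) * XX b (tl ξ ⌊c₀ * a i⌋₊) ω) ∂μ‖ ≤ 1 / Real.log J ^ 2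
  then 1 else 0

theorem gd_nonneg {Ω : Type*} [MeasurableSpace Ω] (μ : Measure Ω) (b C : ℕ) (ξ : ℕ → Ω → ℤ) (a : ℕ → ℕ) (c₀ : ℝ)
    (D : ℕ) (Df : ℕ → ℝ → ℝ) (u v : ℝ) (J i : ℕ) (w : Fin ⌊c₀ * a i⌋₊ → ℤ) : 0 ≤ gd μ b C ξ a c₀ D Df u v J i w := by
  unfold gd
  split_ifs <;> norm_num

theorem gd_le {Ω : Type*} [MeasurableSpace Ω] (μ : Measure Ω) (b C : ℕ) (ξ : ℕ → Ω → ℤ) (a : ℕ → ℕ) (c₀ : ℝ)
    (D : ℕ) (Df : ℕ → ℝ → ℝ) (u v : ℝ) (J i : ℕ) (w : Fin ⌊c₀ * a i⌋₊ → ℤ) : gd μ b C ξ a c₀ D Df u v J i w ≤ 1 := by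
  unfold gd
  split_ifs <;> norm_num

/-- the size of the linearisation error -/
theorem lin_err (b : ℕ) (hb : 2 ≤ b) (C : ℕ) (K B₂ δ c₀ : ℝ) (hK : 0 ≤ K) (hB : 1 ≤ B₂) (hδ : 0 < δ) (hc₀ : 0 < c₀) (n : ℕ) :
    K * B₂ ^ n * (2 * C / (b : ℝ) ^ ⌊c₀ * n⌋₊) ^ δ ≤
      K * (2 * C * b) ^ δ * (B₂ * (b : ℝ) ^ (-(c₀ * δ))) ^ n := by
  have hb0 : (0 : ℝ) < b := by exact_mod_cast (by omega : 0 < b)
  have hb1 : (1 : ℝ) ≤ b := by exact_mod_cast (by omega : 1 ≤ b)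
  have h1 : c₀ * n - 1 ≤ (⌊c₀ * n⌋₊ : ℕ) := (Nat.sub_one_lt_floor _).le
  have h2 : 2 * C / (b : ℝ) ^ ⌊c₀ * n⌋₊ ≤ (2 * C * b) * (b : ℝ) ^ (-(c₀ * n)) := by
    have h3 : (b : ℝ) ^ (c₀ * n - 1) ≤ (b : ℝ) ^ ⌊c₀ * n⌋₊ := by
      rw [← Real.rpow_natCast]
      exact Real.rpow_le_rpow_of_exponent_le hb1 h1
    have h4 : (0 : ℝ) < (b : ℝ) ^ (c₀ * n - 1) := Real.rpow_pos_of_pos hb0 _
    calc 2 * C / (b : ℝ) ^ ⌊c₀ * n⌋₊ ≤ 2 * C / (b : ℝ) ^ (c₀ * n - 1) := by gcongr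
      _ = (2 * C * b) * (b : ℝ) ^ (-(c₀ * n)) := by
        rw [Real.rpow_sub hb0, Real.rpow_one, Real.rpow_neg hb0.le]
        field_simp
  have h5 : (2 * C / (b : ℝ) ^ ⌊c₀ * n⌋₊) ^ δ ≤ (2 * C * b) ^ δ * ((b : ℝ) ^ (-(c₀ * δ))) ^ n := by
    refine (Real.rpow_le_rpow (by positivity) h2 hδ.le).trans (le_of_eq ?_)
    rw [Real.mul_rpow (by positivity) (by positivity), ← Real.rpow_mul hb0.le, ← Real.rpow_natCast ((b : ℝ) ^ (-(c₀ * δ))),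
      ← Real.rpow_mul hb0.le]
    congr 2
    ring
  calc K * B₂ ^ n * (2 * C / (b : ℝ) ^ ⌊c₀ * n⌋₊) ^ δ ≤ K * B₂ ^ n * ((2 * C * b) ^ δ * ((b : ℝ) ^ (-(c₀ * δ))) ^ n) := by
        gcongr
    _ = K * (2 * C * b) ^ δ * (B₂ * (b : ℝ) ^ (-(c₀ * δ))) ^ n := by rw [mul_pow]; ring

/-- the base of the linearisation error -/
theorem base_lt (b : ℕ) (hb : 2 ≤ b) (B₂ β δ c₀ : ℝ) (hB : 1 ≤ B₂) (hβ : 0 < β)
    (h : Real.log B₂ < Real.log β + δ * c₀ * Real.log b) : B₂ * (b : ℝ) ^ (-(c₀ * δ)) < β := by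
  have hb0 : (0 : ℝ) < b := by exact_mod_cast (by omega : 0 < b)
  have h1 : 0 < B₂ * (b : ℝ) ^ (-(c₀ * δ)) := by positivity
  rw [← Real.log_lt_log_iff h1 hβ, Real.log_mul (by positivity) (by positivity), Real.log_rpow hb0]
  nlinarith

/-- facts about `rr` -/
theorem rr_facts (D J : ℕ) (hJ : 1 ≤ J) : (rr D J) ^ 4 ≤ (D + 1) * J ∧ (D + 1) * J < (rr D J + 1) ^ 4 := by
  unfold rr
  constructor
  · have h1 : Nat.sqrt (Nat.sqrt ((D + 1) * J)) * Nat.sqrt (Nat.sqrt ((D + 1) * J)) ≤ Nat.sqrt ((D + 1) * J) := Nat.sqrt_le _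
    calc (Nat.sqrt (Nat.sqrt ((D + 1) * J))) ^ 4 = (Nat.sqrt (Nat.sqrt ((D + 1) * J)) * Nat.sqrt (Nat.sqrt ((D + 1) * J))) *
          (Nat.sqrt (Nat.sqrt ((D + 1) * J)) * Nat.sqrt (Nat.sqrt ((D + 1) * J))) := by ring
      _ ≤ Nat.sqrt ((D + 1) * J) * Nat.sqrt ((D + 1) * J) := Nat.mul_le_mul h1 h1
      _ ≤ (D + 1) * J := Nat.sqrt_le _
  · have h1 : Nat.sqrt ((D + 1) * J) < (Nat.sqrt (Nat.sqrt ((D + 1) * J)) + 1) * (Nat.sqrt (Nat.sqrt ((D + 1) * J)) + 1) :=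
      Nat.lt_succ_sqrt _
    have h2 : (D + 1) * J < (Nat.sqrt ((D + 1) * J) + 1) * (Nat.sqrt ((D + 1) * J) + 1) := Nat.lt_succ_sqrt _
    calc (D + 1) * J < (Nat.sqrt ((D + 1) * J) + 1) * (Nat.sqrt ((D + 1) * J) + 1) := h2
      _ ≤ ((Nat.sqrt (Nat.sqrt ((D + 1) * J)) + 1) * (Nat.sqrt (Nat.sqrt ((D + 1) * J)) + 1)) *
          ((Nat.sqrt (Nat.sqrt ((D + 1) * J)) + 1) * (Nat.sqrt (Nat.sqrt ((D + 1) * J)) + 1)) := Nat.mul_le_mul h1 h1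
      _ = (Nat.sqrt (Nat.sqrt ((D + 1) * J)) + 1) ^ 4 := by ring

theorem rr_tendsto (D : ℕ) : Tendsto (rr D) atTop atTop := by
  rw [tendsto_atTop_atTop]
  intro R
  refine ⟨R ^ 4 + 1, fun J hJ => ?_⟩
  by_contra hlt
  push Not at hlt
  have h1 := (rr_facts D J (by omega)).2
  have h2 : (rr D J + 1) ^ 4 ≤ R ^ 4 := Nat.pow_le_pow_left (by omega) 4
  have h3 : J ≤ (D + 1) * J := Nat.le_mul_of_pos_left _ (by omega)
  omega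

/-- constants: everything that is needed about large `J` -/
theorem large (D : ℕ) (Q θ : ℝ) (hθ0 : 0 ≤ θ) (hθ : θ < 1) :
    ∃ J₀ : ℕ, ∀ J : ℕ, J₀ ≤ J → 1 ≤ Real.log J ∧ 1 ≤ rr D J ∧ (∀ n : ℕ, (rr D J) ^ 3 ≤ n → Q * θ ^ n ≤ 1 / Real.log J ^ 2) ∧
      (rr D J : ℝ) ^ 3 ≤ ((D : ℝ) + 1) * J / Real.log J ^ 2 := by
  have hθabs : |θ| < 1 := by rw [abs_of_nonneg hθ0]; exact hθ
  -- `64 r^2 |Q| θ^r ≤ 1`
  have h1 : Tendsto (fun r : ℕ => 64 * |Q| * ((r : ℝ) ^ 2 * θ ^ r)) atTop (𝓝 (64 * |Q| * 0)) :=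
    (tendsto_pow_const_mul_const_pow_of_abs_lt_one 2 hθabs).const_mul _
  rw [mul_zero] at h1
  obtain ⟨r₁, hr₁⟩ := (h1.eventually_le_const (u := 1) one_pos).exists_forall_of_atTop
  -- `log^2 J ≤ r`
  have h2 : ∀ᶠ r : ℕ in atTop, 16 * Real.log ((r : ℝ) + 1) ^ 2 ≤ r := by
    have h3 := Real.isLittleO_pow_log_id_atTop (n := 2)
    have h4 := h3.def (by norm_num : (0 : ℝ) < 1 / 32)
    have h5 : Tendsto (fun r : ℕ => (r : ℝ) + 1) atTop atTop :=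
      tendsto_atTop_add_const_right _ _ tendsto_natCast_atTop_atTop
    filter_upwards [h5.eventually h4, eventually_ge_atTop 1] with r hr hr1
    rw [Real.norm_eq_abs, Real.norm_eq_abs, id, abs_of_nonneg (by positivity), abs_of_nonneg (by positivity)] at hr
    have : (1 : ℝ) ≤ r := by exact_mod_cast hr1
    linarith
  obtain ⟨r₂, hr₂⟩ := h2.exists_forall_of_atTop
  obtain ⟨J₁, hJ₁⟩ := (tendsto_atTop_atTop.1 (rr_tendsto D)) (r₁ + r₂ + 1)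
  refine ⟨J₁ + 3, fun J hJ => ?_⟩
  have hr := hJ₁ J (by omega)
  set r := rr D J with hrdef
  obtain ⟨hf1, hf2⟩ := rr_facts D J (by omega)
  rw [← hrdef] at hf1 hf2
  have hJR : (3 : ℝ) ≤ J := by exact_mod_cast (by omega : 3 ≤ J)
  have hlogJ : 1 ≤ Real.log J := by
    rw [Real.le_log_iff_exp_le (by linarith)]
    have := Real.exp_one_lt_d9
    linarith
  have hrR : (1 : ℝ) ≤ r := by exact_mod_cast (by omega : 1 ≤ r)
  have hlog4 : Real.log J ≤ 4 * Real.log ((r : ℝ) + 1) := by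
    have h3 : (J : ℝ) ≤ ((r : ℝ) + 1) ^ 4 := by
      have h4 : J ≤ (r + 1) ^ 4 := (Nat.le_mul_of_pos_left _ (by omega)).trans hf2.le
      exact_mod_cast h4
    have h5 := Real.log_le_log (by linarith) h3
    rw [Real.log_pow] at h5
    exact_mod_cast h5
  have hlr : Real.log ((r : ℝ) + 1) ≤ r := by
    have := Real.log_le_sub_one_of_pos (by linarith : (0 : ℝ) < (r : ℝ) + 1)
    linarith
  have hlr0 : 0 ≤ Real.log ((r : ℝ) + 1) := Real.log_nonneg (by linarith)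
  refine ⟨hlogJ, by omega, ?_, ?_⟩
  · intro n hn
    have h3 := hr₁ r (by omega)
    have h4 : r ≤ n := by
      calc r ≤ r ^ 3 := Nat.le_self_pow (by omega) _
        _ ≤ n := hn
    have h5 : θ ^ n ≤ θ ^ r := pow_le_pow_of_le_one hθ0 hθ.le h4
    rw [le_div_iff₀ (by positivity)]
    have h6 : Real.log J ^ 2 ≤ 16 * (r : ℝ) ^ 2 := by
      have : Real.log J ≤ 4 * r := by linarith
      calc Real.log J ^ 2 ≤ (4 * (r : ℝ)) ^ 2 := pow_le_pow_left₀ (by linarith) this 2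
        _ = 16 * (r : ℝ) ^ 2 := by ring
    calc Q * θ ^ n * Real.log J ^ 2 ≤ |Q| * θ ^ r * (16 * (r : ℝ) ^ 2) := by
          have h7 : Q * θ ^ n ≤ |Q| * θ ^ r := by
            calc Q * θ ^ n ≤ |Q| * θ ^ n := mul_le_mul_of_nonneg_right (le_abs_self Q) (by positivity)
              _ ≤ |Q| * θ ^ r := mul_le_mul_of_nonneg_left h5 (abs_nonneg Q)
          exact mul_le_mul h7 h6 (by positivity) (by positivity)
      _ ≤ 64 * |Q| * ((r : ℝ) ^ 2 * θ ^ r) := by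
          have h8 : 0 ≤ |Q| * ((r : ℝ) ^ 2 * θ ^ r) := by positivity
          nlinarith
      _ ≤ 1 := h3
  · rw [le_div_iff₀ (by positivity)]
    have h3 := hr₂ r (by omega)
    have h4 : Real.log J ^ 2 ≤ r := by
      calc Real.log J ^ 2 ≤ (4 * Real.log ((r : ℝ) + 1)) ^ 2 := pow_le_pow_left₀ (by linarith) hlog4 2
        _ = 16 * Real.log ((r : ℝ) + 1) ^ 2 := by ring
        _ ≤ r := h3
    calc (r : ℝ) ^ 3 * Real.log J ^ 2 ≤ (r : ℝ) ^ 3 * r := by gcongr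
      _ = ((r ^ 4 : ℕ) : ℝ) := by push_cast; ring
      _ ≤ (((D + 1) * J : ℕ) : ℝ) := by exact_mod_cast hf1
      _ = ((D : ℝ) + 1) * J := by push_cast; ring

/-- the second moment over the good indices -/
theorem moment {Ω : Type*} [MeasurableSpace Ω] (μ : Measure Ω) [IsProbabilityMeasure μ]
    (ξ : ℕ → Ω → ℤ) (hξ : ∀ k, Measurable (ξ k)) (hind : iIndepFun ξ μ) (C : ℕ)
    (hC : ∀ k ω, |ξ k ω| ≤ C) (b : ℕ) (hb : 2 ≤ b) (D : ℕ) (a : ℕ → ℕ) (ha : StrictMono a)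
    (c : ℕ → ℝ) (u v : ℝ) (F Df : ℕ → ℝ → ℝ)
    (hF : ∀ n, Measurable (F n)) (δ K B₂ c₀ : ℝ) (hδ : 0 < δ) (hK : 0 ≤ K) (hB : 1 ≤ B₂) (hc₀ : 0 < c₀)
    (hlin : ∀ (n : ℕ) (x y : ℝ), x ∈ Set.Icc u v → y ∈ Set.Icc u v →
      |F n y - F n x - Df n x * (y - x)| ≤ K * B₂ ^ n * |y - x| ^ (1 + δ))
    (h1 : Real.log B₂ < (1 + δ) * c₀ * Real.log b) :
    ∃ (K' : ℝ) (J₀ : ℕ), ∀ J : ℕ, J₀ ≤ J →
      ∫ ω, ‖∑ i ∈ range J, ((gd μ b C ξ a c₀ D Df u v J i (W ξ ⌊c₀ * a i⌋₊ ω) : ℝ) : ℂ) *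
        e (F (a i) (XX b ξ ω) + c i)‖ ^ 2 ∂μ ≤ K' * (J : ℝ) ^ 2 / Real.log J ^ 2 := by
  have hb0 : (0 : ℝ) < b := by exact_mod_cast (by omega : 0 < b)
  have hXm : Measurable (XX b ξ) := measurable_XX b hb C ξ hξ hC
  obtain ⟨θ, hθ⟩ : ∃ θ : ℝ, θ = B₂ * (b : ℝ) ^ (-(c₀ * (1 + δ))) := ⟨_, rfl⟩
  have hθ0 : 0 ≤ θ := by rw [hθ]; positivity
  have hθ1 : θ < 1 := by
    rw [hθ]
    apply base_lt b hb B₂ 1 (1 + δ) c₀ hB one_pos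
    rw [Real.log_one, zero_add]
    exact h1
  obtain ⟨Q₀, hQ₀⟩ : ∃ Q₀ : ℝ, Q₀ = K * (2 * C * b) ^ (1 + δ) := ⟨_, rfl⟩
  obtain ⟨J₀, hJ₀⟩ := large D (4 * Real.pi * Q₀) θ hθ0 hθ1
  refine ⟨2 + 3 * ((D : ℝ) + 1), J₀, fun J hJ => ?_⟩
  obtain ⟨hlogJ, hr1, hexp, hr3⟩ := hJ₀ J hJ
  set r := rr D J with hr
  have hgm : ∀ i, Measurable (fun ω => gd μ b C ξ a c₀ D Df u v J i (W ξ ⌊c₀ * a i⌋₊ ω)) := fun i =>
    (Measurable.of_discrete (f := gd μ b C ξ a c₀ D Df u v J i)).comp (measurable_W ξ hξ _)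
  refine (second_moment_w μ (fun i ω => F (a i) (XX b ξ ω) + c i) (fun i => ((hF _).comp hXm).add_const _)
    (fun i ω => gd μ b C ξ a c₀ D Df u v J i (W ξ ⌊c₀ * a i⌋₊ ω)) hgm (fun i ω => gd_nonneg _ _ _ _ _ _ _ _ _ _ _ _ _)
    (fun i ω => gd_le _ _ _ _ _ _ _ _ _ _ _ _ _) (range J)).trans ?_
  have hlJ2 : 0 < Real.log J ^ 2 := by positivity
  -- far pairs
  have hfar : ∀ i l : ℕ, l < J → a l + r ^ 3 ≤ a i → ∀ c' : ℝ,
      ‖∫ ω, ((gd μ b C ξ a c₀ D Df u v J i (W ξ ⌊c₀ * a i⌋₊ ω) * gd μ b C ξ a c₀ D Df u v J l (W ξ ⌊c₀ * a l⌋₊ ω) : ℝ) : ℂ) *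
        e (F (a i) (XX b ξ ω) - F (a l) (XX b ξ ω) + c') ∂μ‖ ≤ 2 / Real.log J ^ 2 := by
    intro i l hl hil c'
    have hla : a l ≤ a i := by omega
    have hr3a : r ^ 3 ≤ a i := by omega
    have hm : ⌊c₀ * a l⌋₊ ≤ ⌊c₀ * a i⌋₊ := Nat.floor_le_floor (by gcongr)
    have hZ0 : (0 : ℝ) ≤ 2 * C / (b : ℝ) ^ ⌊c₀ * a i⌋₊ := by positivity
    have hQle : K * B₂ ^ (a i) * (2 * C / (b : ℝ) ^ ⌊c₀ * a i⌋₊) ^ (1 + δ) ≤ Q₀ * θ ^ (a i) := by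
      have := lin_err b hb C K B₂ (1 + δ) c₀ hK hB (by linarith) hc₀ (a i)
      rwa [← hθ, ← hQ₀] at this
    have h2 := pair_bound μ ξ hξ hind C hC b hb u v (F (a i)) (F (a l)) (Df (a i)) (Df (a l)) (hF _) (hF _)
      ⌊c₀ * a i⌋₊ ⌊c₀ * a l⌋₊ hm (gd μ b C ξ a c₀ D Df u v J i) (gd μ b C ξ a c₀ D Df u v J l)
      (fun w => gd_nonneg _ _ _ _ _ _ _ _ _ _ _ _ _) (fun w => gd_le _ _ _ _ _ _ _ _ _ _ _ _ _)
      (fun w => gd_nonneg _ _ _ _ _ _ _ _ _ _ _ _ _) (fun w => gd_le _ _ _ _ _ _ _ _ _ _ _ _ _)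
      (1 / Real.log J ^ 2) (K * B₂ ^ (a i) * (2 * C / (b : ℝ) ^ ⌊c₀ * a i⌋₊) ^ (1 + δ)) (by positivity) (by positivity)
      (by
        intro x y hx hy hxy
        have h3 : |y - x| ^ (1 + δ) ≤ (2 * C / (b : ℝ) ^ ⌊c₀ * a i⌋₊) ^ (1 + δ) :=
          Real.rpow_le_rpow (abs_nonneg _) hxy (by linarith)
        constructor
        · refine (hlin (a i) x y hx hy).trans ?_
          gcongr
        · refine (hlin (a l) x y hx hy).trans ?_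
          gcongr)
      (by
        intro w hw
        unfold gd at hw
        split_ifs at hw with hc
        · exact ⟨hc.2.1, hc.2.2 l hl hil⟩
        · exact absurd rfl hw) c'
    refine h2.trans ?_
    have h4 := hexp (a i) hr3a
    have hpi := Real.pi_pos
    have h5 : 4 * Real.pi * (K * B₂ ^ (a i) * (2 * C / (b : ℝ) ^ ⌊c₀ * a i⌋₊) ^ (1 + δ)) ≤ 4 * Real.pi * Q₀ * θ ^ (a i) := by
      calc _ ≤ 4 * Real.pi * (Q₀ * θ ^ (a i)) := mul_le_mul_of_nonneg_left hQle (by positivity)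
        _ = _ := by ring
    have h6 : 2 / Real.log J ^ 2 = 1 / Real.log J ^ 2 + 1 / Real.log J ^ 2 := by ring
    linarith
  have htriv : ∀ i l : ℕ, ∀ Y : Ω → ℝ,
      ‖∫ ω, ((gd μ b C ξ a c₀ D Df u v J i (W ξ ⌊c₀ * a i⌋₊ ω) * gd μ b C ξ a c₀ D Df u v J l (W ξ ⌊c₀ * a l⌋₊ ω) : ℝ) : ℂ) *
        e (Y ω) ∂μ‖ ≤ 1 := by
    intro i l Y
    refine (norm_integral_le_of_norm_le_const (C := 1) (Eventually.of_forall fun ω => ?_)).trans (by simp)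
    rw [norm_mul, norm_e, mul_one, Complex.norm_real, Real.norm_eq_abs,
      abs_of_nonneg (mul_nonneg (gd_nonneg _ _ _ _ _ _ _ _ _ _ _ _ _) (gd_nonneg _ _ _ _ _ _ _ _ _ _ _ _ _))]
    exact mul_le_one₀ (gd_le _ _ _ _ _ _ _ _ _ _ _ _ _) (gd_nonneg _ _ _ _ _ _ _ _ _ _ _ _ _) (gd_le _ _ _ _ _ _ _ _ _ _ _ _ _)
  have hterm : ∀ i ∈ range J, ∀ l ∈ range J,
      ‖∫ ω, ((gd μ b C ξ a c₀ D Df u v J i (W ξ ⌊c₀ * a i⌋₊ ω) * gd μ b C ξ a c₀ D Df u v J l (W ξ ⌊c₀ * a l⌋₊ ω) : ℝ) : ℂ) *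
        e (F (a i) (XX b ξ ω) + c i - (F (a l) (XX b ξ ω) + c l)) ∂μ‖ ≤
      2 / Real.log J ^ 2 + (if a i < a l + r ^ 3 ∧ a l < a i + r ^ 3 then 1 else 0) := by
    intro i hi l hl
    rw [mem_range] at hi hl
    have hpos : 0 ≤ 2 / Real.log J ^ 2 := by positivity
    split_ifs with hc
    · have := htriv i l (fun ω => F (a i) (XX b ξ ω) + c i - (F (a l) (XX b ξ ω) + c l))
      linarith
    · rw [add_zero]
      rw [not_and_or, not_lt, not_lt] at hc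
      rcases hc with hc | hc
      · have h3 := hfar i l hl hc (c i - c l)
        have h4 : ∀ ω, F (a i) (XX b ξ ω) + c i - (F (a l) (XX b ξ ω) + c l) =
            F (a i) (XX b ξ ω) - F (a l) (XX b ξ ω) + (c i - c l) := fun ω => by ring
        simp only [h4]
        exact h3
      · have h3 := hfar l i hi hc (c l - c i)
        have h4 : ∀ ω, ((gd μ b C ξ a c₀ D Df u v J i (W ξ ⌊c₀ * a i⌋₊ ω) * gd μ b C ξ a c₀ D Df u v J l (W ξ ⌊c₀ * a l⌋₊ ω) : ℝ) : ℂ) *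
            e (F (a i) (XX b ξ ω) + c i - (F (a l) (XX b ξ ω) + c l)) =
            (starRingEnd ℂ) (((gd μ b C ξ a c₀ D Df u v J l (W ξ ⌊c₀ * a l⌋₊ ω) * gd μ b C ξ a c₀ D Df u v J i (W ξ ⌊c₀ * a i⌋₊ ω) : ℝ) : ℂ) *
            e (F (a l) (XX b ξ ω) - F (a i) (XX b ξ ω) + (c l - c i))) := by
          intro ω
          rw [map_mul, Complex.conj_ofReal, conj_e, mul_comm (gd μ b C ξ a c₀ D Df u v J i (W ξ ⌊c₀ * a i⌋₊ ω))]
          congr 2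
          ring
        simp only [h4]
        rw [integral_conj, Complex.norm_conj]
        exact h3
  have hrow : ∀ i ∈ range J, ∑ l ∈ range J,
      ‖∫ ω, ((gd μ b C ξ a c₀ D Df u v J i (W ξ ⌊c₀ * a i⌋₊ ω) * gd μ b C ξ a c₀ D Df u v J l (W ξ ⌊c₀ * a l⌋₊ ω) : ℝ) : ℂ) *
        e (F (a i) (XX b ξ ω) + c i - (F (a l) (XX b ξ ω) + c l)) ∂μ‖ ≤ J * (2 / Real.log J ^ 2) + 3 * (r : ℝ) ^ 3 := by
    intro i hi
    have h1 : ∑ l ∈ range J, (if a i < a l + r ^ 3 ∧ a l < a i + r ^ 3 then (1 : ℝ) else 0) ≤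
        3 * (r : ℝ) ^ 3 := by
      rw [Finset.sum_boole]
      have h2 : ((range J).filter (fun l => a i < a l + r ^ 3 ∧ a l < a i + r ^ 3)).card ≤
          (Finset.Icc (a i - r ^ 3) (a i + r ^ 3)).card := by
        apply Finset.card_le_card_of_injOn a
        · intro l hl
          rw [Finset.mem_coe, Finset.mem_filter] at hl
          rw [Finset.mem_coe, Finset.mem_Icc]
          omega
        · exact ha.injective.injOn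
      have h3 : 1 ≤ r ^ 3 := Nat.one_le_pow _ _ (by omega)
      rw [Nat.card_Icc] at h2
      have h4 : ((range J).filter (fun l => a i < a l + r ^ 3 ∧ a l < a i + r ^ 3)).card ≤ 3 * r ^ 3 := by
        omega
      exact_mod_cast h4
    calc _ ≤ ∑ l ∈ range J, (2 / Real.log J ^ 2 +
          (if a i < a l + r ^ 3 ∧ a l < a i + r ^ 3 then 1 else 0)) :=
          Finset.sum_le_sum (hterm i hi)
      _ = J * (2 / Real.log J ^ 2) +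
          ∑ l ∈ range J, (if a i < a l + r ^ 3 ∧ a l < a i + r ^ 3 then (1 : ℝ) else 0) := by
        rw [Finset.sum_add_distrib, Finset.sum_const, nsmul_eq_mul, Finset.card_range]
      _ ≤ _ := by linarith
  refine (Finset.sum_le_sum hrow).trans ?_
  rw [Finset.sum_const, nsmul_eq_mul, Finset.card_range]
  calc (J : ℝ) * (J * (2 / Real.log J ^ 2) + 3 * (r : ℝ) ^ 3) ≤
        J * (J * (2 / Real.log J ^ 2) + 3 * (((D : ℝ) + 1) * J / Real.log J ^ 2)) := by gcongr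
    _ = (2 + 3 * ((D : ℝ) + 1)) * (J : ℝ) ^ 2 / Real.log J ^ 2 := by ring

end Pool.Agent.Helper46.TK
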