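import Pool.Agent.Helper46.TK.Chf

/-!
# Thin laws, nonlinear case: one correlation, and the second moment
-/

set_option autoImplicit false

namespace Pool.Agent.Helper46.TK

open Finset MeasureTheory ProbabilityTheory Filter Topology
open Pool.Agent.Helper59.RE (e norm_e e_add e_sub conj_e continuous_e)

/-- the number with the digits `w` -/
noncomputable def xw (b : ℕ) {m : ℕ} (w : Fin m → ℤ) : ℝ := ∑ i : Fin m, (w i : ℝ) / (b : ℝ) ^ (i : ℕ)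

theorem hd_eq {Ω : Type*} (b : ℕ) (ξ : ℕ → Ω → ℤ) (m : ℕ) (ω : Ω) : hd b ξ m ω = xw b (W ξ m ω) := by
  unfold hd xw W
  rw [← Fin.sum_univ_eq_sum_range (fun k => (ξ k ω : ℝ) / (b : ℝ) ^ k) m]

theorem measurable_W {Ω : Type*} [MeasurableSpace Ω] (ξ : ℕ → Ω → ℤ) (hξ : ∀ k, Measurable (ξ k)) (m : ℕ) :
    Measurable (W ξ m) := by
  rw [measurable_pi_iff]
  intro i
  exact hξ i

/-- `e` is Lipschitz -/
theorem e_lip (x y : ℝ) : ‖e x - e y‖ ≤ 2 * Real.pi * |x - y| := by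
  have h1 : e x - e y = e y * (e (x - y) - 1) := by
    rw [mul_sub, ← e_add, mul_one]
    congr 2
    ring
  rw [h1, norm_mul, norm_e, one_mul]
  have h2 : e (x - y) = Complex.exp (Complex.I * ((2 * Real.pi * (x - y) : ℝ) : ℂ)) := by
    unfold e
    congr 1
    push_cast
    ring
  rw [h2]
  refine (Real.norm_exp_I_mul_ofReal_sub_one_le).trans ?_
  rw [Real.norm_eq_abs, abs_mul, abs_of_pos (by positivity : (0 : ℝ) < 2 * Real.pi)]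

/-- one correlation -/
theorem pair_bound {Ω : Type*} [MeasurableSpace Ω] (μ : Measure Ω) [IsProbabilityMeasure μ]
    (ξ : ℕ → Ω → ℤ) (hξ : ∀ k, Measurable (ξ k)) (hind : iIndepFun ξ μ) (C : ℕ)
    (hC : ∀ k ω, |ξ k ω| ≤ C) (b : ℕ) (hb : 2 ≤ b) (u v : ℝ) (F₁ F₂ D₁ D₂ : ℝ → ℝ)
    (hF₁ : Measurable F₁) (hF₂ : Measurable F₂) (m m' : ℕ) (hm : m' ≤ m)
    (g : (Fin m → ℤ) → ℝ) (g' : (Fin m' → ℤ) → ℝ) (hg0 : ∀ w, 0 ≤ g w) (hg1 : ∀ w, g w ≤ 1)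
    (hg0' : ∀ w, 0 ≤ g' w) (hg1' : ∀ w, g' w ≤ 1) (η Q : ℝ) (hη : 0 ≤ η) (hQ : 0 ≤ Q)
    (hlin : ∀ x y : ℝ, x ∈ Set.Icc u v → y ∈ Set.Icc u v → |y - x| ≤ 2 * C / (b : ℝ) ^ m →
      |F₁ y - F₁ x - D₁ x * (y - x)| ≤ Q ∧ |F₂ y - F₂ x - D₂ x * (y - x)| ≤ Q)
    (hg : ∀ w, g w ≠ 0 → (u + 2 * C / (b : ℝ) ^ m ≤ xw b w ∧ xw b w ≤ v - 2 * C / (b : ℝ) ^ m) ∧
      ‖∫ ω, e ((D₁ (xw b w) - D₂ (xw b w)) * XX b (tl ξ m) ω) ∂μ‖ ≤ η) (c : ℝ) :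
    ‖∫ ω, ((g (W ξ m ω) * g' (W ξ m' ω) : ℝ) : ℂ) * e (F₁ (XX b ξ ω) - F₂ (XX b ξ ω) + c) ∂μ‖ ≤
      η + 4 * Real.pi * Q := by
  set G : (Fin m → ℤ) → ℝ := fun w => g w * g' (fun i => w (Fin.castLE hm i)) with hG
  have hGW : ∀ ω, G (W ξ m ω) = g (W ξ m ω) * g' (W ξ m' ω) := by
    intro ω
    rw [hG]
    rfl
  have hG0 : ∀ w, 0 ≤ G w := fun w => mul_nonneg (hg0 _) (hg0' _)
  have hG1 : ∀ w, G w ≤ 1 := fun w => mul_le_one₀ (hg1 _) (hg0' _) (hg1' _)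
  have hGne : ∀ w, G w ≠ 0 → g w ≠ 0 := fun w hw h0 => hw (by rw [hG]; simp only [h0, zero_mul])
  have hZm : Measurable (XX b (tl ξ m)) := by
    refine measurable_XX b hb C (tl ξ m) (fun k => ?_) (fun k ω => tl_abs hC m k ω)
    exact (measurable_from_top (f := fun z : ℤ => if m ≤ k then z else 0)).comp (hξ k)
  have hXm : Measurable (XX b ξ) := measurable_XX b hb C ξ hξ hC
  have hWm := measurable_W ξ hξ m
  have h1 := cond_bound μ (W ξ m) hWm (XX b (tl ξ m)) hZm (indep_W μ ξ hξ hind C hC b hb m) G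
    (fun w => F₁ (xw b w) - F₂ (xw b w) + c) (fun w => D₁ (xw b w) - D₂ (xw b w)) hG0 hG1 η hη
    (fun w hw => (hg w (hGne w hw)).2)
  -- the difference
  have hGm : Measurable (fun ω => ((G (W ξ m ω) : ℝ) : ℂ)) :=
    (Measurable.of_discrete (f := fun w : Fin m → ℤ => ((G w : ℝ) : ℂ))).comp hWm
  have hGn : ∀ ω, ‖((G (W ξ m ω) : ℝ) : ℂ)‖ ≤ 1 := by
    intro ω
    rw [Complex.norm_real, Real.norm_eq_abs, abs_of_nonneg (hG0 _)]
    exact hG1 _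
  have hint1 : Integrable (fun ω => ((G (W ξ m ω) : ℝ) : ℂ) * e (F₁ (XX b ξ ω) - F₂ (XX b ξ ω) + c)) μ := by
    refine Integrable.of_bound ?_ 1 (Eventually.of_forall fun ω => ?_)
    · refine (hGm.mul (continuous_e.measurable.comp ?_)).aestronglyMeasurable
      exact ((hF₁.comp hXm).sub (hF₂.comp hXm)).add_const c
    · rw [norm_mul, norm_e, mul_one]
      exact hGn ω
  have hint2 : Integrable (fun ω => ((G (W ξ m ω) : ℝ) : ℂ) *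
      e ((F₁ (xw b (W ξ m ω)) - F₂ (xw b (W ξ m ω)) + c) +
        (D₁ (xw b (W ξ m ω)) - D₂ (xw b (W ξ m ω))) * XX b (tl ξ m) ω)) μ := by
    refine Integrable.of_bound ?_ 1 (Eventually.of_forall fun ω => ?_)
    · refine (hGm.mul (continuous_e.measurable.comp ?_)).aestronglyMeasurable
      refine Measurable.add ?_ (Measurable.mul ?_ hZm)
      · exact (Measurable.of_discrete (f := fun w : Fin m → ℤ => F₁ (xw b w) - F₂ (xw b w) + c)).comp hWm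
      · exact (Measurable.of_discrete (f := fun w : Fin m → ℤ => D₁ (xw b w) - D₂ (xw b w))).comp hWm
    · rw [norm_mul, norm_e, mul_one]
      exact hGn ω
  have h2 : ‖∫ ω, (((G (W ξ m ω) : ℝ) : ℂ) * e (F₁ (XX b ξ ω) - F₂ (XX b ξ ω) + c) -
      ((G (W ξ m ω) : ℝ) : ℂ) *
      e ((F₁ (xw b (W ξ m ω)) - F₂ (xw b (W ξ m ω)) + c) +
        (D₁ (xw b (W ξ m ω)) - D₂ (xw b (W ξ m ω))) * XX b (tl ξ m) ω)) ∂μ‖ ≤ 4 * Real.pi * Q := by
    refine (norm_integral_le_of_norm_le_const (C := 4 * Real.pi * Q) (Eventually.of_forall fun ω => ?_)).trans (by simp)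
    by_cases h0 : G (W ξ m ω) = 0
    · simp only [h0, Complex.ofReal_zero, zero_mul, sub_zero, norm_zero]
      have := Real.pi_pos
      positivity
    · obtain ⟨⟨hs1, hs2⟩, -⟩ := hg _ (hGne _ h0)
      have hX := hd_add_tl b hb ξ C hC m ω
      rw [hd_eq] at hX
      have hZ := tl_le b hb ξ C hC m ω
      have hZ' := abs_le.1 hZ
      have hZ0 : 0 ≤ 2 * C / (b : ℝ) ^ m := by positivity
      have hl := hlin (xw b (W ξ m ω)) (XX b ξ ω) ⟨by linarith, by linarith⟩ ⟨by linarith, by linarith⟩ (by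
        rw [hX, add_sub_cancel_left]
        exact hZ)
      have hd : XX b ξ ω - xw b (W ξ m ω) = XX b (tl ξ m) ω := by rw [hX]; ring
      rw [hd] at hl
      rw [← mul_sub, norm_mul]
      refine (mul_le_mul (hGn ω) (e_lip _ _) (norm_nonneg _) zero_le_one).trans ?_
      rw [one_mul]
      have h3 : |F₁ (XX b ξ ω) - F₂ (XX b ξ ω) + c - ((F₁ (xw b (W ξ m ω)) - F₂ (xw b (W ξ m ω)) + c) +
        (D₁ (xw b (W ξ m ω)) - D₂ (xw b (W ξ m ω))) * XX b (tl ξ m) ω)| ≤ 2 * Q := by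
        have h4 : F₁ (XX b ξ ω) - F₂ (XX b ξ ω) + c - ((F₁ (xw b (W ξ m ω)) - F₂ (xw b (W ξ m ω)) + c) +
          (D₁ (xw b (W ξ m ω)) - D₂ (xw b (W ξ m ω))) * XX b (tl ξ m) ω) =
          (F₁ (XX b ξ ω) - F₁ (xw b (W ξ m ω)) - D₁ (xw b (W ξ m ω)) * XX b (tl ξ m) ω) -
          (F₂ (XX b ξ ω) - F₂ (xw b (W ξ m ω)) - D₂ (xw b (W ξ m ω)) * XX b (tl ξ m) ω) := by ring
        rw [h4]
        refine (abs_sub _ _).trans ?_
        linarith [hl.1, hl.2]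
      have hpi := Real.pi_pos
      calc 2 * Real.pi * _ ≤ 2 * Real.pi * (2 * Q) := mul_le_mul_of_nonneg_left h3 (by positivity)
        _ = 4 * Real.pi * Q := by ring
  rw [integral_sub hint1 hint2] at h2
  simp only [hGW] at h1 h2
  have h5 := norm_sub_norm_le (∫ ω, ((g (W ξ m ω) * g' (W ξ m' ω) : ℝ) : ℂ) * e (F₁ (XX b ξ ω) - F₂ (XX b ξ ω) + c) ∂μ)
    (∫ ω, ((g (W ξ m ω) * g' (W ξ m' ω) : ℝ) : ℂ) *
      e ((F₁ (xw b (W ξ m ω)) - F₂ (xw b (W ξ m ω)) + c) +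
        (D₁ (xw b (W ξ m ω)) - D₂ (xw b (W ξ m ω))) * XX b (tl ξ m) ω) ∂μ)
  linarith

/-- the second moment of a weighted exponential sum -/
theorem second_moment_w {Ω : Type*} [MeasurableSpace Ω] (μ : Measure Ω) [IsProbabilityMeasure μ]
    (Y : ℕ → Ω → ℝ) (hY : ∀ i, Measurable (Y i)) (g : ℕ → Ω → ℝ) (hg : ∀ i, Measurable (g i))
    (hg0 : ∀ i ω, 0 ≤ g i ω) (hg1 : ∀ i ω, g i ω ≤ 1) (s : Finset ℕ) :
    ∫ ω, ‖∑ i ∈ s, ((g i ω : ℝ) : ℂ) * e (Y i ω)‖ ^ 2 ∂μ ≤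
      ∑ i ∈ s, ∑ l ∈ s, ‖∫ ω, ((g i ω * g l ω : ℝ) : ℂ) * e (Y i ω - Y l ω) ∂μ‖ := by
  have hint : ∀ i l, Integrable (fun ω => ((g i ω * g l ω : ℝ) : ℂ) * e (Y i ω - Y l ω)) μ := by
    intro i l
    refine Integrable.of_bound ?_ 1 (Eventually.of_forall fun ω => ?_)
    · exact ((Complex.measurable_ofReal.comp ((hg i).mul (hg l))).mul
        (continuous_e.measurable.comp ((hY i).sub (hY l)))).aestronglyMeasurable
    · rw [norm_mul, norm_e, mul_one, Complex.norm_real, Real.norm_eq_abs, abs_of_nonneg (mul_nonneg (hg0 _ _) (hg0 _ _))]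
      exact mul_le_one₀ (hg1 _ _) (hg0 _ _) (hg1 _ _)
  have key : ∀ ω, ((‖∑ i ∈ s, ((g i ω : ℝ) : ℂ) * e (Y i ω)‖ ^ 2 : ℝ) : ℂ) =
      ∑ i ∈ s, ∑ l ∈ s, ((g i ω * g l ω : ℝ) : ℂ) * e (Y i ω - Y l ω) := by
    intro ω
    rw [Complex.ofReal_pow, ← Complex.conj_mul', map_sum, Finset.sum_mul_sum, Finset.sum_comm]
    refine Finset.sum_congr rfl fun i _ => Finset.sum_congr rfl fun l _ => ?_
    rw [map_mul, Complex.conj_ofReal, e_sub, Complex.ofReal_mul]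
    ring
  have h1 : ((∫ ω, ‖∑ i ∈ s, ((g i ω : ℝ) : ℂ) * e (Y i ω)‖ ^ 2 ∂μ : ℝ) : ℂ) =
      ∑ i ∈ s, ∑ l ∈ s, ∫ ω, ((g i ω * g l ω : ℝ) : ℂ) * e (Y i ω - Y l ω) ∂μ := by
    rw [← integral_complex_ofReal]
    simp_rw [key]
    rw [integral_finsetSum _ fun i _ => integrable_finsetSum _ fun l _ => hint _ _]
    refine Finset.sum_congr rfl fun i _ => ?_
    rw [integral_finsetSum _ fun l _ => hint _ _]
  have h2 : ∫ ω, ‖∑ i ∈ s, ((g i ω : ℝ) : ℂ) * e (Y i ω)‖ ^ 2 ∂μ ≤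
      ‖((∫ ω, ‖∑ i ∈ s, ((g i ω : ℝ) : ℂ) * e (Y i ω)‖ ^ 2 ∂μ : ℝ) : ℂ)‖ := by
    rw [Complex.norm_real]
    exact le_abs_self _
  refine h2.trans ?_
  rw [h1]
  exact (norm_sum_le _ _).trans (Finset.sum_le_sum fun i _ => norm_sum_le _ _)

end Pool.Agent.Helper46.TK
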